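import Pool.Agent.X96.DM.High

/-!
The bilinear term on the Fourier side.
-/

open MeasureTheory Set Filter Topology
open scoped ENNReal
open H459R3.NS Pool.Agent.X96.HT

namespace Pool.Agent.X96.DM

variable {η : Md → Md → Md → ℝ} {U : K3 → C3} {k p q : K3} {a b c : C3}

lemma bil_add_left (η : Md → Md → Md → ℝ) (k p q : K3) (b b' c : C3) :
    bil η k p q (b + b') c = bil η k p q b c + bil η k p q b' c := by
  unfold bil
  simp only [← Finset.sum_add_distrib]
  refine Finset.sum_congr rfl fun r _ => Finset.sum_congr rfl fun s _ =>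
    Finset.sum_congr rfl fun t _ => ?_
  rw [hel_add, dp_add, mul_add, add_smul, hel_add, smul_add]

lemma bil_add_right (η : Md → Md → Md → ℝ) (k p q : K3) (b c c' : C3) :
    bil η k p q b (c + c') = bil η k p q b c + bil η k p q b c' := by
  unfold bil
  simp only [← Finset.sum_add_distrib]
  refine Finset.sum_congr rfl fun r _ => Finset.sum_congr rfl fun s _ =>
    Finset.sum_congr rfl fun t _ => ?_
  rw [hel_add t, smul_add, hel_add, smul_add]

lemma bil_smul_left (η : Md → Md → Md → ℝ) (k p q : K3) (x : ℂ) (b c : C3) :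
    bil η k p q (x • b) c = x • bil η k p q b c := by
  unfold bil
  simp only [Finset.smul_sum]
  refine Finset.sum_congr rfl fun r _ => Finset.sum_congr rfl fun s _ =>
    Finset.sum_congr rfl fun t _ => ?_
  rw [hel_smul s, dp_smul, ← mul_assoc, mul_comm _ x, mul_assoc, mul_smul, hel_smul r, smul_comm]

lemma bil_smul_right (η : Md → Md → Md → ℝ) (k p q : K3) (x : ℂ) (b c : C3) :
    bil η k p q b (x • c) = x • bil η k p q b c := by
  unfold bil
  simp only [Finset.smul_sum]
  refine Finset.sum_congr rfl fun r _ => Finset.sum_congr rfl fun s _ =>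
    Finset.sum_congr rfl fun t _ => ?_
  rw [hel_smul t, smul_comm _ x, hel_smul r, smul_comm]

lemma bil_sub_left (η : Md → Md → Md → ℝ) (k p q : K3) (b b' c : C3) :
    bil η k p q (b - b') c = bil η k p q b c - bil η k p q b' c := by
  have h := bil_add_left η k p q (b - b') b' c
  rw [sub_add_cancel] at h
  rw [h, add_sub_cancel_right]

lemma bil_sub_right (η : Md → Md → Md → ℝ) (k p q : K3) (b c c' : C3) :
    bil η k p q b (c - c') = bil η k p q b c - bil η k p q b c' := by
  have h := bil_add_right η k p q b (c - c') c'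
  rw [sub_add_cancel] at h
  rw [h, add_sub_cancel_right]

lemma kc_add (k p : K3) : kc (k + p) = kc k + kc p := by
  funext j
  unfold kc
  simp

lemma dp_add_left (a b c : C3) : dp (a + b) c = dp a c + dp b c := by unfold dp; simp; ring

lemma dp_hel_out (h : p + q = k) (s : Bool) (b : C3) :
    dp (kc q) (hel s p b) = dp (kc k) (hel s p b) := by
  rw [← h, kc_add, dp_add_left, dp_hel, zero_add]

/-- the constant in the bound of the bilinear term -/
noncomputable def cB (H : ℝ) : ℝ := 8 * (H * (3 * (2 * Real.pi * (3 * 3) * 3)))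

lemma cB_nonneg {H : ℝ} (hH : 0 ≤ H) : 0 ≤ cB H := by unfold cB; positivity

lemma norm_bil_le {H : ℝ} (hH : ∀ a b c, |η a b c| ≤ H) (h : p + q = k) (b c : C3) :
    ‖bil η k p q b c‖ ≤ cB H * kn k * (‖b‖ * ‖c‖) := by
  have hH0 : 0 ≤ H := (abs_nonneg _).trans (hH (k, true) (p, true) (q, true))
  have hk := kn_nonneg k
  have hpi := Real.pi_pos
  have key : ∀ r s t : Bool, ‖(η (-k, r) (p, s) (q, t) : ℂ) •
      hel r k ((2 * Real.pi * Complex.I * dp (kc q) (hel s p b)) • hel t q c)‖
      ≤ H * (3 * (2 * Real.pi * (3 * 3) * 3)) * kn k * (‖b‖ * ‖c‖) := by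
    intro r s t
    rw [norm_smul, Complex.norm_real, Real.norm_eq_abs]
    have h1 := norm_hel_le r k ((2 * Real.pi * Complex.I * dp (kc q) (hel s p b)) • hel t q c)
    rw [norm_smul, norm_mul, norm_mul, norm_mul, Complex.norm_I, mul_one, Complex.norm_two,
      Complex.norm_real, Real.norm_eq_abs, abs_of_pos hpi] at h1
    have h2 := norm_dp_le (kc k) (hel s p b)
    have h3 := norm_kc_le k
    have h4 := norm_hel_le s p b
    have h5 := norm_hel_le t q c
    have h6 : ‖dp (kc q) (hel s p b)‖ ≤ 3 * (kn k * (3 * ‖b‖)) := by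
      rw [dp_hel_out h]
      exact h2.trans (by gcongr)
    calc |η (-k, r) (p, s) (q, t)| * ‖hel r k ((2 * Real.pi * Complex.I
          * dp (kc q) (hel s p b)) • hel t q c)‖
        ≤ H * (3 * (2 * Real.pi * (3 * (kn k * (3 * ‖b‖))) * (3 * ‖c‖))) := by
          gcongr
          · exact hH _ _ _
          · exact h1.trans (by gcongr)
      _ = _ := by ring
  unfold bil
  calc ‖∑ r : Bool, ∑ s : Bool, ∑ t : Bool, (η (-k, r) (p, s) (q, t) : ℂ) •
      hel r k ((2 * Real.pi * Complex.I * dp (kc q) (hel s p b)) • hel t q c)‖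
      ≤ ∑ _r : Bool, ∑ _s : Bool, ∑ _t : Bool,
        H * (3 * (2 * Real.pi * (3 * 3) * 3)) * kn k * (‖b‖ * ‖c‖) := by
        refine (norm_sum_le _ _).trans (Finset.sum_le_sum fun r _ => ?_)
        refine (norm_sum_le _ _).trans (Finset.sum_le_sum fun s _ => ?_)
        exact (norm_sum_le _ _).trans (Finset.sum_le_sum fun t _ => key r s t)
    _ = _ := by
        simp only [Finset.sum_const, Finset.card_univ, Fintype.card_bool, nsmul_eq_mul]
        unfold cB
        push_cast
        ring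

/-- complex conjugation -/
def cj (a : C3) : C3 := fun i => (starRingEnd ℂ) (a i)

lemma cj_add (a b : C3) : cj (a + b) = cj a + cj b := by
  funext i; simp [cj]

lemma cj_smul (x : ℂ) (a : C3) : cj (x • a) = (starRingEnd ℂ) x • cj a := by
  funext i; simp [cj]

lemma norm_cj (a : C3) : ‖cj a‖ = ‖a‖ := by
  refine le_antisymm ?_ ?_
  · rw [pi_norm_le_iff_of_nonneg (norm_nonneg _)]
    intro i
    unfold cj
    rw [RCLike.norm_conj]
    exact norm_le_pi_norm a i
  · rw [pi_norm_le_iff_of_nonneg (norm_nonneg _)]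
    intro i
    have := norm_le_pi_norm (cj a) i
    unfold cj at this
    rw [RCLike.norm_conj] at this
    exact this

lemma kc_neg (k : K3) : kc (-k) = -kc k := by
  funext j; unfold kc; simp

lemma cj_kc (k : K3) : cj (kc k) = kc k := by
  funext j; unfold cj kc; simp

lemma cj_dp (a b : C3) : (starRingEnd ℂ) (dp a b) = dp (cj a) (cj b) := by
  unfold dp cj; simp

lemma hel_cj (s : Bool) (k : K3) (a : C3) : hel s (-k) (cj a) = cj (hel s k a) := by
  by_cases hk : k = 0
  · subst hk
    rw [neg_zero, hel_at_zero, hel_at_zero]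
    funext i; simp [cj]
  · unfold hel
    rw [if_neg hk, if_neg (neg_ne_zero.2 hk), kn_neg]
    funext j
    unfold cj dp kc
    have h2 : (starRingEnd ℂ) (2 : ℂ) = 2 := Complex.conj_ofNat 2
    fin_cases j <;>
    · simp only [Fin.zero_eta, Fin.mk_one, Fin.reduceFinMk, Fin.isValue, cp0, cp1, cp2,
        Pi.neg_apply, Int.cast_neg, map_div₀, map_add, map_sub, map_mul, map_pow,
        Complex.conj_ofReal, Complex.conj_I, map_intCast, h2]
      ring

lemma cj_sum {ι : Type*} (s : Finset ι) (f : ι → C3) : cj (∑ i ∈ s, f i) = ∑ i ∈ s, cj (f i) := by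
  funext j
  unfold cj
  rw [Finset.sum_apply, Finset.sum_apply, map_sum]

lemma bil_cj (hη : IsWeight η) (k p q : K3) (b c : C3) :
    bil η (-k) (-p) (-q) (cj b) (cj c) = cj (bil η k p q b c) := by
  unfold bil
  simp only [cj_sum]
  refine Finset.sum_congr rfl fun r _ => Finset.sum_congr rfl fun s _ =>
    Finset.sum_congr rfl fun t _ => ?_
  have h1 := hη.neg (-k, r) (p, s) (q, t)
  simp only at h1
  have e1 : dp (kc (-q)) (cj (hel s p b)) = -(starRingEnd ℂ) (dp (kc q) (hel s p b)) := by
    rw [kc_neg, cj_dp, cj_kc]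
    unfold dp
    simp only [Pi.neg_apply]
    ring
  have h2 : (starRingEnd ℂ) (2 : ℂ) = 2 := Complex.conj_ofNat 2
  rw [h1, hel_cj, hel_cj, cj_smul, Complex.conj_ofReal, e1, ← hel_cj r k, cj_smul]
  congr 3
  simp only [map_mul, Complex.conj_ofReal, Complex.conj_I, h2]
  ring

lemma dp_bil (η : Md → Md → Md → ℝ) (k p q : K3) (b c : C3) :
    dp (kc k) (bil η k p q b c) = 0 := by
  have hs : ∀ (s : Finset Bool) (f : Bool → C3), (∀ i ∈ s, dp (kc k) (f i) = 0) →
      dp (kc k) (∑ i ∈ s, f i) = 0 := by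
    intro s f hf
    induction s using Finset.induction_on with
    | empty => unfold dp; simp
    | insert i s hi ih =>
      rw [Finset.sum_insert hi, dp_add, hf i (Finset.mem_insert_self _ _),
        ih fun j hj => hf j (Finset.mem_insert_of_mem hj), add_zero]
  unfold bil
  refine hs _ _ fun r _ => hs _ _ fun s _ => hs _ _ fun t _ => ?_
  rw [dp_smul, dp_hel, mul_zero]

/-! ### Sums -/

lemma RapV.summable (hU : RapV U) : Summable fun k => ‖U k‖ := by simpa using hU 0

lemma norm_le_tsum (hU : RapV U) (k : K3) : ‖U k‖ ≤ ∑' m, ‖U m‖ :=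
  (RapV.summable hU).le_tsum k fun _ _ => norm_nonneg _

lemma bil_summable {H : ℝ} (hH : ∀ a b c, |η a b c| ≤ H) {U W : K3 → C3}
    (hU : Summable fun k => ‖U k‖) (hW : Summable fun k => ‖W k‖) (k : K3) :
    Summable fun p => ‖bil η k p (k - p) (U p) (W (k - p))‖ := by
  have hH0 : 0 ≤ H := (abs_nonneg _).trans (hH (0, true) (0, true) (0, true))
  refine Summable.of_nonneg_of_le (fun p => norm_nonneg _) (fun p => ?_)
    (hU.mul_left (cB H * kn k * ∑' m, ‖W m‖))
  refine (norm_bil_le hH (by abel) _ _).trans ?_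
  have h1 := hW.le_tsum (k - p) fun _ _ => norm_nonneg _
  have h2 := cB_nonneg hH0
  have h3 := kn_nonneg k
  calc cB H * kn k * (‖U p‖ * ‖W (k - p)‖) ≤ cB H * kn k * (‖U p‖ * ∑' m, ‖W m‖) := by gcongr
    _ = _ := by ring

lemma nonl_cj (hη : IsWeight η) (hreal : ∀ k, U (-k) = cj (U k)) (k : K3) :
    nonl η U (-k) = cj (nonl η U k) := by
  unfold nonl
  have h1 : ∀ p : K3, bil η (-k) (-p) (-k - -p) (U (-p)) (U (-k - -p))
      = cj (bil η k p (k - p) (U p) (U (k - p))) := by
    intro p
    rw [← bil_cj hη, hreal p, ← hreal (k - p)]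
    congr 1 <;> [abel; (congr 1; abel)]
  rw [← (Equiv.neg K3).tsum_eq (fun p => bil η (-k) p (-k - p) (U p) (U (-k - p)))]
  simp only [Equiv.neg_apply]
  simp_rw [h1]
  have e : ∀ a : C3, cj a = star a := fun a => by
    funext i; simp [cj]
  simp_rw [e]
  exact tsum_star.symm

lemma dp_tsum {f : K3 → C3} (hf : Summable f) (a : C3) : dp a (∑' p, f p) = ∑' p, dp a (f p) := by
  have hi : ∀ i, Summable fun p => f p i := fun i => (Pi.summable.1 hf) i
  unfold dp
  rw [((hi 0).mul_left (a 0)).add ((hi 1).mul_left (a 1)) |>.tsum_add ((hi 2).mul_left (a 2)),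
    ((hi 0).mul_left (a 0)).tsum_add ((hi 1).mul_left (a 1)), tsum_mul_left, tsum_mul_left,
    tsum_mul_left, tsum_apply hf, tsum_apply hf, tsum_apply hf]

lemma dp_nonl {H : ℝ} (hH : ∀ a b c, |η a b c| ≤ H) (hU : Summable fun k => ‖U k‖) (k : K3) :
    dp (kc k) (nonl η U k) = 0 := by
  unfold nonl
  rw [dp_tsum (bil_summable hH hU hU k).of_norm]
  simp_rw [dp_bil]
  exact tsum_zero

lemma nonl_zero (η : Md → Md → Md → ℝ) (U : K3 → C3) : nonl η U 0 = 0 := by
  unfold nonl bil
  simp only [hel_at_zero, smul_zero, Finset.sum_const_zero, tsum_zero]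

lemma dp_sum {ι : Type*} (s : Finset ι) (a : C3) (f : ι → C3) :
    dp a (∑ i ∈ s, f i) = ∑ i ∈ s, dp a (f i) := by
  classical
  induction s using Finset.induction_on with
  | empty => unfold dp; simp
  | insert i s hi ih => rw [Finset.sum_insert hi, Finset.sum_insert hi, dp_add, ih]

/-- the pairing with the nonlinear term -/
lemma dp_bil_eq (k p : K3) (hdiv : ∀ k, dp (kc k) (U k) = 0) :
    dp (U k) (bil η (-k) p (-k - p) (U p) (U (-k - p)))
      = 2 * Real.pi * ∑ r : Bool, ∑ s : Bool, ∑ t : Bool,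
        (η (k, r) (p, s) (-k - p, t) : ℂ) *
        t0 (-k - p) (par r k (U k)) (par s p (U p)) (par t (-k - p) (U (-k - p))) := by
  unfold bil
  simp only [dp_sum, Finset.mul_sum]
  refine Finset.sum_congr rfl fun r _ => Finset.sum_congr rfl fun s _ =>
    Finset.sum_congr rfl fun t _ => ?_
  rw [dp_smul, dp_hel_adj, neg_neg, dp_smul, hel_eq_par r (hdiv k), hel_eq_par s (hdiv p),
    hel_eq_par t (hdiv _)]
  unfold t0
  rw [dp_comm (par t (-k - p) (U (-k - p))) (par r k (U k))]
  ring

lemma pairing (hη : IsWeight η) (hU : RapV U) (hdiv : ∀ k, dp (kc k) (U k) = 0)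
    (hreal : ∀ k, U (-k) = cj (U k)) (m : ℕ) :
    HasSum (fun k => (kn k ^ m : ℂ) * ∑ i, (starRingEnd ℂ) (U k i) * nonl η U k i)
      (2 * Real.pi * T3s (fw η (fun k => kn k ^ m) U)) := by
  obtain ⟨H, hH⟩ := hη.bdd
  have hS := S3s_fw hH hU hdiv m
  have h1 : HasSum (fun p : K3 × K3 => 2 * Real.pi
      * fw η (fun k => kn k ^ m) U p.1 p.2 (-p.1 - p.2))
      (2 * Real.pi * T3s (fw η (fun k => kn k ^ m) U)) :=
    (Summable.hasSum hS).mul_left _
  have hU0 := RapV.summable hU
  have h2 : ∀ k, HasSum (fun p => 2 * Real.pi * fw η (fun k => kn k ^ m) U k p (-k - p))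
      ((kn k ^ m : ℂ) * dp (U k) (nonl η U (-k))) := by
    intro k
    have hs := (bil_summable hH hU0 hU0 (-k)).of_norm
    have h3 : HasSum (fun p => dp (U k) (bil η (-k) p (-k - p) (U p) (U (-k - p))))
        (dp (U k) (nonl η U (-k))) := by
      have hs' : Summable fun p => dp (U k) (bil η (-k) p (-k - p) (U p) (U (-k - p))) := by
        have hi : ∀ i, Summable fun p => bil η (-k) p (-k - p) (U p) (U (-k - p)) i :=
          fun i => (Pi.summable.1 hs) i
        unfold dp
        exact (((hi 0).mul_left _).add ((hi 1).mul_left _)).add ((hi 2).mul_left _)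
      have := hs'.hasSum
      rwa [← dp_tsum hs] at this
    have h4 := h3.mul_left (kn k ^ m : ℂ)
    have e : (fun p => 2 * Real.pi * fw η (fun k => kn k ^ m) U k p (-k - p))
        = fun p => (kn k ^ m : ℂ) * dp (U k) (bil η (-k) p (-k - p) (U p) (U (-k - p))) := by
      funext p
      rw [dp_bil_eq k p hdiv]
      unfold fw
      push_cast
      ring
    rw [e]
    exact h4
  have h5 := h1.prod_fiberwise h2
  have h6 := (Equiv.neg K3).hasSum_iff.2 h5
  have e : (fun k => (kn k ^ m : ℂ) * ∑ i, (starRingEnd ℂ) (U k i) * nonl η U k i)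
      = (fun k => (kn k ^ m : ℂ) * dp (U k) (nonl η U (-k))) ∘ ⇑(Equiv.neg K3) := by
    funext k
    simp only [Function.comp_apply, Equiv.neg_apply, neg_neg, kn_neg]
    rw [hreal k]
    congr 1
    rw [Fin.sum_univ_three]
    rfl
  rw [e]
  exact h6

end Pool.Agent.X96.DM
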