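import Pool.Agent.X96.HT.Fin2

/-!
The Navier-Stokes equations with weights on the triads of helical modes.
-/

open MeasureTheory Set
open scoped ContDiff
open H459R3.NS Pool.Agent.X96.HT

namespace Pool.Agent.X96.DM

/-- Helical modes: a frequency and a sign of helicity (`true` for `+`). -/
abbrev Md := K3 × Bool

/-- The part of `a ∈ ℂ³` which is orthogonal to `k` and on which `i k ×` acts as `± |k|`:
`(a - (k·a) k / |k|² ± i k × a / |k|) / 2`. It is `0` for `k = 0`. -/
noncomputable def hel (s : Bool) (k : K3) (a : C3) : C3 :=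
  if k = 0 then 0 else fun j =>
    (a j - dp (kc k) a * kc k j / (kn k : ℂ) ^ 2 + sg s * Complex.I * cp (kc k) a j / kn k) / 2

/-- Weights on the triads of helical modes: bounded functions of the unordered triad, with the same
value for the triad of the opposite frequencies. -/
structure IsWeight (η : Md → Md → Md → ℝ) : Prop where
  swap : ∀ a b c, η b a c = η a b c
  rot : ∀ a b c, η b c a = η a b c
  neg : ∀ a b c : Md, η (-a.1, a.2) (-b.1, b.2) (-c.1, c.2) = η a b c
  bdd : ∃ H, ∀ a b c, |η a b c| ≤ H

/-- The contribution to the coefficient at `k = p + q` of the projection of `(u·∇) u` onto the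
divergence-free fields from the coefficient `b` at `p` and the coefficient `c` at `q`, with the
interaction of the helical modes `(p, s)` and `(q, t)` in `(k, r)` multiplied by
`η (-k, r) (p, s) (q, t)`. -/
noncomputable def bil (η : Md → Md → Md → ℝ) (k p q : K3) (b c : C3) : C3 :=
  ∑ r : Bool, ∑ s : Bool, ∑ t : Bool, (η (-k, r) (p, s) (q, t) : ℂ) •
    hel r k ((2 * Real.pi * Complex.I * dp (kc q) (hel s p b)) • hel t q c)

/-- The coefficients of the nonlinear term: the sum over all `p + q = k`. -/
noncomputable def nonl (η : Md → Md → Md → ℝ) (U : K3 → C3) (k : K3) : C3 :=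
  ∑' p : K3, bil η k p (k - p) (U p) (U (k - p))

/-- `u` is a smooth `1`-periodic divergence-free field for the times in `I` which satisfies the
Navier-Stokes equations with viscosity `ν`, without force, with the interactions of the helical
modes multiplied by `η`. The equations are stated for the Fourier coefficients:
`d/dt û(k) = - ν (2 π |k|)² û(k) - (the projection of the weighted (u·∇) u at k)`. -/
structure IsSolW (η : Md → Md → Md → ℝ) (ν : ℝ) (I : Set ℝ) (u : ℝ → V → V) : Prop where
  smooth : ContDiffOn ℝ ∞ (fun z : ℝ × V => u z.1 z.2) (I ×ˢ univ)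
  per : ∀ t ∈ I, Per (u t)
  divfree : ∀ t ∈ I, ∀ x, ∑ i, pd i (fun y => u t y i) x = 0
  eqn : ∀ t ∈ I, 0 < t → ∀ k i, HasDerivAt (fun s => co (u s) k i)
    (-((ν * (2 * Real.pi * kn k) ^ 2 : ℝ) : ℂ) * co (u t) k i - nonl η (co (u t)) k i) t

/-! ### First properties -/

lemma dp_add (a b c : C3) : dp a (b + c) = dp a b + dp a c := by unfold dp; simp; ring

lemma dp_smul (a b : C3) (x : ℂ) : dp a (x • b) = x * dp a b := by unfold dp; simp; ring

lemma cp_add (a b c : C3) : cp a (b + c) = cp a b + cp a c := by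
  funext j; fin_cases j <;> simp [cp] <;> ring

lemma cp_smul (a b : C3) (x : ℂ) : cp a (x • b) = x • cp a b := by
  funext j; fin_cases j <;> simp [cp] <;> ring

lemma hel_at_zero (s : Bool) (a : C3) : hel s 0 a = 0 := if_pos rfl

lemma hel_add (s : Bool) (k : K3) (a b : C3) : hel s k (a + b) = hel s k a + hel s k b := by
  by_cases hk : k = 0
  · subst hk; simp [hel_at_zero]
  · unfold hel
    rw [if_neg hk, if_neg hk, if_neg hk]
    funext j
    simp only [dp_add, cp_add, Pi.add_apply]
    ring

lemma hel_smul (s : Bool) (k : K3) (x : ℂ) (a : C3) : hel s k (x • a) = x • hel s k a := by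
  by_cases hk : k = 0
  · subst hk; simp [hel_at_zero]
  · unfold hel
    rw [if_neg hk, if_neg hk]
    funext j
    simp only [dp_smul, cp_smul, Pi.smul_apply, smul_eq_mul]
    ring

/-- on the orthogonal complement of `k` -/
lemma hel_eq_par {k : K3} {a : C3} (s : Bool) (ha : dp (kc k) a = 0) : hel s k a = par s k a := by
  by_cases hk : k = 0
  · subst hk; rw [hel_at_zero, par_zero]
  · unfold hel par
    rw [if_neg hk, if_neg hk]
    funext j
    rw [ha]
    simp

lemma dp_hel (s : Bool) (k : K3) (a : C3) : dp (kc k) (hel s k a) = 0 := by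
  by_cases hk : k = 0
  · subst hk; simp [dp, kc]
  · have hn : (kn k : ℂ) ≠ 0 := by exact_mod_cast (kn_pos hk).ne'
    have hkk := kc_sq k
    unfold hel
    rw [if_neg hk]
    unfold dp at *
    simp only [cp0, cp1, cp2]
    field_simp
    linear_combination (-(kc k 0 * a 0 + kc k 1 * a 1 + kc k 2 * a 2)) * hkk

lemma norm_hel_le (s : Bool) (k : K3) (a : C3) : ‖hel s k a‖ ≤ 3 * ‖a‖ := by
  by_cases hk : k = 0
  · subst hk; rw [hel_at_zero, norm_zero]; positivity
  · have hn := kn_pos hk
    rw [pi_norm_le_iff_of_nonneg (by positivity)]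
    intro j
    simp only [hel, if_neg hk]
    have h1 : ‖cp (kc k) a j‖ ≤ 2 * (kn k * ‖a‖) := by
      refine (norm_le_pi_norm _ j).trans ((norm_cp_le _ _).trans ?_)
      gcongr
      exact norm_kc_le k
    have h2 : ‖(sg s : ℂ) * Complex.I * cp (kc k) a j / kn k‖ ≤ 2 * ‖a‖ := by
      rw [norm_div, norm_mul, norm_mul, Complex.norm_real, Complex.norm_I, Real.norm_eq_abs,
        abs_sg, one_mul, one_mul, Complex.norm_real, Real.norm_eq_abs, abs_of_pos hn,
        div_le_iff₀ hn]
      linarith
    have h3 : ‖dp (kc k) a * kc k j / (kn k : ℂ) ^ 2‖ ≤ 3 * ‖a‖ := by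
      rw [norm_div, norm_mul, norm_pow, Complex.norm_real, Real.norm_eq_abs, abs_of_pos hn,
        div_le_iff₀ (by positivity)]
      have e1 := norm_dp_le (kc k) a
      have e2 : ‖kc k j‖ ≤ kn k := (norm_le_pi_norm _ j).trans (norm_kc_le k)
      have e3 := norm_kc_le k
      calc ‖dp (kc k) a‖ * ‖kc k j‖ ≤ 3 * (‖kc k‖ * ‖a‖) * kn k := by gcongr
        _ ≤ 3 * (kn k * ‖a‖) * kn k := by gcongr
        _ = _ := by ring
    have e : ‖(2 : ℂ)‖ = 2 := Complex.norm_two
    rw [norm_div, e]
    have h4 := (norm_add_le (a j - dp (kc k) a * kc k j / (kn k : ℂ) ^ 2)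
      ((sg s : ℂ) * Complex.I * cp (kc k) a j / kn k)).trans
      (add_le_add ((norm_sub_le _ _).trans (add_le_add (norm_le_pi_norm a j) h3)) h2)
    rw [div_le_iff₀ (by norm_num)]
    linarith

end Pool.Agent.X96.DM
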