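import Pool.Agent.X96.DM.Half2

/-!
The production of the norms of higher order.
-/

open MeasureTheory Set Filter Topology
open scoped ENNReal
open H459R3.NS Pool.Agent.X96.HT

namespace Pool.Agent.X96.DM

variable {η : Md → Md → Md → ℝ} {U : K3 → C3}

/-- the constant of the embedding of `H²` into `ℓ¹` -/
noncomputable def cS : ℝ := Real.sqrt (∑' k : K3, mj k)

lemma cS_nonneg : 0 ≤ cS := Real.sqrt_nonneg _

lemma mj_summable : Summable mj := summable_N4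

lemma sum_b0 (hU : RapV U) :
    ∑' k, b0 U k ≤ ENNReal.ofReal (3 * cS * Real.sqrt (hn 4 U)) := by
  have h4 := hn_nonneg 4 U
  have e : ∀ k, b0 U k ≤ ENNReal.ofReal (Real.sqrt (mj k)) * bp 2 U k := by
    intro k
    by_cases hk : k = 0
    · subst hk; rw [b0_zero]; exact bot_le
    · have hN : 0 < (N k : ℝ) := by
        exact_mod_cast Nat.pos_of_ne_zero fun h => hk (N_eq_zero.1 h)
      have hb := bt_nonneg k (U k)
      have hk0 := kn_nonneg k
      have hNk := N_le_kn k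
      unfold b0 bp mj
      rw [if_neg hk, ← ENNReal.ofReal_mul (Real.sqrt_nonneg _)]
      refine ENNReal.ofReal_le_ofReal ?_
      have e1 : Real.sqrt (1 / (N k : ℝ) ^ 4) = 1 / (N k : ℝ) ^ 2 := by
        rw [show 1 / (N k : ℝ) ^ 4 = (1 / (N k : ℝ) ^ 2) ^ 2 by rw [div_pow]; ring,
          Real.sqrt_sq (by positivity)]
      rw [e1, show (2 : ℝ) = ((2 : ℕ) : ℝ) by norm_num, Real.rpow_natCast, one_div,
        ← div_eq_inv_mul, le_div_iff₀ (by positivity)]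
      have h2 : (N k : ℝ) ^ 2 ≤ kn k ^ 2 := by gcongr
      nlinarith
  refine (ENNReal.tsum_le_tsum e).trans ((enn_cs _ _).trans ?_)
  have h1 : (∑' k : K3, ENNReal.ofReal (Real.sqrt (mj k)) ^ 2) = ENNReal.ofReal (∑' k, mj k) := by
    rw [ENNReal.ofReal_tsum_of_nonneg mj_nonneg mj_summable]
    refine tsum_congr fun k => ?_
    rw [← ENNReal.ofReal_pow (Real.sqrt_nonneg _), Real.sq_sqrt (mj_nonneg k)]
  rw [h1, ofReal_sqrt_half (tsum_nonneg mj_nonneg)]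
  calc ENNReal.ofReal (Real.sqrt (∑' k, mj k)) * (∑' k, bp 2 U k ^ 2) ^ (1 / 2 : ℝ)
      ≤ ENNReal.ofReal (Real.sqrt (∑' k, mj k)) * ENNReal.ofReal (9 * hn 4 U) ^ (1 / 2 : ℝ) := by
        gcongr
        exact bp_sq hU (m := 4) (by norm_num) (by norm_num)
    _ = _ := by
        rw [ofReal_sqrt_half (by positivity), ← ENNReal.ofReal_mul (Real.sqrt_nonneg _)]
        congr 1
        rw [show 9 * hn 4 U = 3 ^ 2 * hn 4 U by ring, Real.sqrt_mul (by norm_num),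
          Real.sqrt_sq (by norm_num)]
        unfold cS
        ring

/-- the powers of the largest frequency -/
lemma pow_split {k p q : K3} (h : k + p + q = 0) (n : ℕ) :
    kn k ^ n ≤ 2 ^ n * (kn k ^ (n / 2 : ℝ) * (kn p ^ (n / 2 : ℝ) + kn q ^ (n / 2 : ℝ))) := by
  have hk := kn_nonneg k
  have hp := kn_nonneg p
  have hq := kn_nonneg q
  have hα : (0 : ℝ) ≤ n / 2 := by positivity
  have h1 : kn k ≤ 2 * max (kn p) (kn q) := by
    have h' : p + q + k = 0 := by rw [← h]; abel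
    have h2 := kn_tri h'
    have h3 := le_max_left (kn p) (kn q)
    have h4 := le_max_right (kn p) (kn q)
    linarith
  have hm : 0 ≤ max (kn p) (kn q) := hp.trans (le_max_left _ _)
  have e : kn k ^ n = kn k ^ (n / 2 : ℝ) * kn k ^ (n / 2 : ℝ) := by
    rw [← Real.rpow_add_of_nonneg hk hα hα, add_halves, Real.rpow_natCast]
  have h2 : kn k ^ (n / 2 : ℝ) ≤ 2 ^ n * (kn p ^ (n / 2 : ℝ) + kn q ^ (n / 2 : ℝ)) := by
    calc kn k ^ (n / 2 : ℝ) ≤ (2 * max (kn p) (kn q)) ^ (n / 2 : ℝ) :=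
          Real.rpow_le_rpow hk h1 hα
      _ = 2 ^ (n / 2 : ℝ) * max (kn p) (kn q) ^ (n / 2 : ℝ) :=
          Real.mul_rpow (by norm_num) hm
      _ ≤ 2 ^ n * (kn p ^ (n / 2 : ℝ) + kn q ^ (n / 2 : ℝ)) := by
          have a1 : (2 : ℝ) ^ (n / 2 : ℝ) ≤ 2 ^ n := by
            rw [← Real.rpow_natCast]
            refine Real.rpow_le_rpow_of_exponent_le (by norm_num) ?_
            have : (0 : ℝ) ≤ n := Nat.cast_nonneg n
            linarith
          have a2 : max (kn p) (kn q) ^ (n / 2 : ℝ) ≤ kn p ^ (n / 2 : ℝ) + kn q ^ (n / 2 : ℝ) := by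
            have b1 : 0 ≤ kn p ^ (n / 2 : ℝ) := Real.rpow_nonneg hp _
            have b2 : 0 ≤ kn q ^ (n / 2 : ℝ) := Real.rpow_nonneg hq _
            rcases max_choice (kn p) (kn q) with h | h <;> rw [h] <;> linarith
          gcongr
  rw [e]
  have h3 : 0 ≤ kn k ^ (n / 2 : ℝ) := Real.rpow_nonneg hk _
  calc kn k ^ (n / 2 : ℝ) * kn k ^ (n / 2 : ℝ)
      ≤ kn k ^ (n / 2 : ℝ) * (2 ^ n * (kn p ^ (n / 2 : ℝ) + kn q ^ (n / 2 : ℝ))) := by gcongr
    _ = _ := by ring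

lemma T_abs {H : ℝ} (hH : ∀ a b c, |η a b c| ≤ H) (hdiv : ∀ k, dp (kc k) (U k) = 0) (m : ℕ) :
    ENNReal.ofReal ‖T3s (fw η (fun k => kn k ^ m) U)‖
      ≤ ENNReal.ofReal (9 * H * 2 ^ (m + 2))
        * tz (b0 U) (bp ((m + 1 : ℕ) / 2 : ℝ) U) (bp ((m + 1 : ℕ) / 2 : ℝ) U) := by
  have hH0 : 0 ≤ H := (abs_nonneg _).trans (hH (0, true) (0, true) (0, true))
  set α : ℝ := ((m + 1 : ℕ) / 2 : ℝ) with hα
  rw [ofReal_norm]
  refine enorm_T3s_le.trans ?_
  have h1 : ∀ p : K3 × K3, ‖fw η (fun k => kn k ^ m) U p.1 p.2 (-p.1 - p.2)‖ₑ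
      ≤ ENNReal.ofReal (9 * H * 2 ^ (m + 1)) * (bp α U p.1 * bp α U p.2 * b0 U (-p.1 - p.2)
        + bp α U p.1 * b0 U p.2 * bp α U (-p.1 - p.2)) := by
    intro p
    have h2 := norm_fw_le (w := fun k => kn k ^ m) hH (k := p.1) (p := p.2) (q := -p.1 - p.2)
      (by abel) (hdiv p.2)
    have h3 := pow_split (k := p.1) (p := p.2) (q := -p.1 - p.2) (by abel) (m + 1)
    rw [← hα] at h3
    have b1 := bt_nonneg p.1 (U p.1)
    have b2 := bt_nonneg p.2 (U p.2)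
    have b3 := bt_nonneg (-p.1 - p.2) (U (-p.1 - p.2))
    have n1 := kn_nonneg p.1
    have n2 := kn_nonneg p.2
    have n3 := kn_nonneg (-p.1 - p.2)
    have r1 : 0 ≤ kn p.1 ^ α := Real.rpow_nonneg n1 _
    have r2 : 0 ≤ kn p.2 ^ α := Real.rpow_nonneg n2 _
    have r3 : 0 ≤ kn (-p.1 - p.2) ^ α := Real.rpow_nonneg n3 _
    rw [abs_of_nonneg (pow_nonneg n1 m), ← pow_succ] at h2
    rw [← ofReal_norm]
    have h4 : ‖fw η (fun k => kn k ^ m) U p.1 p.2 (-p.1 - p.2)‖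
        ≤ 9 * H * 2 ^ (m + 1) * ((kn p.1 ^ α * bt p.1 (U p.1)) * (kn p.2 ^ α * bt p.2 (U p.2))
          * bt (-p.1 - p.2) (U (-p.1 - p.2))
        + (kn p.1 ^ α * bt p.1 (U p.1)) * bt p.2 (U p.2)
          * (kn (-p.1 - p.2) ^ α * bt (-p.1 - p.2) (U (-p.1 - p.2)))) := by
      refine h2.trans ?_
      calc 9 * H * kn p.1 ^ (m + 1) * (bt p.1 (U p.1) * bt p.2 (U p.2)
            * bt (-p.1 - p.2) (U (-p.1 - p.2)))
          ≤ 9 * H * (2 ^ (m + 1) * (kn p.1 ^ α * (kn p.2 ^ α + kn (-p.1 - p.2) ^ α)))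
            * (bt p.1 (U p.1) * bt p.2 (U p.2) * bt (-p.1 - p.2) (U (-p.1 - p.2))) := by
            gcongr
        _ = _ := by ring
    refine (ENNReal.ofReal_le_ofReal h4).trans (le_of_eq ?_)
    rw [ENNReal.ofReal_mul (p := 9 * H * 2 ^ (m + 1)) (by positivity),
      ENNReal.ofReal_add (by positivity) (by positivity),
      ofReal3 (mul_nonneg r1 b1) (mul_nonneg r2 b2), ofReal3 (mul_nonneg r1 b1) b2]
    rfl
  refine (ENNReal.tsum_le_tsum h1).trans ?_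
  rw [ENNReal.tsum_mul_left, ENNReal.tsum_add]
  have c1 : ∑' p : K3 × K3, bp α U p.1 * bp α U p.2 * b0 U (-p.1 - p.2)
      = tz (b0 U) (bp α U) (bp α U) := (tz_rot _ _ _).symm
  have c2 : ∑' p : K3 × K3, bp α U p.1 * b0 U p.2 * bp α U (-p.1 - p.2)
      = tz (b0 U) (bp α U) (bp α U) := tz_comm12 _ _ _
  rw [c1, c2, ← two_mul, ← mul_assoc]
  refine le_of_eq ?_
  congr 1
  rw [show (2 : ℝ≥0∞) = ENNReal.ofReal 2 by norm_num, ← ENNReal.ofReal_mul (by positivity)]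
  congr 1
  ring

/-- production of the norm of `H¹` -/
theorem prod_H1 {H : ℝ} (hH : ∀ a b c, |η a b c| ≤ H) (hU : RapV U)
    (hdiv : ∀ k, dp (kc k) (U k) = 0) :
    ‖T3s (fw η (fun k => kn k ^ 2) U)‖
      ≤ 110000 * H * Real.sqrt (hn 2 U * hn 3 U * hn 4 U) := by
  have hH0 : 0 ≤ H := (abs_nonneg _).trans (hH (0, true) (0, true) (0, true))
  have h2 := hn_nonneg 2 U
  have h3 := hn_nonneg 3 U
  have h4 := hn_nonneg 4 U
  have h := T_abs hH hdiv 2
  set α : ℝ := ((2 + 1 : ℕ) / 2 : ℝ) with hα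
  have hα2 : 2 * α = ((3 : ℕ) : ℝ) := by rw [hα]; push_cast; ring
  have hα0 : 0 < α := by rw [hα]; positivity
  have g1 : e2 (bp α U) ≤ ENNReal.ofReal (Real.sqrt (9 * hn 3 U)) := by
    unfold e2
    rw [← ofReal_sqrt_half (by positivity)]
    gcongr
    exact bp_sq hU hα2 hα0
  have g2 : ∑' k, N k * bp α U k ^ 2 ≤ ENNReal.ofReal (9 * hn 4 U) := by
    have e : ∀ k, (N k : ℝ≥0∞) * bp α U k ^ 2 ≤ bp 2 U k ^ 2 := by
      intro k
      have hk := kn_nonneg k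
      have hb := bt_nonneg k (U k)
      have hN : (N k : ℝ≥0∞) ≤ ENNReal.ofReal (kn k) := by
        rw [← ENNReal.ofReal_natCast]
        exact ENNReal.ofReal_le_ofReal (N_le_kn k)
      unfold bp
      rw [← ENNReal.ofReal_pow (mul_nonneg (Real.rpow_nonneg hk _) hb),
        ← ENNReal.ofReal_pow (mul_nonneg (Real.rpow_nonneg hk _) hb)]
      refine (mul_le_mul_left hN _).trans ?_
      rw [← ENNReal.ofReal_mul hk]
      refine ENNReal.ofReal_le_ofReal (le_of_eq ?_)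
      have e1 : (kn k ^ α) ^ 2 = kn k ^ 3 := by
        rw [← Real.rpow_natCast, ← Real.rpow_mul hk, ← Real.rpow_natCast, ← hα2]
        congr 1
        push_cast; ring
      have e2' : (kn k ^ (2 : ℝ)) ^ 2 = kn k ^ 4 := by
        rw [show (2 : ℝ) = ((2 : ℕ) : ℝ) by norm_num, Real.rpow_natCast]
        ring
      rw [mul_pow, mul_pow, e1, e2']
      ring
    refine (ENNReal.tsum_le_tsum e).trans ?_
    exact bp_sq hU (m := 4) (by norm_num) (by norm_num)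
  have g3 : (ENNReal.ofReal 162 * ∑' q, N q * bp α U q ^ 2) ^ (1 / 2 : ℝ)
      ≤ ENNReal.ofReal (Real.sqrt (162 * (9 * hn 4 U))) := by
    rw [← ofReal_sqrt_half (by positivity), ENNReal.ofReal_mul (by norm_num)]
    gcongr
  have h5 : ENNReal.ofReal ‖T3s (fw η (fun k => kn k ^ 2) U)‖
      ≤ ENNReal.ofReal (9 * H * 2 ^ (2 + 2) * (6 * Real.sqrt (hn 2 U)
        * (Real.sqrt (9 * hn 3 U) * Real.sqrt (162 * (9 * hn 4 U))))) := by
    refine h.trans ?_
    rw [ENNReal.ofReal_mul (p := 9 * H * 2 ^ (2 + 2)) (by positivity),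
      ENNReal.ofReal_mul (p := 6 * Real.sqrt (hn 2 U)) (by positivity),
      ENNReal.ofReal_mul (p := Real.sqrt (9 * hn 3 U)) (by positivity)]
    gcongr
    refine (tz_b0 U _ hU).trans ?_
    gcongr
  refine ((ENNReal.ofReal_le_ofReal_iff (by positivity)).1 h5).trans ?_
  have e9 : Real.sqrt (9 * hn 3 U) = 3 * Real.sqrt (hn 3 U) := by
    rw [show 9 * hn 3 U = 3 ^ 2 * hn 3 U by ring, Real.sqrt_mul (by norm_num),
      Real.sqrt_sq (by norm_num)]
  have e10 : Real.sqrt (162 * (9 * hn 4 U)) ≤ 40 * Real.sqrt (hn 4 U) := by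
    rw [show 162 * (9 * hn 4 U) = 1458 * hn 4 U by ring, Real.sqrt_mul (by norm_num)]
    gcongr
    rw [Real.sqrt_le_left (by norm_num)]
    norm_num
  have e11 : Real.sqrt (hn 2 U * hn 3 U * hn 4 U)
      = Real.sqrt (hn 2 U) * Real.sqrt (hn 3 U) * Real.sqrt (hn 4 U) := by
    rw [Real.sqrt_mul (by positivity), Real.sqrt_mul h2]
  rw [e9, e11]
  calc 9 * H * 2 ^ (2 + 2) * (6 * Real.sqrt (hn 2 U)
        * (3 * Real.sqrt (hn 3 U) * Real.sqrt (162 * (9 * hn 4 U))))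
      ≤ 9 * H * 2 ^ (2 + 2) * (6 * Real.sqrt (hn 2 U)
        * (3 * Real.sqrt (hn 3 U) * (40 * Real.sqrt (hn 4 U)))) := by gcongr
    _ = 103680 * H * (Real.sqrt (hn 2 U) * Real.sqrt (hn 3 U) * Real.sqrt (hn 4 U)) := by ring
    _ ≤ _ := by
        gcongr
        norm_num

/-- production of the norms of higher order -/
theorem prod_high {H : ℝ} (hH : ∀ a b c, |η a b c| ≤ H) (hU : RapV U)
    (hdiv : ∀ k, dp (kc k) (U k) = 0) (m : ℕ) :
    ‖T3s (fw η (fun k => kn k ^ m) U)‖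
      ≤ 243 * H * 2 ^ (m + 2) * cS * (Real.sqrt (hn 4 U) * hn (m + 1) U) := by
  have hH0 : 0 ≤ H := (abs_nonneg _).trans (hH (0, true) (0, true) (0, true))
  have hcS := cS_nonneg
  have h3 := hn_nonneg (m + 1) U
  have h4 := hn_nonneg 4 U
  have h := T_abs hH hdiv m
  have h5 : ENNReal.ofReal ‖T3s (fw η (fun k => kn k ^ m) U)‖
      ≤ ENNReal.ofReal (9 * H * 2 ^ (m + 2) * (3 * cS * Real.sqrt (hn 4 U)
        * (9 * hn (m + 1) U))) := by
    refine h.trans ?_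
    rw [ENNReal.ofReal_mul (p := 9 * H * 2 ^ (m + 2)) (by positivity),
      ENNReal.ofReal_mul (p := 3 * cS * Real.sqrt (hn 4 U)) (by positivity)]
    gcongr
    refine (tz_l1 _ _).trans ?_
    gcongr
    · exact sum_b0 hU
    · rw [← sq]
      unfold e2
      rw [enn_half_sq]
      exact bp_sq hU (by push_cast; ring) (by positivity)
  refine ((ENNReal.ofReal_le_ofReal_iff (by positivity)).1 h5).trans (le_of_eq ?_)
  ring

end Pool.Agent.X96.DM
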