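import Pool.Agent.X96.DM.Gal2
import Pool.Agent.X96.DM.High

/-!
Estimates of the Galerkin approximations.
-/

open MeasureTheory Set Filter Topology
open scoped ENNReal InnerProductSpace NNReal
open H459R3.NS Pool.Agent.X96.HT

namespace Pool.Agent.X96.DM

variable {η : Md → Md → Md → ℝ} {S : Finset K3}

lemma hn_fin {U : K3 → C3} (hs : ∀ k ∉ S, U k = 0) (m : ℕ) :
    hn m U = ∑ k ∈ S, kn k ^ m * ∑ i, ‖U k i‖ ^ 2 := by
  unfold hn
  refine tsum_eq_sum fun k hk => ?_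
  rw [hs k hk]; simp

lemma hn_interp_fin {U : K3 → C3} (hs : ∀ k ∉ S, U k = 0) (m : ℕ) :
    hn (m + 1) U ^ 2 ≤ hn m U * hn (m + 2) U := by
  rw [hn_fin hs, hn_fin hs, hn_fin hs]
  refine Finset.sum_sq_le_sum_mul_sum_of_sq_eq_mul S (fun k _ => ?_) (fun k _ => ?_) fun k _ => ?_
  · have := kn_nonneg k; positivity
  · have := kn_nonneg k; positivity
  · ring

lemma hn_mono_fin {U : K3 → C3} (hs : ∀ k ∉ S, U k = 0) (h0 : (0 : K3) ∉ S) {m n : ℕ} (h : m ≤ n) :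
    hn m U ≤ hn n U := by
  rw [hn_fin hs, hn_fin hs]
  refine Finset.sum_le_sum fun k hk => ?_
  have hk0 : k ≠ 0 := fun e => h0 (e ▸ hk)
  gcongr
  exact one_le_kn hk0

/-- the derivative of the norms -/
lemma Gal.hn_deriv (hη : IsWeight η) {ν' T : ℝ} {a : ℝ → K3 → C3} (h : Gal η ν' T S a) (m : ℕ)
    {t : ℝ} (ht : t ∈ Icc 0 T) :
    HasDerivWithinAt (fun s => hn m (a s))
      (-(2 * ν' * hn (m + 2) (a t)) - 4 * Real.pi * (T3s (fw η (fun k => kn k ^ m) (a t))).re)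
      (Icc 0 T) t := by
  have h1 := pair_fin hη (h.supp t) (h.div t) (h.real t) m
  have h2 : ∀ k ∈ S, ∀ i, HasDerivWithinAt (fun s => ‖a s k i‖ ^ 2)
      (-(2 * ν' * kn k ^ 2 * ‖a t k i‖ ^ 2)
        - 2 * ((starRingEnd ℂ) (a t k i) * nonl η (a t) k i).re) (Icc 0 T) t := by
    intro k hk i
    refine (h.deriv t ht k hk i).norm_sq.congr_deriv ?_
    rw [Complex.inner, ← Complex.normSq_eq_norm_sq, Complex.normSq_apply]
    simp only [Complex.mul_re, Complex.sub_re, Complex.sub_im, Complex.neg_re, Complex.neg_im,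
      Complex.ofReal_re, Complex.ofReal_im, Complex.conj_re, Complex.conj_im, Complex.mul_im]
    ring
  have h3 : HasDerivWithinAt (fun s => ∑ k ∈ S, kn k ^ m * ∑ i, ‖a s k i‖ ^ 2)
      (∑ k ∈ S, kn k ^ m * ∑ i, (-(2 * ν' * kn k ^ 2 * ‖a t k i‖ ^ 2)
        - 2 * ((starRingEnd ℂ) (a t k i) * nonl η (a t) k i).re)) (Icc 0 T) t :=
    HasDerivWithinAt.fun_sum fun k hk =>
      (HasDerivWithinAt.fun_sum fun i _ => h2 k hk i).const_mul _
  have e : (fun s => hn m (a s)) = fun s => ∑ k ∈ S, kn k ^ m * ∑ i, ‖a s k i‖ ^ 2 := by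
    funext s; exact hn_fin (h.supp s) m
  rw [e]
  refine h3.congr_deriv ?_
  have h4 := congrArg Complex.re h1
  rw [Complex.re_sum] at h4
  have h5 : (2 * (Real.pi : ℂ) * T3s (fw η (fun k => kn k ^ m) (a t))).re
      = 2 * Real.pi * (T3s (fw η (fun k => kn k ^ m) (a t))).re := by
    have : (2 * (Real.pi : ℂ)) = ((2 * Real.pi : ℝ) : ℂ) := by push_cast; ring
    rw [this, Complex.re_ofReal_mul]
  rw [h5] at h4
  have h6 : ∀ k, ((kn k ^ m : ℂ) * ∑ i, (starRingEnd ℂ) (a t k i) * nonl η (a t) k i).re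
      = kn k ^ m * ∑ i, ((starRingEnd ℂ) (a t k i) * nonl η (a t) k i).re := by
    intro k
    have : ((kn k : ℂ) ^ m) = ((kn k ^ m : ℝ) : ℂ) := by push_cast; ring
    rw [this, Complex.re_ofReal_mul, Complex.re_sum]
  simp_rw [h6] at h4
  have h7 : 4 * Real.pi * (T3s (fw η (fun k => kn k ^ m) (a t))).re
      = 2 * ∑ k ∈ S, kn k ^ m * ∑ i, ((starRingEnd ℂ) (a t k i) * nonl η (a t) k i).re := by
    rw [h4]; ring
  rw [h7, hn_fin (h.supp t), Finset.mul_sum, Finset.mul_sum, ← Finset.sum_neg_distrib,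
    ← Finset.sum_sub_distrib]
  refine Finset.sum_congr rfl fun k _ => ?_
  rw [Finset.sum_sub_distrib, ← Finset.mul_sum, Finset.sum_neg_distrib, ← Finset.mul_sum]
  ring

/-- one step of the chain of estimates -/
lemma zstep {T κ c δ : ℝ} {y y' g g' x r : ℝ → ℝ} (hκ : 0 ≤ κ) (hδ : 0 ≤ δ)
    (hy : ∀ t ∈ Icc 0 T, HasDerivWithinAt y (y' t) (Icc 0 T) t)
    (hg : ∀ t ∈ Icc 0 T, HasDerivWithinAt g (g' t) (Icc 0 T) t)
    (hyc : ∀ t ∈ Icc 0 T, 0 ≤ y t + c) (hg0 : ∀ t ∈ Icc 0 T, 0 ≤ g t)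
    (hx0 : ∀ t ∈ Icc 0 T, 0 ≤ x t)
    (h1 : ∀ t ∈ Icc 0 T, y' t ≤ -(δ * x t) + κ * (r t * (y t + c)))
    (h2 : ∀ t ∈ Icc 0 T, g' t ≤ -r t) :
    ∃ z' : ℝ → ℝ, (∀ t ∈ Icc 0 T, HasDerivWithinAt (fun t => (y t + c) * Real.exp (κ * g t)) (z' t)
      (Icc 0 T) t) ∧ ∀ t ∈ Icc 0 T, z' t ≤ -(δ * x t) := by
  refine ⟨fun t => y' t * Real.exp (κ * g t) + (y t + c) * (Real.exp (κ * g t) * (κ * g' t)),
    fun t ht => ?_, fun t ht => ?_⟩
  · exact ((hy t ht).add_const c).mul (((hg t ht).const_mul κ).exp)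
  · have e1 : 1 ≤ Real.exp (κ * g t) := Real.one_le_exp (mul_nonneg hκ (hg0 t ht))
    have e2 := h1 t ht
    have e3 := h2 t ht
    have e4 := hyc t ht
    have e5 := hx0 t ht
    have e6 : (y t + c) * (κ * g' t) ≤ -(κ * (r t * (y t + c))) := by
      have : (y t + c) * κ * g' t ≤ (y t + c) * κ * (-r t) :=
        mul_le_mul_of_nonneg_left e3 (mul_nonneg e4 hκ)
      linarith
    have e7 : y' t + (y t + c) * (κ * g' t) ≤ -(δ * x t) := by linarith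
    calc y' t * Real.exp (κ * g t) + (y t + c) * (Real.exp (κ * g t) * (κ * g' t))
        = (y' t + (y t + c) * (κ * g' t)) * Real.exp (κ * g t) := by ring
      _ ≤ -(δ * x t) * Real.exp (κ * g t) := by gcongr
      _ ≤ -(δ * x t) * 1 := by
          have : 0 ≤ δ * x t := mul_nonneg hδ e5
          nlinarith
      _ = _ := mul_one _

lemma anti_of_deriv {T : ℝ} {z z' : ℝ → ℝ}
    (hz : ∀ t ∈ Icc 0 T, HasDerivWithinAt z (z' t) (Icc 0 T) t) (h : ∀ t ∈ Icc 0 T, z' t ≤ 0)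
    {t : ℝ} (ht : t ∈ Icc 0 T) : z t ≤ z 0 := by
  have hT : 0 ≤ T := ht.1.trans ht.2
  have : AntitoneOn z (Icc 0 T) := by
    refine antitoneOn_of_deriv_nonpos (convex_Icc 0 T) (fun s hs => (hz s hs).continuousWithinAt)
      (fun s hs => ?_) fun s hs => ?_
    · rw [interior_Icc] at hs
      exact ((hz s (Ioo_subset_Icc_self hs)).hasDerivAt
        (Icc_mem_nhds hs.1 hs.2)).differentiableAt.differentiableWithinAt
    · rw [interior_Icc] at hs
      rw [((hz s (Ioo_subset_Icc_self hs)).hasDerivAt (Icc_mem_nhds hs.1 hs.2)).deriv]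
      exact h s (Ioo_subset_Icc_self hs)
  exact this ⟨le_rfl, hT⟩ ht ht.1

lemma amgm3 {X a b c δ : ℝ} (hX : 0 ≤ X) (ha : 0 ≤ a) (hb : 0 ≤ b) (hc : 0 ≤ c) (hδ : 0 < δ) :
    X * Real.sqrt (a * b * c) ≤ δ * a + X ^ 2 / (4 * δ) * (b * c) := by
  have e : Real.sqrt (a * b * c) = Real.sqrt a * Real.sqrt (b * c) := by
    rw [mul_assoc, Real.sqrt_mul ha]
  have h1 := Real.sq_sqrt ha
  have h2 := Real.sq_sqrt (mul_nonneg hb hc)
  have h3 : δ * a + X ^ 2 / (4 * δ) * (b * c) - X * (Real.sqrt a * Real.sqrt (b * c))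
      = (2 * δ * Real.sqrt a - X * Real.sqrt (b * c)) ^ 2 / (4 * δ) := by
    field_simp
    rw [sub_sq, mul_pow, mul_pow, mul_pow, h1, h2]
    ring
  have h4 : 0 ≤ (2 * δ * Real.sqrt a - X * Real.sqrt (b * c)) ^ 2 / (4 * δ) := by positivity
  rw [e]
  linarith

end Pool.Agent.X96.DM
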