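import Pool.Agent.X96.DM.Est

/-!
Bounds of the Galerkin approximations which are uniform in the time and in the set of frequencies.
-/

open MeasureTheory Set Filter Topology
open scoped ENNReal InnerProductSpace NNReal
open H459R3.NS Pool.Agent.X96.HT

namespace Pool.Agent.X96.DM

variable {η : Md → Md → Md → ℝ} {Q : Set K3}

lemma re_bound (z : ℂ) {B : ℝ} (h : 4 * Real.pi * ‖z‖ ≤ B) : -(4 * Real.pi * z.re) ≤ B := by
  have h1 := Complex.abs_re_le_norm z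
  have h2 := neg_abs_le z.re
  have h3 : 0 < 4 * Real.pi := by positivity
  have h4 : -(4 * Real.pi * z.re) ≤ 4 * Real.pi * ‖z‖ := by nlinarith
  exact h4.trans h

/-- the constants -/
noncomputable def ek (ν' W : ℝ) : ℝ := ν' / (4 * (W + 1))

lemma ek_pos {ν' W : ℝ} (hν : 0 < ν') (hW : 0 ≤ W) : 0 < ek ν' W := by unfold ek; positivity

lemma mul_ek_le {ν' W : ℝ} (hν : 0 < ν') (hW : 0 ≤ W) : W * ek ν' W ≤ ν' / 4 := by
  unfold ek
  rw [mul_div_assoc', div_le_div_iff₀ (by positivity) (by norm_num)]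
  nlinarith

theorem gal_bound (hη : IsWeight η) {K θ₁ θ₂ C A : ℝ} (hK : 0 ≤ K) (hC : 0 ≤ C)
    (hθ₁ : 0 ≤ θ₁) (hθ₁' : θ₁ < 4 / 5) (hθ₂ : 0 ≤ θ₂) (hθ₂' : θ₂ < 6 / 7) (hQ : Planar A Q)
    (hX : StrongSmall η Q K θ₁ θ₂ C) {ν' : ℝ} (hν : 0 < ν') (A₀ : ℕ → ℝ) :
    ∃ B : ℕ → ℝ, ∀ (S : Finset K3), (0 : K3) ∉ S → ∀ (T : ℝ) (a : ℝ → K3 → C3), Gal η ν' T S a →
      (∀ m, hn m (a 0) ≤ A₀ m) → ∀ t ∈ Icc 0 T, ∀ m, hn m (a t) ≤ B m := by
  obtain ⟨H, hH⟩ := hη.bdd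
  have hH0 : 0 ≤ H := (abs_nonneg _).trans (hH (0, true) (0, true) (0, true))
  set E : ℝ := |A₀ 0| + 1 with hE
  have hE0 : 0 < E := by positivity
  have hck1 := ck_nonneg K θ₁ 1 1
  have hck2 := ck_nonneg K θ₂ 2 0
  set W1 : ℝ := 4 * Real.pi * (2916 * H) * (ck K θ₁ 1 1 * Real.sqrt E) with hW1
  set W2 : ℝ := 4 * Real.pi * (2916 * H) * (ck K θ₂ 2 0 * Real.sqrt E) with hW2
  have hW10 : 0 ≤ W1 := by positivity
  have hW20 : 0 ≤ W2 := by positivity
  set ε₁ : ℝ := ek ν' W1 with hε₁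
  set ε₂ : ℝ := ek ν' W2 with hε₂
  have hε₁0 : 0 < ε₁ := ek_pos hν hW10
  have hε₂0 : 0 < ε₂ := ek_pos hν hW20
  set g1 : ℝ := ε₁ ^ (-((1 + 5 / 2 * θ₁) / (2 - 5 / 2 * θ₁))) with hg1
  set g2 : ℝ := ε₂ ^ (-((7 / 2 * θ₂) / (3 - 7 / 2 * θ₂))) with hg2
  have hg10 : 0 ≤ g1 := (Real.rpow_pos_of_pos hε₁0 _).le
  have hg20 : 0 ≤ g2 := (Real.rpow_pos_of_pos hε₂0 _).le
  set D : ℝ := W1 * g1 + W2 * g2 with hD
  have hD0 : 0 ≤ D := by positivity
  have hA0 := hQ.nonneg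
  set X1 : ℝ := 4 * Real.pi * (5832 * H * Real.sqrt A + 12600 * C) with hX1
  have hX10 : 0 ≤ X1 := by positivity
  set κ1 : ℝ := X1 ^ 2 / (4 * (ν' / 2)) + 1 with hκ1
  have hκ10 : 1 ≤ κ1 := by
    have : 0 ≤ X1 ^ 2 / (4 * (ν' / 2)) := by positivity
    linarith
  set X2 : ℝ := 4 * Real.pi * (110000 * H) with hX2
  have hX20 : 0 ≤ X2 := by positivity
  set κ2 : ℝ := X2 ^ 2 / (4 * ν') with hκ2
  have hκ20 : 0 ≤ κ2 := by positivity
  have hcS := cS_nonneg
  set Z1m : ℝ := (A₀ 1 + D) * Real.exp (κ1 * (A₀ 0 / (2 * ν'))) with hZ1m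
  set Z2m : ℝ := (A₀ 2 + 0) * Real.exp (κ2 * (Z1m / ν')) with hZ2m
  refine ⟨fun m => (A₀ m + 0) * Real.exp (((4 * Real.pi * (243 * H * 2 ^ (m + 2) * cS)) ^ 2
    / (4 * ν')) * (Z2m / ν')), ?_⟩
  intro S h0 T a ha hini t ht m
  have hT : 0 ≤ T := ht.1.trans ht.2
  have hI0 : (0 : ℝ) ∈ Icc 0 T := ⟨le_rfl, hT⟩
  have hnn : ∀ n s, 0 ≤ hn n (a s) := fun n s => hn_nonneg n _
  have hrap : ∀ s, RapV (a s) := fun s => rapV_fin (ha.supp s)
  -- the energy
  have hy0 : ∀ s ∈ Icc 0 T, HasDerivWithinAt (fun s => hn 0 (a s) / (2 * ν'))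
      (-hn 2 (a s)) (Icc 0 T) s := by
    intro s hs
    have := (ha.hn_deriv hη 0 hs).div_const (2 * ν')
    rw [T3s_energy hη (hrap s) (ha.div s)] at this
    refine this.congr_deriv ?_
    simp only [Complex.zero_re, mul_zero, sub_zero, zero_add]
    field_simp
  have hyE : ∀ s ∈ Icc 0 T, hn 0 (a s) ≤ E := by
    intro s hs
    have h1 := anti_of_deriv hy0 (fun s hs => by have := hnn 2 s; linarith) hs
    have h2 : hn 0 (a s) ≤ hn 0 (a 0) := by
      rwa [div_le_div_iff_of_pos_right (by positivity)] at h1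
    have h3 := hini 0
    have h4 := le_abs_self (A₀ 0)
    linarith
  -- first step
  have hs1 := zstep (T := T) (κ := κ1) (c := D) (δ := ν') (y := fun s => hn 1 (a s))
    (y' := fun s => -(2 * ν' * hn (1 + 2) (a s)) - 4 * Real.pi * (T3s (fw η (fun k => kn k ^ 1) (a s))).re)
    (g := fun s => hn 0 (a s) / (2 * ν')) (g' := fun s => -hn 2 (a s)) (x := fun s => hn 3 (a s))
    (r := fun s => hn 2 (a s)) (by linarith) hν.le (fun s hs => ha.hn_deriv hη 1 hs) hy0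
    (fun s _ => by have := hnn 1 s; positivity) (fun s _ => by have := hnn 0 s; positivity)
    (fun s _ => hnn 3 s) (fun s hs => by
      have p0 := hnn 0 s
      have p1 := hnn 1 s
      have p2 := hnn 2 s
      have p3 := hnn 3 s
      have hp := half_prod hη hH (hrap s) (ha.div s) hK hC hθ₁ hθ₁' hθ₂ hθ₂' hQ hX hε₁0 hε₂0
      have hsq : Real.sqrt (hn 0 (a s)) ≤ Real.sqrt E := Real.sqrt_le_sqrt (hyE s hs)
      have h02 : hn 0 (a s) ≤ hn 2 (a s) := hn_mono_fin (ha.supp s) h0 (by norm_num)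
      have hb : 4 * Real.pi * ‖T3s (fw η (fun k => kn k ^ 1) (a s))‖
          ≤ X1 * Real.sqrt (hn 3 (a s) * hn 2 (a s) * hn 1 (a s))
            + W1 * (ε₁ * hn 3 (a s) + g1 * hn 0 (a s)) + W2 * (ε₂ * hn 3 (a s) + g2 * hn 0 (a s)) := by
        calc 4 * Real.pi * ‖T3s (fw η (fun k => kn k ^ 1) (a s))‖
            ≤ 4 * Real.pi * ((5832 * H * Real.sqrt A + 12600 * C)
              * Real.sqrt (hn 3 (a s) * hn 2 (a s) * hn 1 (a s))
              + 2916 * H * (ck K θ₁ 1 1 * Real.sqrt E * (ε₁ * hn 3 (a s) + g1 * hn 0 (a s))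
                + ck K θ₂ 2 0 * Real.sqrt E * (ε₂ * hn 3 (a s) + g2 * hn 0 (a s)))) := by
              refine mul_le_mul_of_nonneg_left (hp.trans ?_) (by positivity)
              gcongr
          _ = _ := by rw [hX1, hW1, hW2]; ring
      have hr := re_bound _ hb
      have hag := amgm3 hX10 p3 p2 p1 (half_pos hν)
      have hw1 : W1 * ε₁ * hn 3 (a s) ≤ ν' / 4 * hn 3 (a s) :=
        mul_le_mul_of_nonneg_right (mul_ek_le hν hW10) p3
      have hw2 : W2 * ε₂ * hn 3 (a s) ≤ ν' / 4 * hn 3 (a s) :=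
        mul_le_mul_of_nonneg_right (mul_ek_le hν hW20) p3
      have hd : D * hn 0 (a s) ≤ κ1 * (hn 2 (a s) * D) := by
        calc D * hn 0 (a s) ≤ D * hn 2 (a s) := by gcongr
          _ = 1 * (hn 2 (a s) * D) := by ring
          _ ≤ κ1 * (hn 2 (a s) * D) := by gcongr
      have hk : X1 ^ 2 / (4 * (ν' / 2)) * (hn 2 (a s) * hn 1 (a s))
          ≤ κ1 * (hn 2 (a s) * hn 1 (a s)) := by
        gcongr
        rw [hκ1]; linarith
      have e1 : W1 * (ε₁ * hn 3 (a s) + g1 * hn 0 (a s)) + W2 * (ε₂ * hn 3 (a s) + g2 * hn 0 (a s))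
          = W1 * ε₁ * hn 3 (a s) + W2 * ε₂ * hn 3 (a s) + D * hn 0 (a s) := by rw [hD]; ring
      have e2 : κ1 * (hn 2 (a s) * (hn 1 (a s) + D))
          = κ1 * (hn 2 (a s) * hn 1 (a s)) + κ1 * (hn 2 (a s) * D) := by ring
      show -(2 * ν' * hn (1 + 2) (a s)) - 4 * Real.pi * (T3s (fw η (fun k => kn k ^ 1) (a s))).re
        ≤ -(ν' * hn 3 (a s)) + κ1 * (hn 2 (a s) * (hn 1 (a s) + D))
      rw [e2]
      have e3 : hn (1 + 2) (a s) = hn 3 (a s) := rfl
      rw [e3]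
      linarith) (fun s _ => le_rfl)
  obtain ⟨z1', hz1, hz1'⟩ := hs1
  have hZ1nn : ∀ s, 0 ≤ (hn 1 (a s) + D) * Real.exp (κ1 * (hn 0 (a s) / (2 * ν'))) := fun s => by
    have := hnn 1 s; positivity
  have hZ10 : (hn 1 (a 0) + D) * Real.exp (κ1 * (hn 0 (a 0) / (2 * ν'))) ≤ Z1m := by
    have p1 := hini 1
    have p2 := hini 0
    have p3 := hnn 1 0
    have p4 := hnn 0 0
    have p5 : 0 ≤ A₀ 1 + D := by linarith
    rw [hZ1m]
    gcongr
  -- second step
  have hs2 := zstep (T := T) (κ := κ2) (c := 0) (δ := ν') (y := fun s => hn 2 (a s))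
    (y' := fun s => -(2 * ν' * hn (2 + 2) (a s)) - 4 * Real.pi * (T3s (fw η (fun k => kn k ^ 2) (a s))).re)
    (g := fun s => (hn 1 (a s) + D) * Real.exp (κ1 * (hn 0 (a s) / (2 * ν'))) / ν')
    (g' := fun s => z1' s / ν') (x := fun s => hn 4 (a s))
    (r := fun s => hn 3 (a s)) hκ20 hν.le (fun s hs => ha.hn_deriv hη 2 hs)
    (fun s hs => (hz1 s hs).div_const ν')
    (fun s _ => by have := hnn 2 s; positivity) (fun s _ => div_nonneg (hZ1nn s) hν.le)
    (fun s _ => hnn 4 s) (fun s hs => by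
      have p2 := hnn 2 s
      have p3 := hnn 3 s
      have p4 := hnn 4 s
      have hp := prod_H1 hH (hrap s) (ha.div s)
      have hb : 4 * Real.pi * ‖T3s (fw η (fun k => kn k ^ 2) (a s))‖
          ≤ X2 * Real.sqrt (hn 4 (a s) * hn 3 (a s) * hn 2 (a s)) := by
        calc _ ≤ 4 * Real.pi * (110000 * H * Real.sqrt (hn 2 (a s) * hn 3 (a s) * hn 4 (a s))) :=
              mul_le_mul_of_nonneg_left hp (by positivity)
          _ = _ := by
              rw [hX2, show hn 4 (a s) * hn 3 (a s) * hn 2 (a s)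
                = hn 2 (a s) * hn 3 (a s) * hn 4 (a s) by ring]
              ring
      have hr := re_bound _ hb
      have hag := amgm3 hX20 p4 p3 p2 hν
      show -(2 * ν' * hn (2 + 2) (a s)) - 4 * Real.pi * (T3s (fw η (fun k => kn k ^ 2) (a s))).re
        ≤ -(ν' * hn 4 (a s)) + κ2 * (hn 3 (a s) * (hn 2 (a s) + 0))
      have e3 : hn (2 + 2) (a s) = hn 4 (a s) := rfl
      rw [e3, add_zero]
      linarith)
    (fun s hs => by
      have := hz1' s hs
      rw [div_le_iff₀ hν]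
      linarith)
  obtain ⟨z2', hz2, hz2'⟩ := hs2
  have hZ2nn : ∀ s, 0 ≤ (hn 2 (a s) + 0)
      * Real.exp (κ2 * ((hn 1 (a s) + D) * Real.exp (κ1 * (hn 0 (a s) / (2 * ν'))) / ν')) := fun s => by
    have := hnn 2 s; positivity
  have hZ20 : (hn 2 (a 0) + 0)
      * Real.exp (κ2 * ((hn 1 (a 0) + D) * Real.exp (κ1 * (hn 0 (a 0) / (2 * ν'))) / ν')) ≤ Z2m := by
    have p1 := hini 2
    have p3 := hnn 2 0
    have p5 : 0 ≤ A₀ 2 + 0 := by linarith
    rw [hZ2m]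
    gcongr
  -- the other steps
  set Xm : ℝ := 4 * Real.pi * (243 * H * 2 ^ (m + 2) * cS) with hXm
  have hXm0 : 0 ≤ Xm := by positivity
  have hs3 := zstep (T := T) (κ := Xm ^ 2 / (4 * ν')) (c := 0) (δ := 0) (y := fun s => hn m (a s))
    (y' := fun s => -(2 * ν' * hn (m + 2) (a s)) - 4 * Real.pi * (T3s (fw η (fun k => kn k ^ m) (a s))).re)
    (g := fun s => (hn 2 (a s) + 0)
      * Real.exp (κ2 * ((hn 1 (a s) + D) * Real.exp (κ1 * (hn 0 (a s) / (2 * ν'))) / ν')) / ν')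
    (g' := fun s => z2' s / ν') (x := fun s => hn (m + 2) (a s))
    (r := fun s => hn 4 (a s)) (by positivity) le_rfl (fun s hs => ha.hn_deriv hη m hs)
    (fun s hs => (hz2 s hs).div_const ν')
    (fun s _ => by have := hnn m s; positivity) (fun s _ => div_nonneg (hZ2nn s) hν.le)
    (fun s _ => hnn (m + 2) s) (fun s hs => by
      have p2 := hnn m s
      have p3 := hnn (m + 2) s
      have p4 := hnn 4 s
      have p5 := hnn (m + 1) s
      have hp := prod_high hH (hrap s) (ha.div s) m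
      have hi := hn_interp_fin (ha.supp s) m
      have hi' : hn (m + 1) (a s) ≤ Real.sqrt (hn (m + 2) (a s) * hn m (a s)) := by
        rw [mul_comm]; exact Real.le_sqrt_of_sq_le hi
      have e4 : Real.sqrt (hn 4 (a s)) * Real.sqrt (hn (m + 2) (a s) * hn m (a s))
          = Real.sqrt (hn (m + 2) (a s) * hn 4 (a s) * hn m (a s)) := by
        rw [← Real.sqrt_mul p4]; congr 1; ring
      have hb : 4 * Real.pi * ‖T3s (fw η (fun k => kn k ^ m) (a s))‖
          ≤ Xm * Real.sqrt (hn (m + 2) (a s) * hn 4 (a s) * hn m (a s)) := by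
        calc _ ≤ 4 * Real.pi * (243 * H * 2 ^ (m + 2) * cS
              * (Real.sqrt (hn 4 (a s)) * Real.sqrt (hn (m + 2) (a s) * hn m (a s)))) := by
              refine mul_le_mul_of_nonneg_left (hp.trans ?_) (by positivity)
              gcongr
          _ = _ := by rw [hXm, e4]; ring
      have hr := re_bound _ hb
      have hag := amgm3 hXm0 p3 p4 p2 hν
      show -(2 * ν' * hn (m + 2) (a s)) - 4 * Real.pi * (T3s (fw η (fun k => kn k ^ m) (a s))).re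
        ≤ -(0 * hn (m + 2) (a s)) + Xm ^ 2 / (4 * ν') * (hn 4 (a s) * (hn m (a s) + 0))
      rw [add_zero]
      have : 0 ≤ ν' * hn (m + 2) (a s) := by positivity
      linarith)
    (fun s hs => by
      have := hz2' s hs
      rw [div_le_iff₀ hν]
      linarith)
  obtain ⟨z3', hz3, hz3'⟩ := hs3
  have h5 := anti_of_deriv hz3 (fun s hs => by have := hz3' s hs; simpa using this) ht
  have h6 : hn m (a t) ≤ (hn m (a t) + 0) * Real.exp (Xm ^ 2 / (4 * ν') * ((hn 2 (a t) + 0)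
      * Real.exp (κ2 * ((hn 1 (a t) + D) * Real.exp (κ1 * (hn 0 (a t) / (2 * ν'))) / ν')) / ν')) := by
    rw [add_zero]
    refine le_mul_of_one_le_right (hnn m t) (Real.one_le_exp ?_)
    exact mul_nonneg (by positivity) (div_nonneg (by simpa using hZ2nn t) hν.le)
  have h7 : (hn m (a 0) + 0) * Real.exp (Xm ^ 2 / (4 * ν') * ((hn 2 (a 0) + 0)
      * Real.exp (κ2 * ((hn 1 (a 0) + D) * Real.exp (κ1 * (hn 0 (a 0) / (2 * ν'))) / ν')) / ν'))
      ≤ (A₀ m + 0) * Real.exp (Xm ^ 2 / (4 * ν') * (Z2m / ν')) := by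
    have p1 := hini m
    have p3 := hnn m 0
    have p5 : 0 ≤ A₀ m + 0 := by linarith
    gcongr
  exact h6.trans (h5.trans h7)

end Pool.Agent.X96.DM
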