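import Pool.Agent.X96.DM.Log

/-!
Bounds of the Galerkin approximations which are uniform in the time and in the set of frequencies,
for weights which are logarithmically larger.
-/

open MeasureTheory Set Filter Topology
open scoped ENNReal InnerProductSpace NNReal
open H459R3.NS Pool.Agent.X96.HT

namespace Pool.Agent.X96.DM

variable {η : Md → Md → Md → ℝ} {Q : Set K3}

lemma one_le_log {x : ℝ} (hx : 3 ≤ x) : 1 ≤ Real.log x := by
  rw [Real.le_log_iff_exp_le (by linarith)]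
  have := Real.exp_one_lt_d9
  linarith

lemma log_R {q y c : ℝ} (hq : 0 ≤ q) (hy : 0 ≤ y) (hc : 3 + q ^ 2 ≤ c) :
    Real.log (3 + (1 + q * Real.sqrt y) ^ 4) ≤ 4 * Real.log (c + y) := by
  set s := q * Real.sqrt y with hs
  have hs0 : 0 ≤ s := by positivity
  have h1 : 3 + (1 + s) ^ 4 ≤ (3 + s) ^ 4 := by
    have : (3 + s) ^ 4 - (3 + (1 + s) ^ 4) = 8 * s ^ 3 + 48 * s ^ 2 + 104 * s + 77 := by ring
    have h2 : 0 ≤ 8 * s ^ 3 + 48 * s ^ 2 + 104 * s + 77 := by positivity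
    linarith
  have h3 : 3 + s ≤ c + y := by
    have h4 : 0 ≤ (q - Real.sqrt y) ^ 2 := sq_nonneg _
    have h5 := Real.sq_sqrt hy
    nlinarith
  calc Real.log (3 + (1 + s) ^ 4) ≤ Real.log ((3 + s) ^ 4) := Real.log_le_log (by positivity) h1
    _ = 4 * Real.log (3 + s) := by rw [Real.log_pow]; norm_num
    _ ≤ 4 * Real.log (c + y) := by
        have := Real.log_le_log (by positivity) h3
        linarith

/-- the inequality for the norm of `H^{1/2}` -/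
theorem half_ineq (hη : IsWeight η) {H : ℝ} (hH : ∀ a b c, |η a b c| ≤ H)
    {K θ₁ θ₂ C A : ℝ} (hK : 0 ≤ K) (hC : 0 ≤ C)
    (hθ₁ : 0 ≤ θ₁) (hθ₁' : θ₁ < 4 / 5) (hθ₂ : 0 ≤ θ₂) (hθ₂' : θ₂ < 6 / 7) (hQ : Planar A Q)
    (hX : StrongLog η Q K θ₁ θ₂ C) {ν' : ℝ} (hν : 0 < ν') (E : ℝ) :
    ∃ κ c : ℝ, 1 ≤ κ ∧ 3 ≤ c ∧ ∀ U : K3 → C3, RapV U → (∀ k, dp (kc k) (U k) = 0) →
      hn 0 U ≤ hn 2 U → hn 0 U ≤ E →
      -(2 * ν' * hn 3 U) - 4 * Real.pi * (T3s (fw η (fun k => kn k ^ 1) U)).re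
        ≤ -(ν' * hn 3 U) + κ * Real.log (c + hn 1 U) * (hn 2 U * (hn 1 U + c)) := by
  have hH0 : 0 ≤ H := (abs_nonneg _).trans (hH (0, true) (0, true) (0, true))
  have hck1 := ck_nonneg K θ₁ 1 1
  have hck2 := ck_nonneg K θ₂ 2 0
  set W1 : ℝ := 4 * Real.pi * (2916 * H) * (ck K θ₁ 1 1 * Real.sqrt E) with hW1
  set W2 : ℝ := 4 * Real.pi * (2916 * H) * (ck K θ₂ 2 0 * Real.sqrt E) with hW2
  have hW10 : 0 ≤ W1 := by positivity
  have hW20 : 0 ≤ W2 := by positivity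
  set ε₁ : ℝ := ek ν' W1 with hε₁
  set ε₂ : ℝ := ek ν' W2 with hε₂
  have hε₁0 : 0 < ε₁ := ek_pos hν hW10
  have hε₂0 : 0 < ε₂ := ek_pos hν hW20
  set g1 : ℝ := ε₁ ^ (-((1 + 5 / 2 * θ₁) / (2 - 5 / 2 * θ₁))) with hg1
  set g2 : ℝ := ε₂ ^ (-((7 / 2 * θ₂) / (3 - 7 / 2 * θ₂))) with hg2
  have hg10 : 0 ≤ g1 := (Real.rpow_pos_of_pos hε₁0 _).le
  have hg20 : 0 ≤ g2 := (Real.rpow_pos_of_pos hε₂0 _).le
  set D : ℝ := W1 * g1 + W2 * g2 with hD
  have hD0 : 0 ≤ D := by positivity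
  have hA0 := hQ.nonneg
  set α : ℝ := 4 * Real.pi * (5832 * H * Real.sqrt A) with hα
  set β : ℝ := 4 * Real.pi * (12600 * C) with hβ
  have hα0 : 0 ≤ α := by positivity
  have hβ0 : 0 ≤ β := by positivity
  set Xh : ℝ := 4 * Real.pi * (64152 * (2 * C)) with hXh
  have hXh0 : 0 ≤ Xh := by positivity
  set q : ℝ := 8 * Xh / ν' with hq
  have hq0 : 0 ≤ q := by positivity
  set c : ℝ := 3 + q ^ 2 + D with hc
  have hc3 : 3 ≤ c := by
    have := sq_nonneg q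
    linarith
  set κ : ℝ := (2 * α ^ 2 + 8 * β ^ 2) / (4 * (3 * ν' / 8)) + 1 with hκ
  have hκ1 : 1 ≤ κ := by
    have : 0 ≤ (2 * α ^ 2 + 8 * β ^ 2) / (4 * (3 * ν' / 8)) := by positivity
    linarith
  refine ⟨κ, c, hκ1, hc3, fun U hU hdiv h02 hUE => ?_⟩
  have p0 := hn_nonneg 0 U
  have p1 := hn_nonneg 1 U
  have p2 := hn_nonneg 2 U
  have p3 := hn_nonneg 3 U
  set ℓ : ℝ := Real.log (c + hn 1 U) with hℓ
  have hℓ1 : 1 ≤ ℓ := one_le_log (by linarith)
  set s : ℝ := 1 + q * Real.sqrt (hn 1 U) with hs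
  have hs1 : 1 ≤ s := by
    have : 0 ≤ q * Real.sqrt (hn 1 U) := by positivity
    linarith
  have hR1 : (1 : ℝ) ≤ s ^ 4 := one_le_pow₀ hs1
  have hsR : Real.sqrt (Real.sqrt (s ^ 4)) = s := by
    have : s ^ 4 = (s ^ 2) ^ 2 := by ring
    rw [this, Real.sqrt_sq (by positivity), Real.sqrt_sq (by linarith)]
  have hp := half_log hη hH hU hdiv hK hC hθ₁ hθ₁' hθ₂ hθ₂' hQ hX hε₁0 hε₂0 hR1
  rw [hsR] at hp
  have hlog : Real.log (3 + s ^ 4) ≤ 4 * ℓ := log_R hq0 p1 (by linarith)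
  have hlog0 : 0 ≤ Real.log (3 + s ^ 4) := Real.log_nonneg (by linarith)
  have hsq : Real.sqrt (hn 0 U) ≤ Real.sqrt E := Real.sqrt_le_sqrt hUE
  have hb : 4 * Real.pi * ‖T3s (fw η (fun k => kn k ^ 1) U)‖
      ≤ (α + β * Real.sqrt (Real.log (3 + s ^ 4))) * Real.sqrt (hn 3 U * hn 2 U * hn 1 U)
        + W1 * (ε₁ * hn 3 U + g1 * hn 0 U) + W2 * (ε₂ * hn 3 U + g2 * hn 0 U)
        + Xh / s * (Real.sqrt (hn 1 U) * hn 3 U) := by
    calc 4 * Real.pi * ‖T3s (fw η (fun k => kn k ^ 1) U)‖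
        ≤ 4 * Real.pi * ((5832 * H * Real.sqrt A + 12600 * (C * Real.sqrt (Real.log (3 + s ^ 4))))
          * Real.sqrt (hn 3 U * hn 2 U * hn 1 U)
          + 2916 * H * (ck K θ₁ 1 1 * Real.sqrt E * (ε₁ * hn 3 U + g1 * hn 0 U)
            + ck K θ₂ 2 0 * Real.sqrt E * (ε₂ * hn 3 U + g2 * hn 0 U))
          + 64152 * (2 * C / s) * (Real.sqrt (hn 1 U) * hn 3 U)) := by
          refine mul_le_mul_of_nonneg_left (hp.trans ?_) (by positivity)
          gcongr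
      _ = _ := by rw [hα, hβ, hW1, hW2, hXh]; ring
  have hr := re_bound _ hb
  have hX0 : 0 ≤ α + β * Real.sqrt (Real.log (3 + s ^ 4)) := by positivity
  have hag := amgm3 hX0 p3 p2 p1 (by positivity : 0 < 3 * ν' / 8)
  have hw1 : W1 * ε₁ * hn 3 U ≤ ν' / 4 * hn 3 U := mul_le_mul_of_nonneg_right (mul_ek_le hν hW10) p3
  have hw2 : W2 * ε₂ * hn 3 U ≤ ν' / 4 * hn 3 U := mul_le_mul_of_nonneg_right (mul_ek_le hν hW20) p3
  have hw3 : Xh / s * (Real.sqrt (hn 1 U) * hn 3 U) ≤ ν' / 8 * hn 3 U := by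
    rw [← mul_assoc]
    refine mul_le_mul_of_nonneg_right ?_ p3
    rw [div_mul_eq_mul_div, div_le_iff₀ (by linarith)]
    have h1 : ν' / 8 * s = ν' / 8 + Xh * Real.sqrt (hn 1 U) := by
      rw [hs, hq]; field_simp
    rw [h1]
    have : 0 < ν' / 8 := by positivity
    linarith
  have hκℓ : 1 ≤ κ * ℓ := by nlinarith
  have hd : D * hn 0 U ≤ κ * ℓ * (hn 2 U * c) := by
    calc D * hn 0 U ≤ c * hn 2 U := by
          have : D ≤ c := by
            have := sq_nonneg q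
            linarith
          gcongr
      _ = 1 * (hn 2 U * c) := by ring
      _ ≤ _ := by gcongr
  have hX2 : (α + β * Real.sqrt (Real.log (3 + s ^ 4))) ^ 2 ≤ (2 * α ^ 2 + 8 * β ^ 2) * ℓ := by
    have h1 := Real.sq_sqrt hlog0
    have h2 : (α + β * Real.sqrt (Real.log (3 + s ^ 4))) ^ 2
        ≤ 2 * α ^ 2 + 2 * (β ^ 2 * Real.log (3 + s ^ 4)) := by
      nlinarith [sq_nonneg (α - β * Real.sqrt (Real.log (3 + s ^ 4)))]
    calc _ ≤ 2 * α ^ 2 + 2 * (β ^ 2 * Real.log (3 + s ^ 4)) := h2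
      _ ≤ 2 * α ^ 2 * ℓ + 2 * (β ^ 2 * (4 * ℓ)) := by
          have : 2 * α ^ 2 ≤ 2 * α ^ 2 * ℓ := le_mul_of_one_le_right (by positivity) hℓ1
          gcongr
      _ = _ := by ring
  have hk : (α + β * Real.sqrt (Real.log (3 + s ^ 4))) ^ 2 / (4 * (3 * ν' / 8))
      * (hn 2 U * hn 1 U) ≤ κ * ℓ * (hn 2 U * hn 1 U) := by
    refine mul_le_mul_of_nonneg_right ?_ (mul_nonneg p2 p1)
    calc (α + β * Real.sqrt (Real.log (3 + s ^ 4))) ^ 2 / (4 * (3 * ν' / 8))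
        ≤ (2 * α ^ 2 + 8 * β ^ 2) * ℓ / (4 * (3 * ν' / 8)) := by gcongr
      _ = (2 * α ^ 2 + 8 * β ^ 2) / (4 * (3 * ν' / 8)) * ℓ := by ring
      _ ≤ κ * ℓ := by
          refine mul_le_mul_of_nonneg_right ?_ (by linarith)
          rw [hκ]; linarith
  have e1 : W1 * (ε₁ * hn 3 U + g1 * hn 0 U) + W2 * (ε₂ * hn 3 U + g2 * hn 0 U)
      = W1 * ε₁ * hn 3 U + W2 * ε₂ * hn 3 U + D * hn 0 U := by rw [hD]; ring
  have e2 : κ * ℓ * (hn 2 U * (hn 1 U + c)) = κ * ℓ * (hn 2 U * hn 1 U) + κ * ℓ * (hn 2 U * c) := by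
    ring
  rw [e2]
  linarith

theorem gal_bound2 (hη : IsWeight η) {K θ₁ θ₂ C A : ℝ} (hK : 0 ≤ K) (hC : 0 ≤ C)
    (hθ₁ : 0 ≤ θ₁) (hθ₁' : θ₁ < 4 / 5) (hθ₂ : 0 ≤ θ₂) (hθ₂' : θ₂ < 6 / 7) (hQ : Planar A Q)
    (hX : StrongLog η Q K θ₁ θ₂ C) {ν' : ℝ} (hν : 0 < ν') (A₀ : ℕ → ℝ) :
    ∃ B : ℕ → ℝ, ∀ (S : Finset K3), (0 : K3) ∉ S → ∀ (T : ℝ) (a : ℝ → K3 → C3), Gal η ν' T S a →
      (∀ m, hn m (a 0) ≤ A₀ m) → ∀ t ∈ Icc 0 T, ∀ m, hn m (a t) ≤ B m := by
  obtain ⟨H, hH⟩ := hη.bdd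
  have hH0 : 0 ≤ H := (abs_nonneg _).trans (hH (0, true) (0, true) (0, true))
  obtain ⟨κ, c, hκ1, hc3, hineq⟩ := half_ineq hη hH hK hC hθ₁ hθ₁' hθ₂ hθ₂' hQ hX hν (A₀ 0)
  set Lm : ℝ := Real.exp (Real.log (Real.log (c + A₀ 1)) + κ * (A₀ 0 / (2 * ν'))) with hLm
  have hLm0 : 0 < Lm := Real.exp_pos _
  set κ1 : ℝ := κ * Lm with hκ1d
  have hκ10 : 0 ≤ κ1 := by positivity
  set X2 : ℝ := 4 * Real.pi * (110000 * H) with hX2
  have hX20 : 0 ≤ X2 := by positivity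
  set κ2 : ℝ := X2 ^ 2 / (4 * ν') with hκ2
  have hκ20 : 0 ≤ κ2 := by positivity
  have hcS := cS_nonneg
  set Z1m : ℝ := (A₀ 1 + c) * Real.exp (κ1 * (A₀ 0 / (2 * ν'))) with hZ1m
  set Z2m : ℝ := (A₀ 2 + 0) * Real.exp (κ2 * (Z1m / ν')) with hZ2m
  refine ⟨fun m => (A₀ m + 0) * Real.exp (((4 * Real.pi * (243 * H * 2 ^ (m + 2) * cS)) ^ 2
    / (4 * ν')) * (Z2m / ν')), ?_⟩
  intro S h0 T a ha hini t ht m
  have hT : 0 ≤ T := ht.1.trans ht.2
  have hI0 : (0 : ℝ) ∈ Icc 0 T := ⟨le_rfl, hT⟩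
  have hnn : ∀ n s, 0 ≤ hn n (a s) := fun n s => hn_nonneg n _
  have hrap : ∀ s, RapV (a s) := fun s => rapV_fin (ha.supp s)
  -- the energy
  have hy0 : ∀ s ∈ Icc 0 T, HasDerivWithinAt (fun s => hn 0 (a s) / (2 * ν'))
      (-hn 2 (a s)) (Icc 0 T) s := by
    intro s hs
    have := (ha.hn_deriv hη 0 hs).div_const (2 * ν')
    rw [T3s_energy hη (hrap s) (ha.div s)] at this
    refine this.congr_deriv ?_
    simp only [Complex.zero_re, mul_zero, sub_zero, zero_add]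
    field_simp
  have hyE : ∀ s ∈ Icc 0 T, hn 0 (a s) ≤ A₀ 0 := by
    intro s hs
    have h1 := anti_of_deriv hy0 (fun s hs => by have := hnn 2 s; linarith) hs
    have h2 : hn 0 (a s) ≤ hn 0 (a 0) := by
      rwa [div_le_div_iff_of_pos_right (by positivity)] at h1
    exact h2.trans (hini 0)
  have hin : ∀ s ∈ Icc 0 T, -(2 * ν' * hn (1 + 2) (a s))
      - 4 * Real.pi * (T3s (fw η (fun k => kn k ^ 1) (a s))).re
      ≤ -(ν' * hn 3 (a s)) + κ * Real.log (c + hn 1 (a s)) * (hn 2 (a s) * (hn 1 (a s) + c)) :=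
    fun s hs => hineq (a s) (hrap s) (ha.div s) (hn_mono_fin (ha.supp s) h0 (by norm_num))
      (hyE s hs)
  -- the logarithm of the logarithm
  have hll : ∀ s ∈ Icc 0 T, Real.log (c + hn 1 (a s)) ≤ Lm := by
    intro s hs
    have hd : ∀ r ∈ Icc 0 T, HasDerivWithinAt
        (fun r => Real.log (Real.log (c + hn 1 (a r))) + κ * (hn 0 (a r) / (2 * ν')))
        ((-(2 * ν' * hn (1 + 2) (a r)) - 4 * Real.pi * (T3s (fw η (fun k => kn k ^ 1) (a r))).re)
          / (c + hn 1 (a r)) / Real.log (c + hn 1 (a r)) + κ * -hn 2 (a r)) (Icc 0 T) r := by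
      intro r hr
      have q1 := hnn 1 r
      have q2 : 1 ≤ Real.log (c + hn 1 (a r)) := one_le_log (by linarith)
      have h1 := ha.hn_deriv hη 1 hr
      have h2 : HasDerivWithinAt (fun r => c + hn 1 (a r)) _ (Icc 0 T) r := h1.const_add c
      exact ((h2.log (by linarith)).log (by linarith)).add ((hy0 r hr).const_mul κ)
    have h3 := anti_of_deriv hd (fun r hr => by
      have q1 := hnn 1 r
      have q3 := hnn 2 r
      have q4 := hnn 3 r
      have q2 : 1 ≤ Real.log (c + hn 1 (a r)) := one_le_log (by linarith)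
      have h4 := hin r hr
      have h5 : (-(2 * ν' * hn (1 + 2) (a r))
          - 4 * Real.pi * (T3s (fw η (fun k => kn k ^ 1) (a r))).re)
          / (c + hn 1 (a r)) / Real.log (c + hn 1 (a r)) ≤ κ * hn 2 (a r) := by
        rw [div_le_iff₀ (by linarith), div_le_iff₀ (by linarith)]
        have h6 : 0 ≤ ν' * hn 3 (a r) := by positivity
        linarith
      linarith) hs
    have q0 := hnn 0 s
    have q1 := hnn 1 s
    have q2 : 1 ≤ Real.log (c + hn 1 (a s)) := one_le_log (by linarith)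
    have r0 := hini 0
    have r1 := hini 1
    have r2 := hnn 1 0
    have r3 : 1 ≤ Real.log (c + hn 1 (a 0)) := one_le_log (by linarith)
    have h4 : 0 ≤ κ * (hn 0 (a s) / (2 * ν')) := by positivity
    have h5 : Real.log (Real.log (c + hn 1 (a 0))) ≤ Real.log (Real.log (c + A₀ 1)) :=
      Real.log_le_log (by linarith) (Real.log_le_log (by linarith) (by linarith))
    have h6 : κ * (hn 0 (a 0) / (2 * ν')) ≤ κ * (A₀ 0 / (2 * ν')) := by gcongr
    have h7 : Real.log (Real.log (c + hn 1 (a s)))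
        ≤ Real.log (Real.log (c + A₀ 1)) + κ * (A₀ 0 / (2 * ν')) := by linarith
    rw [Real.log_le_iff_le_exp (by linarith)] at h7
    exact h7
  -- first step
  have hs1 := zstep (T := T) (κ := κ1) (c := c) (δ := ν') (y := fun s => hn 1 (a s))
    (y' := fun s => -(2 * ν' * hn (1 + 2) (a s)) - 4 * Real.pi * (T3s (fw η (fun k => kn k ^ 1) (a s))).re)
    (g := fun s => hn 0 (a s) / (2 * ν')) (g' := fun s => -hn 2 (a s)) (x := fun s => hn 3 (a s))
    (r := fun s => hn 2 (a s)) hκ10 hν.le (fun s hs => ha.hn_deriv hη 1 hs) hy0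
    (fun s _ => by have := hnn 1 s; positivity) (fun s _ => by have := hnn 0 s; positivity)
    (fun s _ => hnn 3 s) (fun s hs => by
      have p1 := hnn 1 s
      have p2 := hnn 2 s
      refine (hin s hs).trans ?_
      have h1 := hll s hs
      have h2 : κ * Real.log (c + hn 1 (a s)) * (hn 2 (a s) * (hn 1 (a s) + c))
          ≤ κ * Lm * (hn 2 (a s) * (hn 1 (a s) + c)) := by gcongr
      linarith) (fun s _ => le_rfl)
  obtain ⟨z1', hz1, hz1'⟩ := hs1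
  have hZ1nn : ∀ s, 0 ≤ (hn 1 (a s) + c) * Real.exp (κ1 * (hn 0 (a s) / (2 * ν'))) := fun s => by
    have := hnn 1 s; positivity
  have hZ10 : (hn 1 (a 0) + c) * Real.exp (κ1 * (hn 0 (a 0) / (2 * ν'))) ≤ Z1m := by
    have p1 := hini 1
    have p2 := hini 0
    have p3 := hnn 1 0
    have p4 := hnn 0 0
    have p5 : 0 ≤ A₀ 1 + c := by linarith
    rw [hZ1m]
    gcongr
  -- second step
  have hs2 := zstep (T := T) (κ := κ2) (c := 0) (δ := ν') (y := fun s => hn 2 (a s))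
    (y' := fun s => -(2 * ν' * hn (2 + 2) (a s)) - 4 * Real.pi * (T3s (fw η (fun k => kn k ^ 2) (a s))).re)
    (g := fun s => (hn 1 (a s) + c) * Real.exp (κ1 * (hn 0 (a s) / (2 * ν'))) / ν')
    (g' := fun s => z1' s / ν') (x := fun s => hn 4 (a s))
    (r := fun s => hn 3 (a s)) hκ20 hν.le (fun s hs => ha.hn_deriv hη 2 hs)
    (fun s hs => (hz1 s hs).div_const ν')
    (fun s _ => by have := hnn 2 s; positivity) (fun s _ => div_nonneg (hZ1nn s) hν.le)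
    (fun s _ => hnn 4 s) (fun s hs => by
      have p2 := hnn 2 s
      have p3 := hnn 3 s
      have p4 := hnn 4 s
      have hp := prod_H1 hH (hrap s) (ha.div s)
      have hb : 4 * Real.pi * ‖T3s (fw η (fun k => kn k ^ 2) (a s))‖
          ≤ X2 * Real.sqrt (hn 4 (a s) * hn 3 (a s) * hn 2 (a s)) := by
        calc _ ≤ 4 * Real.pi * (110000 * H * Real.sqrt (hn 2 (a s) * hn 3 (a s) * hn 4 (a s))) :=
              mul_le_mul_of_nonneg_left hp (by positivity)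
          _ = _ := by
              rw [hX2, show hn 4 (a s) * hn 3 (a s) * hn 2 (a s)
                = hn 2 (a s) * hn 3 (a s) * hn 4 (a s) by ring]
              ring
      have hr := re_bound _ hb
      have hag := amgm3 hX20 p4 p3 p2 hν
      show -(2 * ν' * hn (2 + 2) (a s)) - 4 * Real.pi * (T3s (fw η (fun k => kn k ^ 2) (a s))).re
        ≤ -(ν' * hn 4 (a s)) + κ2 * (hn 3 (a s) * (hn 2 (a s) + 0))
      have e3 : hn (2 + 2) (a s) = hn 4 (a s) := rfl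
      rw [e3, add_zero]
      linarith)
    (fun s hs => by
      have := hz1' s hs
      rw [div_le_iff₀ hν]
      linarith)
  obtain ⟨z2', hz2, hz2'⟩ := hs2
  have hZ2nn : ∀ s, 0 ≤ (hn 2 (a s) + 0)
      * Real.exp (κ2 * ((hn 1 (a s) + c) * Real.exp (κ1 * (hn 0 (a s) / (2 * ν'))) / ν')) := fun s => by
    have := hnn 2 s; positivity
  have hZ20 : (hn 2 (a 0) + 0)
      * Real.exp (κ2 * ((hn 1 (a 0) + c) * Real.exp (κ1 * (hn 0 (a 0) / (2 * ν'))) / ν')) ≤ Z2m := by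
    have p1 := hini 2
    have p3 := hnn 2 0
    have p5 : 0 ≤ A₀ 2 + 0 := by linarith
    rw [hZ2m]
    gcongr
  -- the other steps
  set Xm : ℝ := 4 * Real.pi * (243 * H * 2 ^ (m + 2) * cS) with hXm
  have hXm0 : 0 ≤ Xm := by positivity
  have hs3 := zstep (T := T) (κ := Xm ^ 2 / (4 * ν')) (c := 0) (δ := 0) (y := fun s => hn m (a s))
    (y' := fun s => -(2 * ν' * hn (m + 2) (a s)) - 4 * Real.pi * (T3s (fw η (fun k => kn k ^ m) (a s))).re)
    (g := fun s => (hn 2 (a s) + 0)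
      * Real.exp (κ2 * ((hn 1 (a s) + c) * Real.exp (κ1 * (hn 0 (a s) / (2 * ν'))) / ν')) / ν')
    (g' := fun s => z2' s / ν') (x := fun s => hn (m + 2) (a s))
    (r := fun s => hn 4 (a s)) (by positivity) le_rfl (fun s hs => ha.hn_deriv hη m hs)
    (fun s hs => (hz2 s hs).div_const ν')
    (fun s _ => by have := hnn m s; positivity) (fun s _ => div_nonneg (hZ2nn s) hν.le)
    (fun s _ => hnn (m + 2) s) (fun s hs => by
      have p2 := hnn m s
      have p3 := hnn (m + 2) s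
      have p4 := hnn 4 s
      have p5 := hnn (m + 1) s
      have hp := prod_high hH (hrap s) (ha.div s) m
      have hi := hn_interp_fin (ha.supp s) m
      have hi' : hn (m + 1) (a s) ≤ Real.sqrt (hn (m + 2) (a s) * hn m (a s)) := by
        rw [mul_comm]; exact Real.le_sqrt_of_sq_le hi
      have e4 : Real.sqrt (hn 4 (a s)) * Real.sqrt (hn (m + 2) (a s) * hn m (a s))
          = Real.sqrt (hn (m + 2) (a s) * hn 4 (a s) * hn m (a s)) := by
        rw [← Real.sqrt_mul p4]; congr 1; ring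
      have hb : 4 * Real.pi * ‖T3s (fw η (fun k => kn k ^ m) (a s))‖
          ≤ Xm * Real.sqrt (hn (m + 2) (a s) * hn 4 (a s) * hn m (a s)) := by
        calc _ ≤ 4 * Real.pi * (243 * H * 2 ^ (m + 2) * cS
              * (Real.sqrt (hn 4 (a s)) * Real.sqrt (hn (m + 2) (a s) * hn m (a s)))) := by
              refine mul_le_mul_of_nonneg_left (hp.trans ?_) (by positivity)
              gcongr
          _ = _ := by rw [hXm, e4]; ring
      have hr := re_bound _ hb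
      have hag := amgm3 hXm0 p3 p4 p2 hν
      show -(2 * ν' * hn (m + 2) (a s)) - 4 * Real.pi * (T3s (fw η (fun k => kn k ^ m) (a s))).re
        ≤ -(0 * hn (m + 2) (a s)) + Xm ^ 2 / (4 * ν') * (hn 4 (a s) * (hn m (a s) + 0))
      rw [add_zero]
      have : 0 ≤ ν' * hn (m + 2) (a s) := by positivity
      linarith)
    (fun s hs => by
      have := hz2' s hs
      rw [div_le_iff₀ hν]
      linarith)
  obtain ⟨z3', hz3, hz3'⟩ := hs3
  have h5 := anti_of_deriv hz3 (fun s hs => by have := hz3' s hs; simpa using this) ht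
  have h6 : hn m (a t) ≤ (hn m (a t) + 0) * Real.exp (Xm ^ 2 / (4 * ν') * ((hn 2 (a t) + 0)
      * Real.exp (κ2 * ((hn 1 (a t) + c) * Real.exp (κ1 * (hn 0 (a t) / (2 * ν'))) / ν')) / ν')) := by
    rw [add_zero]
    refine le_mul_of_one_le_right (hnn m t) (Real.one_le_exp ?_)
    exact mul_nonneg (by positivity) (div_nonneg (by simpa using hZ2nn t) hν.le)
  have h7 : (hn m (a 0) + 0) * Real.exp (Xm ^ 2 / (4 * ν') * ((hn 2 (a 0) + 0)
      * Real.exp (κ2 * ((hn 1 (a 0) + c) * Real.exp (κ1 * (hn 0 (a 0) / (2 * ν'))) / ν')) / ν'))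
      ≤ (A₀ m + 0) * Real.exp (Xm ^ 2 / (4 * ν') * (Z2m / ν')) := by
    have p1 := hini m
    have p3 := hnn m 0
    have p5 : 0 ≤ A₀ m + 0 := by linarith
    gcongr
  exact h6.trans (h5.trans h7)

end Pool.Agent.X96.DM
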