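import Pool.Agent.X96.DM.Thin2

/-!
Weights of density two: the production of the norm of `H^{1/2}`.
-/

open MeasureTheory Set Filter Topology
open scoped ENNReal InnerProductSpace NNReal
open H459R3.NS Pool.Agent.X96.HT

namespace Pool.Agent.X96.DM

variable {η : Md → Md → Md → ℝ} {U : K3 → C3} {w : K3 → K3 → ℝ} {A : ℝ} {k p q : K3} {a b c : C3}

/-- The weights `η` of the strong mixed triads are dominated by `w`. A triad `a + b + c = 0` of
frequencies, with the same sign `s` of helicity for `a` and `b` and the opposite sign for `c`, is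
strong if it is not collinear, if the shortest of the three frequencies is longer than `K M^θ₁`,
where `M` is the length of the longest, and if `c` is longer than `K m^θ₂`, where `m` is the length
of the longer one of `a` and `b`. -/
def StrongThin (η : Md → Md → Md → ℝ) (w : K3 → K3 → ℝ) (K θ₁ θ₂ : ℝ) : Prop :=
  ∀ (a b c : K3) (s : Bool), a + b + c = 0 → crossProduct a b ≠ 0 →
    K * max (kn a) (max (kn b) (kn c)) ^ θ₁ < min (kn a) (min (kn b) (kn c)) →
    K * max (kn a) (kn b) ^ θ₂ < kn c →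
    |η (a, s) (b, s) (c, !s)| ≤ w a b + w b c + w c a

/-- the alternatives -/
def Alt3 (η : Md → Md → Md → ℝ) (w : K3 → K3 → ℝ) (K θ₁ θ₂ : ℝ) (k p q : K3) (r s t : Bool)
    (x M : ℝ) : Prop :=
  x ≤ 108 * (ex K θ₁ θ₂ k p q * M) ∨ |η (k, r) (p, s) (q, t)| ≤ w k p + w p q + w q k

lemma Alt3_rot (h : IsWeight η) {K θ₁ θ₂ : ℝ} {r s t : Bool} {x M : ℝ}
    (h2 : Alt3 η w K θ₁ θ₂ p q k s t r x M) : Alt3 η w K θ₁ θ₂ k p q r s t x M := by
  unfold Alt3 at *
  rw [ex_rot]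
  rcases h2 with h2 | h2
  · exact Or.inl h2
  · rw [h.rot] at h2
    exact Or.inr (by linarith)

lemma Alt3_min3 {K θ₁ θ₂ : ℝ} (hX : StrongThin η w K θ₁ θ₂)
    (h : k + p + q = 0) (hcol : crossProduct k p ≠ 0) (ha : dp (kc k) a = 0) (hb : dp (kc p) b = 0)
    (hc : dp (kc q) c = 0) (s : Bool) :
    Alt3 η w K θ₁ θ₂ k p q s s (!s) ‖G3 k p q (par s k a) (par s p b) (par (!s) q c)‖
      (‖par s k a‖ * ‖par s p b‖ * ‖par (!s) q c‖) := by
  by_cases h1 : K * max (kn k) (max (kn p) (kn q)) ^ θ₁ < min (kn k) (min (kn p) (kn q))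
  · by_cases h2 : K * max (kn k) (kn p) ^ θ₂ < kn q
    · exact Or.inr (hX k p q s h hcol h1 h2)
    · exact Or.inl (ex_ge2 h2 (G3_minlow h ha hb hc s) (by positivity))
  · exact Or.inl (ex_ge1 h1 (B3_min3 h ha hb hc s) (by positivity))

lemma Alt3_mixed (hη : IsWeight η) {K θ₁ θ₂ : ℝ}
    (hX : StrongThin η w K θ₁ θ₂)
    (h : k + p + q = 0) (hcol : crossProduct k p ≠ 0) (ha : dp (kc k) a = 0) (hb : dp (kc p) b = 0)
    (hc : dp (kc q) c = 0) {r s t : Bool} (hmix : ¬ (r = s ∧ s = t)) :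
    Alt3 η w K θ₁ θ₂ k p q r s t ‖G3 k p q (par r k a) (par s p b) (par t q c)‖
      (‖par r k a‖ * ‖par s p b‖ * ‖par t q c‖) := by
  by_cases hrs : r = s
  · subst hrs
    have ht : t = !r := by
      cases r <;> cases t <;> simp_all
    subst ht
    exact Alt3_min3 hX h hcol ha hb hc r
  · by_cases hst : s = t
    · subst hst
      have hr : r = !s := by cases r <;> cases s <;> simp_all
      subst hr
      rw [G3_rot]
      have e : ‖par (!s) k a‖ * ‖par s p b‖ * ‖par s q c‖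
          = ‖par s p b‖ * ‖par s q c‖ * ‖par (!s) k a‖ := by ring
      rw [e]
      refine Alt3_rot hη (Alt3_min3 hX (sum_rot h) ?_ hb hc ha s)
      rw [cross_rot h]; exact hcol
    · have hr : r = t := by cases r <;> cases s <;> cases t <;> simp_all
      subst hr
      have hs : s = !r := by cases r <;> cases s <;> simp_all
      subst hs
      rw [G3_rot, G3_rot]
      have e : ‖par r k a‖ * ‖par (!r) p b‖ * ‖par r q c‖
          = ‖par r q c‖ * ‖par r k a‖ * ‖par (!r) p b‖ := by ring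
      rw [e]
      refine Alt3_rot hη (Alt3_rot hη (Alt3_min3 hX (sum_rot (sum_rot h)) ?_ hc ha hb r))
      rw [cross_rot (sum_rot h), cross_rot h]; exact hcol

/-- The bound of the production by one triad, with weights. -/
theorem Gw3_le (hη : IsWeight η) {H : ℝ} (hH : ∀ a b c, |η a b c| ≤ H)
    {K θ₁ θ₂ : ℝ} (hw : ∀ k p, 0 ≤ w k p) (hX : StrongThin η w K θ₁ θ₂)
    (h : k + p + q = 0) (ha : dp (kc k) a = 0) (hb : dp (kc p) b = 0) (hc : dp (kc q) c = 0) :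
    ‖∑ r : Bool, ∑ s : Bool, ∑ t : Bool, (η (k, r) (p, s) (q, t) : ℂ) *
      G3 k p q (par r k a) (par s p b) (par t q c)‖
    ≤ 108 * H * (ex K θ₁ θ₂ k p q * (bt k a * bt p b * bt q c))
      + 108 * ((w k p + w p q + w q k) * (mu k p q * (bt k a * bt p b * bt q c))) := by
  have hH0 : 0 ≤ H := (abs_nonneg _).trans (hH (k, true) (p, true) (q, true))
  have hex := ex_nonneg K θ₁ θ₂ k p q
  have hmu := mu_nonneg k p q
  have b1 := bt_nonneg k a
  have b2 := bt_nonneg p b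
  have b3 := bt_nonneg q c
  have hW : 0 ≤ w k p + w p q + w q k := by
    have := hw k p
    have := hw p q
    have := hw q k
    linarith
  by_cases h0 : k = 0 ∨ p = 0 ∨ q = 0
  · simp_rw [G3_zero h h0]
    simp only [mul_zero, Finset.sum_const_zero, norm_zero]
    positivity
  push Not at h0
  obtain ⟨hk, hp, hq⟩ := h0
  have key : ∀ r s t : Bool, ‖(η (k, r) (p, s) (q, t) : ℂ) *
      G3 k p q (par r k a) (par s p b) (par t q c)‖
      ≤ 108 * H * (ex K θ₁ θ₂ k p q * (‖par r k a‖ * ‖par s p b‖ * ‖par t q c‖))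
      + 108 * ((w k p + w p q + w q k) * (mu k p q * (‖par r k a‖ * ‖par s p b‖ * ‖par t q c‖))) := by
    intro r s t
    set M := ‖par r k a‖ * ‖par s p b‖ * ‖par t q c‖ with hM
    have hM0 : 0 ≤ M := by positivity
    have e4 : 0 ≤ 108 * H * (ex K θ₁ θ₂ k p q * M) := by positivity
    have e5 : 0 ≤ 108 * ((w k p + w p q + w q k) * (mu k p q * M)) := by positivity
    by_cases hmix : r = s ∧ s = t
    · obtain ⟨rfl, rfl⟩ := hmix
      rw [G3_homo h ha hb hc, mul_zero, norm_zero]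
      linarith
    · by_cases hcol : crossProduct k p = 0
      · rw [G3_col h hp hq hcol ha hb hc, mul_zero, norm_zero]; linarith
      · obtain ⟨c1, c2, c3⟩ := B3_mixed h ha hb hc hmix
        rw [norm_mul, Complex.norm_real, Real.norm_eq_abs]
        set x := |η (k, r) (p, s) (q, t)| with hx
        have hx0 : 0 ≤ x := abs_nonneg _
        have hxH : x ≤ H := hH _ _ _
        set G := ‖G3 k p q (par r k a) (par s p b) (par t q c)‖ with hG
        rw [← hM] at c1 c2 c3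
        rcases Alt3_mixed hη hX h hcol ha hb hc hmix with h5 | h5
        · have : x * G ≤ H * (108 * (ex K θ₁ θ₂ k p q * M)) := by gcongr
          linarith
        · have hGm : G ≤ 108 * (mu k p q * M) := by
            unfold mu
            rcases min_choice (kn p * kn q) (min (kn q * kn k) (kn k * kn p)) with h6 | h6
            · rw [h6]; exact c1
            · rw [h6]
              rcases min_choice (kn q * kn k) (kn k * kn p) with h7 | h7
              · rw [h7]; exact c2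
              · rw [h7]; exact c3
          have : x * G ≤ (w k p + w p q + w q k) * (108 * (mu k p q * M)) := by gcongr
          linarith
  have hs : ‖∑ r : Bool, ∑ s : Bool, ∑ t : Bool, (η (k, r) (p, s) (q, t) : ℂ) *
      G3 k p q (par r k a) (par s p b) (par t q c)‖
      ≤ ∑ r : Bool, ∑ s : Bool, ∑ t : Bool,
        (108 * H * (ex K θ₁ θ₂ k p q * (‖par r k a‖ * ‖par s p b‖ * ‖par t q c‖))
      + 108 * ((w k p + w p q + w q k) * (mu k p q * (‖par r k a‖ * ‖par s p b‖ * ‖par t q c‖)))) := by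
    refine (norm_sum_le _ _).trans (Finset.sum_le_sum fun r _ => ?_)
    refine (norm_sum_le _ _).trans (Finset.sum_le_sum fun s _ => ?_)
    exact (norm_sum_le _ _).trans (Finset.sum_le_sum fun t _ => key r s t)
  refine hs.trans (le_of_eq ?_)
  simp only [Fintype.sum_bool]
  unfold bt
  ring

lemma mu_rot (k p q : K3) : mu p q k = mu k p q := by
  unfold mu
  rw [min_comm (kn k * kn p) (kn p * kn q), ← min_assoc, min_comm (kn q * kn k) (kn p * kn q),
    min_assoc]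

lemma TE_rot (F : K3 → K3 → K3 → ℝ≥0∞) : TE (fun k p q => F p q k) = TE F := by
  have e2 : TE (fun k p q => F k q p) = TE F := TE_23 F
  rw [← e2]; exact TE_12 (fun k p q => F k q p)

lemma TE_rot' (F : K3 → K3 → K3 → ℝ≥0∞) : TE (fun k p q => F q k p) = TE F := by
  have e3 : TE (fun k p q => F p k q) = TE F := TE_12 F
  rw [← e3]; exact TE_23 (fun k p q => F p k q)

lemma TE_add (f g : K3 → K3 → K3 → ℝ≥0∞) : TE (fun k p q => f k p q + g k p q) = TE f + TE g := by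
  unfold TE
  exact ENNReal.tsum_add

/-- the three assignments have the same sum -/
lemma TW_three (hw : ∀ k p, 0 ≤ w k p) :
    ∑' z : K3 × K3, ENNReal.ofReal ((w z.1 z.2 + w z.2 (-z.1 - z.2) + w (-z.1 - z.2) z.1)
      * (mu z.1 z.2 (-z.1 - z.2) * (bt z.1 (U z.1) * bt z.2 (U z.2)
        * bt (-z.1 - z.2) (U (-z.1 - z.2))))) = 3 * TW w U := by
  set F : K3 → K3 → K3 → ℝ≥0∞ := fun a b c => ENNReal.ofReal (w a b) * (ENNReal.ofReal (mu a b c)
    * (b0 U a * b0 U b * b0 U c)) with hF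
  have h1 : TE (fun k p q => F k p q + F p q k + F q k p) = 3 * TW w U := by
    have h2 : TE F = TW w U := rfl
    rw [TE_add, TE_add, TE_rot F, TE_rot' F, h2]
    ring
  rw [← h1]
  unfold TE
  refine tsum_congr fun z => ?_
  have hb := fun k => bt_nonneg k (U k)
  have hm := mu_nonneg z.1 z.2 (-z.1 - z.2)
  have m1 : mu z.2 (-z.1 - z.2) z.1 = mu z.1 z.2 (-z.1 - z.2) := mu_rot _ _ _
  have m2 : mu (-z.1 - z.2) z.1 z.2 = mu z.1 z.2 (-z.1 - z.2) := (mu_rot _ _ _).symm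
  simp only [hF, m1, m2]
  rw [ENNReal.ofReal_mul (add_nonneg (add_nonneg (hw _ _) (hw _ _)) (hw _ _)),
    ENNReal.ofReal_mul hm, ENNReal.ofReal_mul (mul_nonneg (hb _) (hb _)), ENNReal.ofReal_mul (hb _),
    ENNReal.ofReal_add (add_nonneg (hw _ _) (hw _ _)) (hw _ _),
    ENNReal.ofReal_add (hw _ _) (hw _ _)]
  unfold b0
  ring

/-- The bound of the production of the norm of `H^{1/2}`. -/
theorem half_thin (hη : IsWeight η) {H : ℝ} (hH : ∀ a b c, |η a b c| ≤ H) (hU : RapV U)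
    (hdiv : ∀ k, dp (kc k) (U k) = 0) {K θ₁ θ₂ : ℝ} (hK : 0 ≤ K)
    (hθ₁ : 0 ≤ θ₁) (hθ₁' : θ₁ < 4 / 5) (hθ₂ : 0 ≤ θ₂) (hθ₂' : θ₂ < 6 / 7) (hw : DensTwo w A)
    (hX : StrongThin η w K θ₁ θ₂) {ε₁ ε₂ : ℝ} (hε₁ : 0 < ε₁) (hε₂ : 0 < ε₂) {R : ℝ}
    (hR : 1 ≤ R) :
    ‖T3s (fw η (fun k => kn k ^ 1) U)‖
      ≤ 559872 * Real.sqrt (A * Real.log (3 + R)) * (Real.sqrt (hn 2 U) * hn 2 U)
      + 2916 * H * (ck K θ₁ 1 1 * Real.sqrt (hn 0 U)
        * (ε₁ * hn 3 U + ε₁ ^ (-((1 + 5 / 2 * θ₁) / (2 - 5 / 2 * θ₁))) * hn 0 U)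
      + ck K θ₂ 2 0 * Real.sqrt (hn 0 U)
        * (ε₂ * hn 3 U + ε₂ ^ (-((7 / 2 * θ₂) / (3 - 7 / 2 * θ₂))) * hn 0 U))
      + 8957952 * (Real.sqrt A / Real.sqrt (Real.sqrt R)) * (Real.sqrt (hn 1 U) * hn 3 U) := by
  classical
  have hA := hw.nonneg
  have hH0 : 0 ≤ H := (abs_nonneg _).trans (hH (0, true) (0, true) (0, true))
  have h00 := hn_nonneg 0 U
  have h01 := hn_nonneg 1 U
  have h02 := hn_nonneg 2 U
  have h03 := hn_nonneg 3 U
  have h1 := T3s_sym (S3s_fw hH hU hdiv 1)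
  have e1 : (fun k p q => (fw η (fun k => kn k ^ 1) U k p q + fw η (fun k => kn k ^ 1) U k q p)
      + (fw η (fun k => kn k ^ 1) U p q k + fw η (fun k => kn k ^ 1) U p k q)
      + (fw η (fun k => kn k ^ 1) U q k p + fw η (fun k => kn k ^ 1) U q p k))
      = fun k p q => ∑ r : Bool, ∑ s : Bool, ∑ t : Bool, (η (k, r) (p, s) (q, t) : ℂ) *
      G3 k p q (par r k (U k)) (par s p (U p)) (par t q (U q)) := by
    funext k p q
    rw [fw_sym hη]
    simp only [pow_one]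
    rfl
  rw [e1] at h1
  set F1 : K3 → K3 → K3 → ℝ≥0∞ :=
    fun q k p => ENNReal.ofReal (l1 K θ₁ q k) * (b0 U q * b0 U k * b0 U p) with hF1
  set F2 : K3 → K3 → K3 → ℝ≥0∞ :=
    fun q k p => ENNReal.ofReal (l2 K θ₂ q k) * (b0 U q * b0 U k * b0 U p) with hF2
  have h2 : ∀ p : K3 × K3, ‖∑ r : Bool, ∑ s : Bool, ∑ t : Bool,
      (η (p.1, r) (p.2, s) (-p.1 - p.2, t) : ℂ) *
      G3 p.1 p.2 (-p.1 - p.2) (par r p.1 (U p.1)) (par s p.2 (U p.2))
        (par t (-p.1 - p.2) (U (-p.1 - p.2)))‖ₑ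
      ≤ ENNReal.ofReal (108 * H) * ENNReal.ofReal (ex K θ₁ θ₂ p.1 p.2 (-p.1 - p.2)
      * (bt p.1 (U p.1) * bt p.2 (U p.2) * bt (-p.1 - p.2) (U (-p.1 - p.2))))
        + ENNReal.ofReal 108 * ENNReal.ofReal ((w p.1 p.2 + w p.2 (-p.1 - p.2) + w (-p.1 - p.2) p.1)
      * (mu p.1 p.2 (-p.1 - p.2) * (bt p.1 (U p.1) * bt p.2 (U p.2)
        * bt (-p.1 - p.2) (U (-p.1 - p.2))))) := by
    intro p
    have h3 := Gw3_le hη hH hw.1 hX (k := p.1) (p := p.2) (q := -p.1 - p.2) (by abel) (hdiv p.1)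
      (hdiv p.2) (hdiv (-p.1 - p.2))
    have b1 := bt_nonneg p.1 (U p.1)
    have b2 := bt_nonneg p.2 (U p.2)
    have b3 := bt_nonneg (-p.1 - p.2) (U (-p.1 - p.2))
    have hex := ex_nonneg K θ₁ θ₂ p.1 p.2 (-p.1 - p.2)
    have hmu := mu_nonneg p.1 p.2 (-p.1 - p.2)
    have hW : 0 ≤ w p.1 p.2 + w p.2 (-p.1 - p.2) + w (-p.1 - p.2) p.1 :=
      add_nonneg (add_nonneg (hw.1 _ _) (hw.1 _ _)) (hw.1 _ _)
    rw [← ofReal_norm]
    refine (ENNReal.ofReal_le_ofReal h3).trans (le_of_eq ?_)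
    rw [ENNReal.ofReal_add (by positivity) (by positivity),
      ENNReal.ofReal_mul (p := 108) (by positivity),
      ENNReal.ofReal_mul (p := 108 * H) (by positivity)]
  have h4 : ‖(6 : ℂ) * T3s (fw η (fun k => kn k ^ 1) U)‖ₑ
      ≤ 6 * (ENNReal.ofReal (108 * H) * (TE F1 + TE F2) + ENNReal.ofReal 54 * TW w U) := by
    rw [h1]
    refine enorm_T3s_le.trans ((ENNReal.tsum_le_tsum h2).trans ?_)
    rw [ENNReal.tsum_add, ENNReal.tsum_mul_left, ENNReal.tsum_mul_left, sum_ex, TW_three hw.1]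
    have d2 : ENNReal.ofReal 108 = 2 * ENNReal.ofReal 54 := by
      rw [show (2 : ℝ≥0∞) = ENNReal.ofReal 2 by norm_num, ← ENNReal.ofReal_mul (by norm_num)]
      congr 1; norm_num
    rw [d2]
    refine le_of_eq ?_
    ring
  rw [enorm_mul, ← ofReal_norm, ← ofReal_norm] at h4
  have e6 : ENNReal.ofReal ‖(6 : ℂ)‖ = 6 := by norm_num
  rw [e6] at h4
  have h5 := (ENNReal.mul_le_mul_iff_right (by norm_num) (by norm_num)).1 h4
  have r1 : 0 < ε₁ ^ (-((1 + 5 / 2 * θ₁) / (2 - 5 / 2 * θ₁))) := Real.rpow_pos_of_pos hε₁ _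
  have r2 : 0 < ε₂ ^ (-((7 / 2 * θ₂) / (3 - 7 / 2 * θ₂))) := Real.rpow_pos_of_pos hε₂ _
  have t1 : TE F1 ≤ ENNReal.ofReal (27 * ck K θ₁ 1 1 * Real.sqrt (hn 0 U)
        * (ε₁ * hn 3 U + ε₁ ^ (-((1 + 5 / 2 * θ₁) / (2 - 5 / 2 * θ₁))) * hn 0 U)) := by
    have := low_term hU hK hθ₁ (by linarith) 1 1 (ρ := 1 + 5 / 2 * θ₁) (ε := ε₁)
      (by push_cast; ring) (by linarith) hε₁ (l := l1 K θ₁)
      (fun q k hn => by unfold l1; rw [if_neg hn])
      (fun q k hn => by unfold l1; rw [if_pos hn, pow_one, pow_one])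
    rw [show (3 : ℝ) - (1 + 5 / 2 * θ₁) = 2 - 5 / 2 * θ₁ by ring] at this
    exact this
  have t2 : TE F2 ≤ ENNReal.ofReal (27 * ck K θ₂ 2 0 * Real.sqrt (hn 0 U)
        * (ε₂ * hn 3 U + ε₂ ^ (-((7 / 2 * θ₂) / (3 - 7 / 2 * θ₂))) * hn 0 U)) :=
    low_term hU hK hθ₂ (by linarith) 2 0 (ρ := 7 / 2 * θ₂) (ε := ε₂)
      (by push_cast; ring) (by linarith) hε₂ (l := l2 K θ₂)
      (fun q k hn => by unfold l2; rw [if_neg hn])
      (fun q k hn => by unfold l2; rw [if_pos hn, pow_zero, mul_one])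
  have c1 := ck_nonneg K θ₁ 1 1
  have c2 := ck_nonneg K θ₂ 2 0
  have h6 : ENNReal.ofReal ‖T3s (fw η (fun k => kn k ^ 1) U)‖
      ≤ ENNReal.ofReal (108 * H * (27 * ck K θ₁ 1 1 * Real.sqrt (hn 0 U)
        * (ε₁ * hn 3 U + ε₁ ^ (-((1 + 5 / 2 * θ₁) / (2 - 5 / 2 * θ₁))) * hn 0 U)
        + 27 * ck K θ₂ 2 0 * Real.sqrt (hn 0 U)
        * (ε₂ * hn 3 U + ε₂ ^ (-((7 / 2 * θ₂) / (3 - 7 / 2 * θ₂))) * hn 0 U))
        + 54 * (10368 * Real.sqrt (A * Real.log (3 + R)) * (Real.sqrt (hn 2 U) * hn 2 U)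
        + 165888 * (Real.sqrt A / Real.sqrt (Real.sqrt R)) * (Real.sqrt (hn 1 U) * hn 3 U))) := by
    rw [ENNReal.ofReal_add (by positivity) (by positivity),
      ENNReal.ofReal_mul (p := 108 * H) (by positivity),
      ENNReal.ofReal_mul (p := 54) (by positivity),
      ENNReal.ofReal_add (p := 27 * ck K θ₁ 1 1 * Real.sqrt (hn 0 U)
        * (ε₁ * hn 3 U + ε₁ ^ (-((1 + 5 / 2 * θ₁) / (2 - 5 / 2 * θ₁))) * hn 0 U))
        (by positivity) (by positivity)]
    refine h5.trans ?_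
    gcongr
    exact TW_le hw hU hR
  refine ((ENNReal.ofReal_le_ofReal_iff (by positivity)).1 h6).trans (le_of_eq ?_)
  ring

end Pool.Agent.X96.DM
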