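import Pool.Agent.X96.DM.Uniq
import Pool.Agent.X96.HT.Evo3

/-!
Weight one: the Navier-Stokes equations.
-/

open MeasureTheory Set Filter Topology
open scoped ENNReal InnerProductSpace NNReal ContDiff
open H459R3.NS Pool.Agent.X96.HT

namespace Pool.Agent.X96.DM

variable {ν T : ℝ} {u : ℝ → V → V} {P : ℝ → V → ℝ}

/-- the sum of the helical parts is the projection onto the orthogonal complement of `k` -/
lemma hel_add_eq {k : K3} (hk : k ≠ 0) {a : C3} (ha : dp (kc k) a = 0) :
    hel true k a + hel false k a = a := by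
  rw [hel_eq_par true ha, hel_eq_par false ha]
  exact par_add hk a

lemma hel_kc (s : Bool) (k : K3) : hel s k (kc k) = 0 := by
  by_cases hk : k = 0
  · subst hk; exact hel_at_zero s _
  · have hn : (kn k : ℂ) ≠ 0 := by exact_mod_cast (kn_pos hk).ne'
    unfold hel
    rw [if_neg hk, kc_sq]
    funext j
    have : cp (kc k) (kc k) j = 0 := by
      fin_cases j <;> simp [cp] <;> ring
    rw [this]
    simp only [Pi.zero_apply]
    field_simp
    simp

lemma hel_sub (s : Bool) (k : K3) (a b : C3) : hel s k (a - b) = hel s k a - hel s k b := by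
  have h1 := hel_add s k (a - b) b
  rw [sub_add_cancel] at h1
  rw [h1, add_sub_cancel_right]

lemma bil_one {U : K3 → C3} (hdiv : ∀ k, dp (kc k) (U k) = 0) (h0 : U 0 = 0) (k p : K3) :
    bil (fun _ _ _ => 1) k p (k - p) (U p) (U (k - p))
      = hel true k ((2 * Real.pi * Complex.I * dp (kc (k - p)) (U p)) • U (k - p))
        + hel false k ((2 * Real.pi * Complex.I * dp (kc (k - p)) (U p)) • U (k - p)) := by
  unfold bil
  by_cases hp : p = 0
  · subst hp
    simp only [hel_at_zero, h0]
    have e : dp (kc (k - 0)) (0 : C3) = 0 := by unfold dp; simp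
    simp only [e, mul_zero, zero_smul]
    have e2 : ∀ r, hel r k (0 : C3) = 0 := fun r => by
      have := hel_smul r k 0 0
      simpa using this
    simp only [e2, smul_zero, Finset.sum_const_zero, add_zero]
  · by_cases hq : k - p = 0
    · rw [hq, h0]
      simp only [hel_at_zero, smul_zero]
      have e2 : ∀ r, hel r k (0 : C3) = 0 := fun r => by
        have := hel_smul r k 0 0
        simpa using this
      simp only [e2, smul_zero, Finset.sum_const_zero, add_zero]
    · have h1 := hel_add_eq hp (hdiv p)
      have h2 := hel_add_eq hq (hdiv (k - p))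
      simp only [Fintype.sum_bool, Complex.ofReal_one, one_smul]
      have key : ∀ r, hel r k ((2 * Real.pi * Complex.I * dp (kc (k - p)) (U p)) • U (k - p))
          = hel r k ((2 * Real.pi * Complex.I * dp (kc (k - p)) (hel true p (U p))) • hel true (k - p) (U (k - p)))
          + hel r k ((2 * Real.pi * Complex.I * dp (kc (k - p)) (hel true p (U p))) • hel false (k - p) (U (k - p)))
          + (hel r k ((2 * Real.pi * Complex.I * dp (kc (k - p)) (hel false p (U p))) • hel true (k - p) (U (k - p)))
          + hel r k ((2 * Real.pi * Complex.I * dp (kc (k - p)) (hel false p (U p))) • hel false (k - p) (U (k - p)))) := by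
        intro r
        rw [← hel_add, ← hel_add, ← hel_add, ← smul_add, ← smul_add, h2, ← add_smul]
        congr 2
        conv_lhs => rw [← h1, dp_add]
        ring
      rw [key true, key false]

/-- the helical projection as an additive map -/
noncomputable def helA (s : Bool) (k : K3) : C3 →+ C3 where
  toFun := hel s k
  map_zero' := by
    have := hel_smul s k 0 0
    simpa using this
  map_add' := hel_add s k

/-- the nonlinear term with weight one is the projection of the convection term -/
lemma nonl_one {v : V → V} (hv : ∀ i, SP (fun x => v x i))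
    (hdiv : ∀ k, dp (kc k) (co v k) = 0) (h0 : co v 0 = 0) (k : K3) :
    nonl (fun _ _ _ => 1) (co v) k
      = hel true k (fun i => fr (conv (fun i y => v y i) i) k)
        + hel false k (fun i => fr (conv (fun i y => v y i) i) k) := by
  have h1 : HasSum (fun l => (2 * Real.pi * Complex.I * dp (kc (k - l)) (co v l)) • co v (k - l))
      (fun i => fr (conv (fun i y => v y i) i) k) := by
    rw [Pi.hasSum]
    intro i
    have h2 := hasSum_conv hv i (-k)
    rw [neg_neg] at h2
    have e : (fun l => ((2 * Real.pi * Complex.I * dp (kc (k - l)) (co v l)) • co v (k - l)) i)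
        = fun l => 2 * Real.pi * Complex.I * (dp (kc (k - l)) (co v l) * co v (k - l) i) := by
      funext l
      simp only [Pi.smul_apply, smul_eq_mul]
      ring
    rw [e]
    exact h2
  have h3 := (h1.map (helA true k) (hel_continuous true k)).add
    (h1.map (helA false k) (hel_continuous false k))
  have e : (fun l => bil (fun _ _ _ => 1) k l (k - l) (co v l) (co v (k - l)))
      = fun l => (⇑(helA true k) ∘ fun l => (2 * Real.pi * Complex.I * dp (kc (k - l)) (co v l)) • co v (k - l)) l
        + (⇑(helA false k) ∘ fun l => (2 * Real.pi * Complex.I * dp (kc (k - l)) (co v l)) • co v (k - l)) l := by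
    funext l
    exact bil_one hdiv h0 k l
  unfold nonl
  rw [e]
  exact h3.tsum_eq

/-- the mean is constant -/
lemma eq_start {f : ℝ → ℂ} (hc : ContinuousOn f (Ico 0 T)) (hd : ∀ t ∈ Ioo 0 T, HasDerivAt f 0 t)
    {t : ℝ} (ht : t ∈ Ico 0 T) : f t = f 0 := by
  rcases eq_or_lt_of_le ht.1 with h | h
  · rw [← h]
  · have hsub : Icc 0 t ⊆ Ico 0 T := fun s hs => ⟨hs.1, hs.2.trans_lt ht.2⟩
    have hsub' : Ioo 0 t ⊆ Ioo 0 T := fun s hs => ⟨hs.1, hs.2.trans ht.2⟩
    have key : ∀ L : ℂ →L[ℝ] ℝ, L (f t) = L (f 0) := by
      intro L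
      obtain ⟨c, hc1, hc2⟩ := exists_hasDerivAt_eq_slope (fun s => L (f s)) (fun _ => L 0) h
        (L.continuous.comp_continuousOn (hc.mono hsub))
        (fun s hs => L.hasFDerivAt.comp_hasDerivAt s (hd s (hsub' hs)))
      rw [map_zero, sub_zero, eq_comm, div_eq_zero_iff] at hc2
      rcases hc2 with h1 | h1
      · linarith
      · exact absurd h1 h.ne'
    exact Complex.ext (key Complex.reCLM) (key Complex.imCLM)

/-- A smooth periodic solution of the Navier-Stokes equations with mean zero solves the equations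
with all weights one. -/
theorem isSolW_one (h : IsSol ν T u P) (h0 : ∀ i, ∫ x in cube, u 0 x i = 0) :
    IsSolW (fun _ _ _ => 1) ν (Ico 0 T) u := by
  have hcod : ∀ t ∈ Ioo 0 T, ∀ k i, HasDerivAt (fun s => co (u s) k i) (cod u t k i) t :=
    fun t ht k i => hasDerivAt_fr (f := fun s y => u s y i) (h.smooth_c i) ht k
  have hcont : ∀ k i, ContinuousOn (fun s => co (u s) k i) (Ico 0 T) := fun k i =>
    continuousOn_fr (f := fun s y => u s y i) (h.smooth_c i) k
  -- the mean
  have hconv0 : ∀ t ∈ Ico 0 T, ∀ i, fr (conv (fun i y => u t y i) i) 0 = 0 := by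
    intro t ht i
    have h1 := hasSum_conv (h.sp ht) i 0
    rw [neg_zero] at h1
    refine h1.unique ?_
    have h2 : (fun l => 2 * Real.pi * Complex.I * (dp (kc (0 - l)) (co (u t) l) * co (u t) (0 - l) i))
        = fun _ => 0 := by
      funext l
      have h3 := dp_co (h.sp ht) (h.divfree t ht) l
      have h4 : dp (kc (0 - l)) (co (u t) l) = 0 := by
        rw [zero_sub, kc_neg]
        unfold dp at h3 ⊢
        simp only [Pi.neg_apply]
        linear_combination -h3
      rw [h4]; ring
    rw [h2]
    exact hasSum_zero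
  have hmean0 : ∀ t ∈ Ico 0 T, co (u t) 0 = 0 := by
    intro t ht
    funext i
    have h1 : co (u t) 0 i = co (u 0) 0 i := by
      refine eq_start (hcont 0 i) (fun s hs => ?_) ht
      refine (hcod s hs 0 i).congr_deriv ?_
      rw [cod_eq h hs, hconv0 s ⟨hs.1.le, hs.2⟩, kn_zero]
      simp
    rw [h1]
    unfold co fr fc
    have e : ∀ x : V, ee (-0) x * ((u 0 x i : ℝ) : ℂ) = ((u 0 x i : ℝ) : ℂ) := fun x => by
      rw [neg_zero, ee_zero, one_mul]
    simp_rw [e]
    have e2 : ∫ x in cube, ((u 0 x i : ℝ) : ℂ) = ((∫ x in cube, u 0 x i : ℝ) : ℂ) :=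
      integral_complex_ofReal
    rw [e2, h0]
    simp
  refine ⟨h.smooth_u, h.per_u, h.divfree, fun t ht ht0 k i => ?_⟩
  have ht' : t ∈ Ioo 0 T := ⟨ht0, ht.2⟩
  refine (hcod t ht' k i).congr_deriv ?_
  have hdco := dp_co (h.sp ht) (h.divfree t ht)
  rw [nonl_one (h.sp ht) hdco (hmean0 t ht) k]
  -- the equation
  have hcodv : cod u t k = (-(ν * ((2 * Real.pi) ^ 2 * kn k ^ 2) : ℝ) : ℂ) • co (u t) k
      - (fun i => fr (conv (fun i y => u t y i) i) k)
      - (2 * Real.pi * Complex.I * fr (P t) k) • kc k := by
    funext j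
    rw [cod_eq h ht']
    simp only [Pi.sub_apply, Pi.smul_apply, smul_eq_mul, kc]
    push_cast
    ring
  by_cases hk : k = 0
  · subst hk
    have h1 := congrFun hcodv i
    rw [h1]
    simp only [Pi.sub_apply, Pi.smul_apply, hconv0 t ht, hmean0 t ht, kn_zero, hel_at_zero]
    simp [kc]
  · have hdcod : dp (kc k) (cod u t k) = 0 := by
      have h1 : HasDerivAt (fun s => dp (kc k) (co (u s) k)) (dp (kc k) (cod u t k)) t := by
        unfold dp
        exact (((hcod t ht' k 0).const_mul _).add ((hcod t ht' k 1).const_mul _)).add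
          ((hcod t ht' k 2).const_mul _)
      have h2 : HasDerivAt (fun s => dp (kc k) (co (u s) k)) 0 t := by
        refine (hasDerivAt_const t (0 : ℂ)).congr_of_eventuallyEq ?_
        filter_upwards [Ioo_mem_nhds ht'.1 ht'.2] with s hs
        exact dp_co (h.sp ⟨hs.1.le, hs.2⟩) (h.divfree s ⟨hs.1.le, hs.2⟩) k
      exact h1.unique h2
    have h3 : ∀ s, hel s k (cod u t k)
        = (-(ν * ((2 * Real.pi) ^ 2 * kn k ^ 2) : ℝ) : ℂ) • hel s k (co (u t) k)
          - hel s k (fun i => fr (conv (fun i y => u t y i) i) k) := by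
      intro s
      rw [hcodv, hel_sub, hel_sub, hel_smul, hel_smul, hel_kc, smul_zero, sub_zero]
    have h4 : cod u t k = (-(ν * ((2 * Real.pi) ^ 2 * kn k ^ 2) : ℝ) : ℂ) • co (u t) k
        - (hel true k (fun i => fr (conv (fun i y => u t y i) i) k)
          + hel false k (fun i => fr (conv (fun i y => u t y i) i) k)) := by
      rw [← hel_add_eq hk hdcod, h3, h3]
      nth_rw 3 [← hel_add_eq hk (hdco k)]
      rw [smul_add]
      abel
    have h5 := congrFun h4 i
    rw [h5]
    simp only [Pi.sub_apply, Pi.smul_apply, smul_eq_mul]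
    push_cast
    ring

end Pool.Agent.X96.DM
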