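import Pool.Agent.X96.DM.Sol
import Pool.Agent.X96.DM.One
import Pool.Agent.X96.DM.Est4

/-!
Global regularity for weighted triads.
-/

open MeasureTheory Set Filter Topology
open scoped ContDiff
open H459R3.NS Pool.Agent.X96.HT

namespace Pool.Agent.X96.DM

lemma pow_bound {B : ℕ → ℝ} {x : C3} {k : K3} (h : ∀ m, kn k ^ m * ‖x‖ ^ 2 ≤ B m) (n : ℕ) :
    kn k ^ n * ‖x‖ ≤ Real.sqrt (B (2 * n)) := by
  refine Real.le_sqrt_of_sq_le (le_trans (le_of_eq ?_) (h (2 * n)))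
  rw [mul_pow, ← pow_mul, mul_comm n 2]

/-- Global existence and uniqueness from the bounds of the Galerkin approximations. -/
theorem main {η : Md → Md → Md → ℝ} (hη : IsWeight η) {ν : ℝ} (hν : 0 < ν)
    (hap : APr η (ν * (2 * Real.pi) ^ 2)) {u₀ : V → V} (hs : ContDiff ℝ ∞ u₀) (hper : Per u₀)
    (hdiv : ∀ x, ∑ i, pd i (fun y => u₀ y i) x = 0) (hmean : ∀ i, ∫ x in cube, u₀ x i = 0) :
    ∃ u : ℝ → V → V, IsSolW η ν (Ici 0) u ∧ u 0 = u₀ ∧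
      (∀ n : ℕ, ∃ B : ℝ, ∀ t, 0 ≤ t → ∀ k, kn k ^ n * ‖co (u t) k‖ ≤ B) ∧
      ∀ (T : ℝ) (v : ℝ → V → V), IsSolW η ν (Ico 0 T) v → v 0 = u₀ →
        ∀ t ∈ Ico 0 T, v t = u t := by
  obtain ⟨u, B, hu, hu0, hB⟩ := exists_sol hη hν hap hs hper hdiv hmean
  refine ⟨u, hu, hu0, fun n => ⟨_, fun t _ k => pow_bound (hB t k) n⟩, fun T v hv hv0 t ht => ?_⟩
  exact uniq hη hν hv (hu.mono fun s hs => hs.1) (hv0.trans hu0.symm) t ht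

/-- weights of density two -/
theorem main_thin {η : Md → Md → Md → ℝ} (hη : IsWeight η) {w : K3 → K3 → ℝ} {K θ₁ θ₂ A : ℝ}
    (hK : 0 ≤ K) (hθ₁ : 0 ≤ θ₁) (hθ₁' : θ₁ < 4 / 5) (hθ₂ : 0 ≤ θ₂) (hθ₂' : θ₂ < 6 / 7)
    (hw : DensTwo w A) (hX : StrongThin η w K θ₁ θ₂) {ν : ℝ} (hν : 0 < ν)
    {u₀ : V → V} (hs : ContDiff ℝ ∞ u₀) (hper : Per u₀)
    (hdiv : ∀ x, ∑ i, pd i (fun y => u₀ y i) x = 0) (hmean : ∀ i, ∫ x in cube, u₀ x i = 0) :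
    ∃ u : ℝ → V → V, IsSolW η ν (Ici 0) u ∧ u 0 = u₀ ∧
      (∀ n : ℕ, ∃ B : ℝ, ∀ t, 0 ≤ t → ∀ k, kn k ^ n * ‖co (u t) k‖ ≤ B) ∧
      ∀ (T : ℝ) (v : ℝ → V → V), IsSolW η ν (Ico 0 T) v → v 0 = u₀ →
        ∀ t ∈ Ico 0 T, v t = u t :=
  main hη hν (gal_bound3 hη hK hθ₁ hθ₁' hθ₂ hθ₂' hw hX (by positivity)) hs hper hdiv hmean

end Pool.Agent.X96.DM
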