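import Pool.Agent.X96.DM.Half

/-!
The production of the norm of `H^{1/2}` with weights: the sum over the triads.
-/

open MeasureTheory Set Filter Topology
open scoped ENNReal
open H459R3.NS Pool.Agent.X96.HT

namespace Pool.Agent.X96.DM

variable {η : Md → Md → Md → ℝ} {U : K3 → C3} {A : ℝ} {Q : Set K3}

lemma S3s_fw {H : ℝ} (hH : ∀ a b c, |η a b c| ≤ H) (hU : RapV U)
    (hdiv : ∀ k, dp (kc k) (U k) = 0) (m : ℕ) : S3s (fw η (fun k => kn k ^ m) U) := by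
  have hH0 : 0 ≤ H := (abs_nonneg _).trans (hH (0, true) (0, true) (0, true))
  have h0 : Summable fun k => ‖U k‖ := by simpa using hU 0
  have h1 : Summable fun k => kn k ^ (m + 1) * ‖U k‖ := hU (m + 1)
  have hM : ∀ k, ‖U k‖ ≤ ∑' m, ‖U m‖ := fun k => h0.le_tsum k fun _ _ => norm_nonneg _
  refine Summable.of_norm ?_
  refine Summable.of_nonneg_of_le (fun p => norm_nonneg _) (fun p => ?_)
    ((Summable.mul_of_nonneg h1 h0 (fun k => mul_nonneg (pow_nonneg (kn_nonneg _) _)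
      (norm_nonneg _)) (fun k => norm_nonneg _)).mul_left (243 * H * ∑' m, ‖U m‖))
  have hk := kn_nonneg p.1
  have h2 := norm_fw_le (w := fun k => kn k ^ m) hH (k := p.1) (p := p.2) (q := -p.1 - p.2)
    (by abel) (hdiv p.2)
  have e1 := bt_le p.1 (U p.1)
  have e2 := bt_le p.2 (U p.2)
  have e3 := bt_le (-p.1 - p.2) (U (-p.1 - p.2))
  have e4 := hM (-p.1 - p.2)
  have b1 := bt_nonneg p.1 (U p.1)
  have b2 := bt_nonneg p.2 (U p.2)
  have b3 := bt_nonneg (-p.1 - p.2) (U (-p.1 - p.2))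
  refine h2.trans ?_
  rw [abs_of_nonneg (pow_nonneg hk m)]
  calc 9 * H * (kn p.1 ^ m * kn p.1) * (bt p.1 (U p.1) * bt p.2 (U p.2)
        * bt (-p.1 - p.2) (U (-p.1 - p.2)))
      ≤ 9 * H * (kn p.1 ^ m * kn p.1) * ((3 * ‖U p.1‖) * (3 * ‖U p.2‖)
        * (3 * ∑' m, ‖U m‖)) := by
        gcongr
        exact e3.trans (by gcongr)
    _ = _ := by ring

/-- the energy is conserved by the nonlinear term -/
lemma T3s_energy (hη : IsWeight η) (hU : RapV U) (hdiv : ∀ k, dp (kc k) (U k) = 0) :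
    T3s (fw η (fun k => kn k ^ 0) U) = 0 := by
  obtain ⟨H, hH⟩ := hη.bdd
  have h1 := T3s_sym (S3s_fw hH hU hdiv 0)
  have e : (fun k p q => (fw η (fun k => kn k ^ 0) U k p q + fw η (fun k => kn k ^ 0) U k q p)
      + (fw η (fun k => kn k ^ 0) U p q k + fw η (fun k => kn k ^ 0) U p k q)
      + (fw η (fun k => kn k ^ 0) U q k p + fw η (fun k => kn k ^ 0) U q p k))
      = fun k p q => ∑ r : Bool, ∑ s : Bool, ∑ t : Bool, (η (k, r) (p, s) (q, t) : ℂ) *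
      Gs ((kn k ^ 0 : ℝ) : ℂ) ((kn p ^ 0 : ℝ) : ℂ) ((kn q ^ 0 : ℝ) : ℂ) (kc k) (kc p) (kc q)
        (par r k (U k)) (par s p (U p)) (par t q (U q)) := by
    funext k p q; exact fw_sym hη _ U k p q
  rw [e] at h1
  have h2 : T3s (fun k p q => ∑ r : Bool, ∑ s : Bool, ∑ t : Bool,
      (η (k, r) (p, s) (q, t) : ℂ) *
      Gs ((kn k ^ 0 : ℝ) : ℂ) ((kn p ^ 0 : ℝ) : ℂ) ((kn q ^ 0 : ℝ) : ℂ) (kc k) (kc p) (kc q)
        (par r k (U k)) (par s p (U p)) (par t q (U q))) = 0 := by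
    unfold T3s
    have : ∀ x : K3 × K3, (∑ r : Bool, ∑ s : Bool, ∑ t : Bool,
      (η (x.1, r) (x.2, s) (-x.1 - x.2, t) : ℂ) *
      Gs ((kn x.1 ^ 0 : ℝ) : ℂ) ((kn x.2 ^ 0 : ℝ) : ℂ) ((kn (-x.1 - x.2) ^ 0 : ℝ) : ℂ)
        (kc x.1) (kc x.2) (kc (-x.1 - x.2))
        (par r x.1 (U x.1)) (par s x.2 (U x.2)) (par t (-x.1 - x.2) (U (-x.1 - x.2)))) = 0 := by
      intro x
      refine Finset.sum_eq_zero fun r _ => Finset.sum_eq_zero fun s _ =>
        Finset.sum_eq_zero fun t _ => ?_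
      rw [Gs_eq (kc_sum (by abel)) (dp_par r (hdiv _)) (dp_par s (hdiv _)) (dp_par t (hdiv _))
        (hl_par r (hdiv _)) (hl_par s (hdiv _)) (hl_par t (hdiv _))]
      push_cast
      ring
    simp_rw [this]
    exact tsum_zero
  rw [h2] at h1
  exact (mul_eq_zero.1 h1).resolve_left (by norm_num)

/-- the factor with the power `3/4` -/
noncomputable def b34 (U : K3 → C3) (k : K3) : ℝ≥0∞ := ENNReal.ofReal (k34 k * bt k (U k))

/-- the factor with a power -/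
noncomputable def bp (α : ℝ) (U : K3 → C3) (k : K3) : ℝ≥0∞ :=
  ENNReal.ofReal (kn k ^ α * bt k (U k))

lemma bp_sq (hU : RapV U) {α : ℝ} {m : ℕ} (hα : 2 * α = m) (hα0 : 0 < α) :
    ∑' k, bp α U k ^ 2 ≤ ENNReal.ofReal (9 * hn m U) := by
  have hterm : ∀ k, (kn k ^ α * bt k (U k)) ^ 2 ≤ 9 * (kn k ^ m * ∑ i, ‖U k i‖ ^ 2) := by
    intro k
    have h1 := bt_sq_le k (U k)
    have h0 := kn_nonneg k
    have e : (kn k ^ α) ^ 2 = kn k ^ m := by
      rw [← Real.rpow_natCast, ← Real.rpow_mul h0, ← Real.rpow_natCast, ← hα]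
      congr 1
      push_cast
      ring
    calc (kn k ^ α * bt k (U k)) ^ 2 = kn k ^ m * bt k (U k) ^ 2 := by rw [mul_pow, e]
      _ ≤ kn k ^ m * (9 * ∑ i, ‖U k i‖ ^ 2) := by gcongr
      _ = _ := by ring
  have hs : Summable fun k => (kn k ^ α * bt k (U k)) ^ 2 :=
    Summable.of_nonneg_of_le (fun k => sq_nonneg _) hterm ((hU.hn_summable m).mul_left 9)
  have e : (∑' k, bp α U k ^ 2) = ENNReal.ofReal (∑' k, (kn k ^ α * bt k (U k)) ^ 2) := by
    rw [ENNReal.ofReal_tsum_of_nonneg (fun k => sq_nonneg _) hs]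
    refine tsum_congr fun k => ?_
    unfold bp
    rw [ENNReal.ofReal_pow (mul_nonneg (Real.rpow_nonneg (kn_nonneg k) _) (bt_nonneg _ _))]
  rw [e]
  refine ENNReal.ofReal_le_ofReal ((hs.tsum_le_tsum hterm
    ((hU.hn_summable m).mul_left 9)).trans (le_of_eq ?_))
  rw [tsum_mul_left]
  rfl

lemma ofReal_sqrt_half {x : ℝ} (hx : 0 ≤ x) :
    ENNReal.ofReal x ^ (1 / 2 : ℝ) = ENNReal.ofReal (Real.sqrt x) := by
  rw [ENNReal.ofReal_rpow_of_nonneg hx (by norm_num), ← Real.sqrt_eq_rpow]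

/-- `∑ |k|^{3/2} |U|² ≤ 9 (Z Y)^{1/2}` -/
lemma b34_sq (hU : RapV U) :
    ∑' k, b34 U k ^ 2 ≤ ENNReal.ofReal (9 * Real.sqrt (hn 1 U * hn 2 U)) := by
  have h1 := hn_nonneg 1 U
  have h2 := hn_nonneg 2 U
  have e : ∀ k, b34 U k ^ 2 = bp (1 / 2) U k * bp 1 U k := by
    intro k
    have hk := kn_nonneg k
    have hb := bt_nonneg k (U k)
    unfold b34 bp k34
    rw [← ENNReal.ofReal_pow (mul_nonneg (Real.rpow_nonneg hk _) hb),
      ← ENNReal.ofReal_mul (mul_nonneg (Real.rpow_nonneg hk _) hb)]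
    congr 1
    have e1 : (kn k ^ (3 / 4 : ℝ)) ^ 2 = kn k ^ (1 / 2 : ℝ) * kn k ^ (1 : ℝ) := by
      rw [← Real.rpow_natCast, ← Real.rpow_mul hk,
        ← Real.rpow_add_of_nonneg hk (by norm_num) (by norm_num)]
      norm_num
    rw [mul_pow, e1]
    ring
  simp_rw [e]
  refine (enn_cs _ _).trans ?_
  calc (∑' k, bp (1 / 2) U k ^ 2) ^ (1 / 2 : ℝ) * (∑' k, bp 1 U k ^ 2) ^ (1 / 2 : ℝ)
      ≤ ENNReal.ofReal (9 * hn 1 U) ^ (1 / 2 : ℝ) * ENNReal.ofReal (9 * hn 2 U) ^ (1 / 2 : ℝ) := by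
        gcongr
        · exact bp_sq hU (m := 1) (by norm_num) (by norm_num)
        · exact bp_sq hU (m := 2) (by norm_num) (by norm_num)
    _ = _ := by
        rw [ofReal_sqrt_half (by positivity), ofReal_sqrt_half (by positivity),
          ← ENNReal.ofReal_mul (Real.sqrt_nonneg _)]
        congr 1
        rw [← Real.sqrt_mul (by positivity), show 9 * hn 1 U * (9 * hn 2 U)
          = 9 ^ 2 * (hn 1 U * hn 2 U) by ring, Real.sqrt_mul (by norm_num),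
          Real.sqrt_sq (by norm_num)]

lemma sum_N_b34 (hU : RapV U) :
    ∑' k, N k * b34 U k ^ 2 ≤ ENNReal.ofReal (9 * Real.sqrt (hn 2 U * hn 3 U)) := by
  have h1 := hn_nonneg 2 U
  have h2 := hn_nonneg 3 U
  have e : ∀ k, (N k : ℝ≥0∞) * b34 U k ^ 2 ≤ bp 1 U k * bp (3 / 2) U k := by
    intro k
    have hk := kn_nonneg k
    have hb := bt_nonneg k (U k)
    have hN : (N k : ℝ≥0∞) ≤ ENNReal.ofReal (kn k) := by
      rw [← ENNReal.ofReal_natCast]
      exact ENNReal.ofReal_le_ofReal (N_le_kn k)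
    unfold b34 bp k34
    rw [← ENNReal.ofReal_pow (mul_nonneg (Real.rpow_nonneg hk _) hb),
      ← ENNReal.ofReal_mul (mul_nonneg (Real.rpow_nonneg hk _) hb)]
    refine (mul_le_mul_left hN _).trans ?_
    rw [← ENNReal.ofReal_mul hk]
    refine ENNReal.ofReal_le_ofReal (le_of_eq ?_)
    have e1 : kn k * (kn k ^ (3 / 4 : ℝ)) ^ 2 = kn k ^ (1 : ℝ) * kn k ^ (3 / 2 : ℝ) := by
      rw [← Real.rpow_natCast, ← Real.rpow_mul hk, Real.rpow_one]
      norm_num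
    rw [mul_pow]
    linear_combination (bt k (U k) ^ 2) * e1
  refine (ENNReal.tsum_le_tsum e).trans ((enn_cs _ _).trans ?_)
  calc (∑' k, bp 1 U k ^ 2) ^ (1 / 2 : ℝ) * (∑' k, bp (3 / 2) U k ^ 2) ^ (1 / 2 : ℝ)
      ≤ ENNReal.ofReal (9 * hn 2 U) ^ (1 / 2 : ℝ) * ENNReal.ofReal (9 * hn 3 U) ^ (1 / 2 : ℝ) := by
        gcongr
        · exact bp_sq hU (m := 2) (by norm_num) (by norm_num)
        · exact bp_sq hU (m := 3) (by norm_num) (by norm_num)
    _ = _ := by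
        rw [ofReal_sqrt_half (by positivity), ofReal_sqrt_half (by positivity),
          ← ENNReal.ofReal_mul (Real.sqrt_nonneg _)]
        congr 1
        rw [← Real.sqrt_mul (by positivity), show 9 * hn 2 U * (9 * hn 3 U)
          = 9 ^ 2 * (hn 2 U * hn 3 U) by ring, Real.sqrt_mul (by norm_num),
          Real.sqrt_sq (by norm_num)]

lemma b0_le_be (U : K3 → C3) (k : K3) : b0 U k ≤ be U k * ENNReal.ofReal (1 / (N k : ℝ)) := by
  by_cases hk : k = 0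
  · subst hk; rw [b0_zero]; exact bot_le
  · have hN : 0 < (N k : ℝ) := by
      exact_mod_cast Nat.pos_of_ne_zero fun h => hk (N_eq_zero.1 h)
    have hb := bt_nonneg k (U k)
    have hk0 := kn_nonneg k
    unfold b0 be
    rw [← ENNReal.ofReal_mul (mul_nonneg hk0 hb)]
    refine ENNReal.ofReal_le_ofReal ?_
    rw [mul_one_div, le_div_iff₀ hN]
    have := N_le_kn k
    nlinarith

/-- any triad sum with one factor in `H¹` -/
lemma tz_b0 (U : K3 → C3) (β : K3 → ℝ≥0∞) (hU : RapV U) : tz (b0 U) β β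
    ≤ ENNReal.ofReal (6 * Real.sqrt (hn 2 U))
      * (e2 β * (ENNReal.ofReal 162 * ∑' q, N q * β q ^ 2) ^ (1 / 2 : ℝ)) := by
  have h := tz_weight (ξ := b0 U) (β := β) (η := be U)
    (v := fun k => ENNReal.ofReal (1 / (N k : ℝ))) (b0_zero U) (b0_le_be U) cube_enn
  refine h.trans ?_
  calc 2 * (e2 (be U) * e2 β * (ENNReal.ofReal 162 * ∑' q, N q * β q ^ 2) ^ (1 / 2 : ℝ))
      ≤ 2 * (ENNReal.ofReal (3 * Real.sqrt (hn 2 U)) * e2 β
        * (ENNReal.ofReal 162 * ∑' q, N q * β q ^ 2) ^ (1 / 2 : ℝ)) := by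
        gcongr
        exact e2_be hU
    _ = _ := by
        rw [show (2 : ℝ≥0∞) = ENNReal.ofReal 2 by norm_num,
          show 6 * Real.sqrt (hn 2 U) = 2 * (3 * Real.sqrt (hn 2 U)) by ring,
          ENNReal.ofReal_mul (by norm_num : (0 : ℝ) ≤ 2)]
        ring

/-- `54 √162 Y (X Z)^{1/4} ≤ 700 (X Y Z)^{1/2}` -/
lemma tz_small (hU : RapV U) : tz (b0 U) (b34 U) (b34 U)
    ≤ ENNReal.ofReal (700 * Real.sqrt (hn 3 U * hn 2 U * hn 1 U)) := by
  have hX := hn_nonneg 3 U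
  have hY := hn_nonneg 2 U
  have hZ := hn_nonneg 1 U
  refine (tz_b0 U (b34 U) hU).trans ?_
  have h1 : e2 (b34 U) ≤ ENNReal.ofReal (Real.sqrt (9 * Real.sqrt (hn 1 U * hn 2 U))) := by
    unfold e2
    rw [← ofReal_sqrt_half (by positivity)]
    gcongr
    exact b34_sq hU
  have h2 : (ENNReal.ofReal 162 * ∑' q, N q * b34 U q ^ 2) ^ (1 / 2 : ℝ)
      ≤ ENNReal.ofReal (Real.sqrt (162 * (9 * Real.sqrt (hn 2 U * hn 3 U)))) := by
    rw [← ofReal_sqrt_half (by positivity), ENNReal.ofReal_mul (by norm_num)]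
    gcongr
    exact sum_N_b34 hU
  calc _ ≤ ENNReal.ofReal (6 * Real.sqrt (hn 2 U))
        * (ENNReal.ofReal (Real.sqrt (9 * Real.sqrt (hn 1 U * hn 2 U)))
        * ENNReal.ofReal (Real.sqrt (162 * (9 * Real.sqrt (hn 2 U * hn 3 U))))) := by gcongr
    _ = ENNReal.ofReal (6 * Real.sqrt (hn 2 U) * (Real.sqrt (9 * Real.sqrt (hn 1 U * hn 2 U))
        * Real.sqrt (162 * (9 * Real.sqrt (hn 2 U * hn 3 U))))) := by
        rw [ENNReal.ofReal_mul (p := 6 * Real.sqrt (hn 2 U)) (by positivity),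
          ENNReal.ofReal_mul (p := Real.sqrt (9 * Real.sqrt (hn 1 U * hn 2 U))) (by positivity)]
    _ ≤ _ := by
        refine ENNReal.ofReal_le_ofReal ?_
        set X := hn 3 U
        set Y := hn 2 U
        set Z := hn 1 U
        have hi : Y ≤ Real.sqrt (X * Z) := Real.le_sqrt_of_sq_le (hn_interp hU)
        have e1 : Real.sqrt (9 * Real.sqrt (Z * Y)) * Real.sqrt (162 * (9 * Real.sqrt (Y * X)))
            = Real.sqrt (13122 * (Y * Real.sqrt (X * Z))) := by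
          rw [← Real.sqrt_mul (by positivity)]
          congr 1
          have : Real.sqrt (Z * Y) * Real.sqrt (Y * X) = Y * Real.sqrt (X * Z) := by
            rw [← Real.sqrt_mul (by positivity), show Z * Y * (Y * X) = Y ^ 2 * (X * Z) by ring,
              Real.sqrt_mul (by positivity), Real.sqrt_sq hY]
          linear_combination 13122 * this
        rw [e1]
        have e2' : Real.sqrt (13122 * (Y * Real.sqrt (X * Z)))
            ≤ Real.sqrt (13122 * (X * Z)) := by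
          refine Real.sqrt_le_sqrt ?_
          have h3 : Y * Real.sqrt (X * Z) ≤ Real.sqrt (X * Z) * Real.sqrt (X * Z) := by gcongr
          rw [Real.mul_self_sqrt (by positivity)] at h3
          linarith
        have e3 : Real.sqrt (13122 * (X * Z)) ≤ 115 * Real.sqrt (X * Z) := by
          rw [Real.sqrt_mul (by norm_num)]
          gcongr
          rw [Real.sqrt_le_left (by norm_num)]
          norm_num
        calc 6 * Real.sqrt Y * Real.sqrt (13122 * (Y * Real.sqrt (X * Z)))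
            ≤ 6 * Real.sqrt Y * (115 * Real.sqrt (X * Z)) := by
              gcongr
              exact e2'.trans e3
          _ = 690 * Real.sqrt (X * Y * Z) := by
              rw [show X * Y * Z = Y * (X * Z) by ring, Real.sqrt_mul hY]
              ring
          _ ≤ _ := by
              gcongr
              norm_num

/-- The bound of the production of the norm of `H^{1/2}`. -/
theorem half_prod (hη : IsWeight η) {H : ℝ} (hH : ∀ a b c, |η a b c| ≤ H) (hU : RapV U)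
    (hdiv : ∀ k, dp (kc k) (U k) = 0) {K θ₁ θ₂ C : ℝ} (hK : 0 ≤ K) (hC : 0 ≤ C)
    (hθ₁ : 0 ≤ θ₁) (hθ₁' : θ₁ < 4 / 5) (hθ₂ : 0 ≤ θ₂) (hθ₂' : θ₂ < 6 / 7) (hQ : Planar A Q)
    (hX : StrongSmall η Q K θ₁ θ₂ C) {ε₁ ε₂ : ℝ} (hε₁ : 0 < ε₁) (hε₂ : 0 < ε₂) :
    ‖T3s (fw η (fun k => kn k ^ 1) U)‖
      ≤ (5832 * H * Real.sqrt A + 12600 * C) * Real.sqrt (hn 3 U * hn 2 U * hn 1 U)
      + 2916 * H * (ck K θ₁ 1 1 * Real.sqrt (hn 0 U)
        * (ε₁ * hn 3 U + ε₁ ^ (-((1 + 5 / 2 * θ₁) / (2 - 5 / 2 * θ₁))) * hn 0 U)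
      + ck K θ₂ 2 0 * Real.sqrt (hn 0 U)
        * (ε₂ * hn 3 U + ε₂ ^ (-((7 / 2 * θ₂) / (3 - 7 / 2 * θ₂))) * hn 0 U)) := by
  classical
  have hH0 : 0 ≤ H := (abs_nonneg _).trans (hH (0, true) (0, true) (0, true))
  have h00 := hn_nonneg 0 U
  have h01 := hn_nonneg 1 U
  have h02 := hn_nonneg 2 U
  have h03 := hn_nonneg 3 U
  have h1 := T3s_sym (S3s_fw hH hU hdiv 1)
  have e1 : (fun k p q => (fw η (fun k => kn k ^ 1) U k p q + fw η (fun k => kn k ^ 1) U k q p)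
      + (fw η (fun k => kn k ^ 1) U p q k + fw η (fun k => kn k ^ 1) U p k q)
      + (fw η (fun k => kn k ^ 1) U q k p + fw η (fun k => kn k ^ 1) U q p k))
      = fun k p q => ∑ r : Bool, ∑ s : Bool, ∑ t : Bool, (η (k, r) (p, s) (q, t) : ℂ) *
      G3 k p q (par r k (U k)) (par s p (U p)) (par t q (U q)) := by
    funext k p q
    rw [fw_sym hη]
    simp only [pow_one]
    rfl
  rw [e1] at h1
  set F1 : K3 → K3 → K3 → ℝ≥0∞ :=
    fun q k p => ENNReal.ofReal (l1 K θ₁ q k) * (b0 U q * b0 U k * b0 U p) with hF1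
  set F2 : K3 → K3 → K3 → ℝ≥0∞ :=
    fun q k p => ENNReal.ofReal (l2 K θ₂ q k) * (b0 U q * b0 U k * b0 U p) with hF2
  have h2 : ∀ p : K3 × K3, ‖∑ r : Bool, ∑ s : Bool, ∑ t : Bool,
      (η (p.1, r) (p.2, s) (-p.1 - p.2, t) : ℂ) *
      G3 p.1 p.2 (-p.1 - p.2) (par r p.1 (U p.1)) (par s p.2 (U p.2))
        (par t (-p.1 - p.2) (U (-p.1 - p.2)))‖ₑ
      ≤ ENNReal.ofReal (108 * H) * (xq Q U p.1 * be U p.2 * be U (-p.1 - p.2)
        + be U p.1 * xq Q U p.2 * be U (-p.1 - p.2)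
        + be U p.1 * be U p.2 * xq Q U (-p.1 - p.2))
        + ENNReal.ofReal (108 * H) * ENNReal.ofReal (ex K θ₁ θ₂ p.1 p.2 (-p.1 - p.2)
      * (bt p.1 (U p.1) * bt p.2 (U p.2) * bt (-p.1 - p.2) (U (-p.1 - p.2))))
        + ENNReal.ofReal (108 * C) * (b0 U p.1 * b34 U p.2 * b34 U (-p.1 - p.2)) := by
    intro p
    have h3 := Gw_le hη hH hC hX (k := p.1) (p := p.2) (q := -p.1 - p.2) (by abel) (hdiv p.1)
      (hdiv p.2) (hdiv (-p.1 - p.2))
    have n1 := kn_nonneg p.1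
    have n2 := kn_nonneg p.2
    have n3 := kn_nonneg (-p.1 - p.2)
    have m2 := k34_nonneg p.2
    have m3 := k34_nonneg (-p.1 - p.2)
    have b1 := bt_nonneg p.1 (U p.1)
    have b2 := bt_nonneg p.2 (U p.2)
    have b3 := bt_nonneg (-p.1 - p.2) (U (-p.1 - p.2))
    have x1 := xr_nonneg Q p.1 (U p.1)
    have x2 := xr_nonneg Q p.2 (U p.2)
    have x3 := xr_nonneg Q (-p.1 - p.2) (U (-p.1 - p.2))
    have hex := ex_nonneg K θ₁ θ₂ p.1 p.2 (-p.1 - p.2)
    have exq : ∀ k, ENNReal.ofReal (xr Q k (U k)) = xq Q U k := by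
      intro k
      unfold xr xq
      split_ifs <;> simp
    rw [← ofReal_norm]
    refine (ENNReal.ofReal_le_ofReal h3).trans (le_of_eq ?_)
    have e : 108 * (H * (xr Q p.1 (U p.1) * (kn p.2 * bt p.2 (U p.2))
          * (kn (-p.1 - p.2) * bt (-p.1 - p.2) (U (-p.1 - p.2)))
        + (kn p.1 * bt p.1 (U p.1)) * xr Q p.2 (U p.2)
          * (kn (-p.1 - p.2) * bt (-p.1 - p.2) (U (-p.1 - p.2)))
        + (kn p.1 * bt p.1 (U p.1)) * (kn p.2 * bt p.2 (U p.2))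
          * xr Q (-p.1 - p.2) (U (-p.1 - p.2)))
        + H * (ex K θ₁ θ₂ p.1 p.2 (-p.1 - p.2) * (bt p.1 (U p.1) * bt p.2 (U p.2)
          * bt (-p.1 - p.2) (U (-p.1 - p.2))))
        + C * (bt p.1 (U p.1) * (k34 p.2 * bt p.2 (U p.2))
          * (k34 (-p.1 - p.2) * bt (-p.1 - p.2) (U (-p.1 - p.2)))))
        = 108 * H * (xr Q p.1 (U p.1) * (kn p.2 * bt p.2 (U p.2))
          * (kn (-p.1 - p.2) * bt (-p.1 - p.2) (U (-p.1 - p.2)))
        + (kn p.1 * bt p.1 (U p.1)) * xr Q p.2 (U p.2)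
          * (kn (-p.1 - p.2) * bt (-p.1 - p.2) (U (-p.1 - p.2)))
        + (kn p.1 * bt p.1 (U p.1)) * (kn p.2 * bt p.2 (U p.2))
          * xr Q (-p.1 - p.2) (U (-p.1 - p.2)))
        + 108 * H * (ex K θ₁ θ₂ p.1 p.2 (-p.1 - p.2) * (bt p.1 (U p.1) * bt p.2 (U p.2)
          * bt (-p.1 - p.2) (U (-p.1 - p.2))))
        + 108 * C * (bt p.1 (U p.1) * (k34 p.2 * bt p.2 (U p.2))
          * (k34 (-p.1 - p.2) * bt (-p.1 - p.2) (U (-p.1 - p.2)))) := by ring
    rw [e, ENNReal.ofReal_add (by positivity) (by positivity),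
      ENNReal.ofReal_add (by positivity) (by positivity),
      ENNReal.ofReal_mul (p := 108 * H) (by positivity),
      ENNReal.ofReal_mul (p := 108 * H) (by positivity),
      ENNReal.ofReal_mul (p := 108 * C) (by positivity),
      ENNReal.ofReal_add (by positivity) (by positivity),
      ENNReal.ofReal_add (by positivity) (by positivity), ofReal3 x1 (mul_nonneg n2 b2),
      ofReal3 (mul_nonneg n1 b1) x2, ofReal3 (mul_nonneg n1 b1) (mul_nonneg n2 b2),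
      ofReal3 b1 (mul_nonneg m2 b2), exq, exq, exq]
    rfl
  have h4 : ‖(6 : ℂ) * T3s (fw η (fun k => kn k ^ 1) U)‖ₑ
      ≤ 6 * (ENNReal.ofReal (54 * H) * tz (xq Q U) (be U) (be U)
        + ENNReal.ofReal (108 * H) * (TE F1 + TE F2)
        + ENNReal.ofReal (18 * C) * tz (b0 U) (b34 U) (b34 U)) := by
    rw [h1]
    refine enorm_T3s_le.trans ((ENNReal.tsum_le_tsum h2).trans ?_)
    rw [ENNReal.tsum_add, ENNReal.tsum_add, ENNReal.tsum_mul_left, ENNReal.tsum_mul_left,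
      ENNReal.tsum_mul_left, ENNReal.tsum_add, ENNReal.tsum_add, sum_ex]
    have c1 : ∑' p : K3 × K3, xq Q U p.1 * be U p.2 * be U (-p.1 - p.2)
        = tz (xq Q U) (be U) (be U) := rfl
    have c2 : ∑' p : K3 × K3, be U p.1 * xq Q U p.2 * be U (-p.1 - p.2)
        = tz (xq Q U) (be U) (be U) := tz_comm12 _ _ _
    have c3 : ∑' p : K3 × K3, be U p.1 * be U p.2 * xq Q U (-p.1 - p.2)
        = tz (xq Q U) (be U) (be U) := (tz_rot _ _ _).symm
    have c4 : ∑' p : K3 × K3, b0 U p.1 * b34 U p.2 * b34 U (-p.1 - p.2)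
        = tz (b0 U) (b34 U) (b34 U) := rfl
    rw [c1, c2, c3, c4]
    have d1 : ENNReal.ofReal (108 * H) = 2 * ENNReal.ofReal (54 * H) := by
      rw [show (2 : ℝ≥0∞) = ENNReal.ofReal 2 by norm_num, ← ENNReal.ofReal_mul (by norm_num)]
      congr 1; ring
    have d2 : ENNReal.ofReal (108 * C) = 6 * ENNReal.ofReal (18 * C) := by
      rw [show (6 : ℝ≥0∞) = ENNReal.ofReal 6 by norm_num, ← ENNReal.ofReal_mul (by norm_num)]
      congr 1; ring
    rw [d1, d2]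
    refine le_of_eq ?_
    ring
  rw [enorm_mul, ← ofReal_norm, ← ofReal_norm] at h4
  have e6 : ENNReal.ofReal ‖(6 : ℂ)‖ = 6 := by norm_num
  rw [e6] at h4
  have h5 := (ENNReal.mul_le_mul_iff_right (by norm_num) (by norm_num)).1 h4
  have r1 : 0 < ε₁ ^ (-((1 + 5 / 2 * θ₁) / (2 - 5 / 2 * θ₁))) := Real.rpow_pos_of_pos hε₁ _
  have r2 : 0 < ε₂ ^ (-((7 / 2 * θ₂) / (3 - 7 / 2 * θ₂))) := Real.rpow_pos_of_pos hε₂ _
  have t1 : TE F1 ≤ ENNReal.ofReal (27 * ck K θ₁ 1 1 * Real.sqrt (hn 0 U)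
        * (ε₁ * hn 3 U + ε₁ ^ (-((1 + 5 / 2 * θ₁) / (2 - 5 / 2 * θ₁))) * hn 0 U)) := by
    have := low_term hU hK hθ₁ (by linarith) 1 1 (ρ := 1 + 5 / 2 * θ₁) (ε := ε₁)
      (by push_cast; ring) (by linarith) hε₁ (l := l1 K θ₁)
      (fun q k hn => by unfold l1; rw [if_neg hn])
      (fun q k hn => by unfold l1; rw [if_pos hn, pow_one, pow_one])
    rw [show (3 : ℝ) - (1 + 5 / 2 * θ₁) = 2 - 5 / 2 * θ₁ by ring] at this
    exact this
  have t2 : TE F2 ≤ ENNReal.ofReal (27 * ck K θ₂ 2 0 * Real.sqrt (hn 0 U)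
        * (ε₂ * hn 3 U + ε₂ ^ (-((7 / 2 * θ₂) / (3 - 7 / 2 * θ₂))) * hn 0 U)) :=
    low_term hU hK hθ₂ (by linarith) 2 0 (ρ := 7 / 2 * θ₂) (ε := ε₂)
      (by push_cast; ring) (by linarith) hε₂ (l := l2 K θ₂)
      (fun q k hn => by unfold l2; rw [if_neg hn])
      (fun q k hn => by unfold l2; rw [if_pos hn, pow_zero, mul_one])
  have c1 := ck_nonneg K θ₁ 1 1
  have c2 := ck_nonneg K θ₂ 2 0
  have h6 : ENNReal.ofReal ‖T3s (fw η (fun k => kn k ^ 1) U)‖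
      ≤ ENNReal.ofReal (54 * H * (108 * (Real.sqrt A * Real.sqrt (hn 3 U * hn 2 U * hn 1 U)))
        + 108 * H * (27 * ck K θ₁ 1 1 * Real.sqrt (hn 0 U)
        * (ε₁ * hn 3 U + ε₁ ^ (-((1 + 5 / 2 * θ₁) / (2 - 5 / 2 * θ₁))) * hn 0 U)
        + 27 * ck K θ₂ 2 0 * Real.sqrt (hn 0 U)
        * (ε₂ * hn 3 U + ε₂ ^ (-((7 / 2 * θ₂) / (3 - 7 / 2 * θ₂))) * hn 0 U))
        + 18 * C * (700 * Real.sqrt (hn 3 U * hn 2 U * hn 1 U))) := by
    rw [ENNReal.ofReal_add (by positivity) (by positivity),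
      ENNReal.ofReal_add (by positivity) (by positivity),
      ENNReal.ofReal_mul (p := 54 * H) (by positivity),
      ENNReal.ofReal_mul (p := 108 * H) (by positivity),
      ENNReal.ofReal_mul (p := 18 * C) (by positivity),
      ENNReal.ofReal_add (p := 27 * ck K θ₁ 1 1 * Real.sqrt (hn 0 U)
        * (ε₁ * hn 3 U + ε₁ ^ (-((1 + 5 / 2 * θ₁) / (2 - 5 / 2 * θ₁))) * hn 0 U))
        (by positivity) (by positivity)]
    refine h5.trans ?_
    gcongr
    · exact tz_Q hU hQ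
    · exact tz_small hU
  refine ((ENNReal.ofReal_le_ofReal_iff (by positivity)).1 h6).trans (le_of_eq ?_)
  ring

end Pool.Agent.X96.DM
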