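import Pool.Agent.X96.DM.Bil
import Pool.Agent.X96.DM.Half2
import Pool.Agent.H772R2.NSR.Ode

/-!
Galerkin approximations.
-/

open MeasureTheory Set Filter Topology
open scoped ENNReal InnerProductSpace NNReal
open H459R3.NS Pool.Agent.X96.HT

namespace Pool.Agent.X96.DM

variable {η : Md → Md → Md → ℝ} {S : Finset K3}

/-! ### Fields with finitely many frequencies -/

/-- finitely supported fields -/
abbrev FE (S : Finset K3) := EuclideanSpace ℂ (↥S × Fin 3)

/-- extension by zero -/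
noncomputable def xt (S : Finset K3) (x : FE S) (k : K3) : C3 := fun i => by
  classical exact if h : k ∈ S then x (⟨k, h⟩, i) else 0

lemma xt_mem (x : FE S) {k : K3} (h : k ∈ S) (i : Fin 3) : xt S x k i = x (⟨k, h⟩, i) := by
  unfold xt; rw [dif_pos h]

lemma xt_not (x : FE S) {k : K3} (h : k ∉ S) : xt S x k = 0 := by
  funext i; unfold xt; rw [dif_neg h]; rfl

lemma xt_add (x y : FE S) (k : K3) : xt S (x + y) k = xt S x k + xt S y k := by
  by_cases h : k ∈ S
  · funext i; simp [xt_mem _ h]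
  · simp [xt_not _ h]

lemma xt_sub (x y : FE S) (k : K3) : xt S (x - y) k = xt S x k - xt S y k := by
  by_cases h : k ∈ S
  · funext i; simp [xt_mem _ h]
  · simp [xt_not _ h]

lemma xt_smul (c : ℝ) (x : FE S) (k : K3) : xt S (c • x) k = (c : ℂ) • xt S x k := by
  by_cases h : k ∈ S
  · funext i; simp [xt_mem _ h]
  · simp [xt_not _ h]

lemma norm_xt_le (x : FE S) (k : K3) : ‖xt S x k‖ ≤ ‖x‖ := by
  rw [pi_norm_le_iff_of_nonneg (norm_nonneg _)]
  intro i
  by_cases h : k ∈ S
  · rw [xt_mem _ h]; exact PiLp.norm_apply_le x _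
  · rw [xt_not _ h]; simp

/-- fields with finitely many frequencies are rapidly decreasing -/
lemma rapV_fin {U : K3 → C3} (h : ∀ k ∉ S, U k = 0) : RapV U := by
  intro n
  refine summable_of_ne_finset_zero (s := S) fun k hk => ?_
  rw [h k hk, norm_zero, mul_zero]

/-- `Xf` takes place here: the nonlinear term as a finite sum -/
lemma nonl_fin {U : K3 → C3} (h : ∀ k ∉ S, U k = 0) (k : K3) :
    nonl η U k = ∑ p ∈ S, bil η k p (k - p) (U p) (U (k - p)) := by
  unfold nonl
  refine tsum_eq_sum fun p hp => ?_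
  rw [h p hp]
  have := bil_smul_left η k p (k - p) 0 0 (U (k - p))
  simpa using this

lemma nonl_sub_fin {H : ℝ} (hH : ∀ a b c, |η a b c| ≤ H) {U W : K3 → C3} {R d : ℝ}
    (hU : ∀ k ∉ S, U k = 0) (hW : ∀ k ∉ S, W k = 0) (hUR : ∀ k, ‖U k‖ ≤ R) (hWR : ∀ k, ‖W k‖ ≤ R)
    (hd : ∀ k, ‖U k - W k‖ ≤ d) (k : K3) :
    ‖nonl η U k - nonl η W k‖ ≤ (S.card * (cB H * kn k * (2 * R))) * d := by
  have hH0 : 0 ≤ H := (abs_nonneg _).trans (hH (0, true) (0, true) (0, true))
  rw [nonl_fin hU, nonl_fin hW, ← Finset.sum_sub_distrib]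
  refine (norm_sum_le _ _).trans ?_
  have : ∀ p ∈ S, ‖bil η k p (k - p) (U p) (U (k - p)) - bil η k p (k - p) (W p) (W (k - p))‖
      ≤ (cB H * kn k * (2 * R)) * d := by
    intro p _
    have e : bil η k p (k - p) (U p) (U (k - p)) - bil η k p (k - p) (W p) (W (k - p))
        = bil η k p (k - p) (U p - W p) (U (k - p)) + bil η k p (k - p) (W p) (U (k - p) - W (k - p)) := by
      rw [bil_sub_left, bil_sub_right]; abel
    rw [e]
    have h1 := norm_bil_le (η := η) hH (k := k) (p := p) (q := k - p) (by abel) (U p - W p) (U (k - p))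
    have h2 := norm_bil_le (η := η) hH (k := k) (p := p) (q := k - p) (by abel) (W p)
      (U (k - p) - W (k - p))
    have h3 := cB_nonneg hH0
    have h4 := kn_nonneg k
    have hR : 0 ≤ R := (norm_nonneg _).trans (hUR 0)
    calc _ ≤ cB H * kn k * (‖U p - W p‖ * ‖U (k - p)‖) + cB H * kn k * (‖W p‖ * ‖U (k - p) - W (k - p)‖) :=
          (norm_add_le _ _).trans (add_le_add h1 h2)
      _ ≤ cB H * kn k * (d * R) + cB H * kn k * (R * d) := by
          have hd0 : 0 ≤ d := (norm_nonneg _).trans (hd 0)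
          gcongr
          · exact hd p
          · exact hUR _
          · exact hWR _
          · exact hd _
      _ = _ := by ring
  refine (Finset.sum_le_sum this).trans ?_
  rw [Finset.sum_const, nsmul_eq_mul]
  exact (mul_assoc _ _ _).symm.le

/-- real divergence-free fields -/
noncomputable def WS (S : Finset K3) : Submodule ℝ (FE S) where
  carrier := {x | (∀ k, dp (kc k) (xt S x k) = 0) ∧ ∀ k, xt S x (-k) = cj (xt S x k)}
  add_mem' := by
    rintro x y ⟨h1, h2⟩ ⟨h3, h4⟩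
    refine ⟨fun k => ?_, fun k => ?_⟩
    · rw [xt_add, dp_add, h1, h3, add_zero]
    · rw [xt_add, xt_add, h2, h4, cj_add]
  zero_mem' := by
    have h0 : ∀ k, xt S 0 k = 0 := by
      intro k
      by_cases h : k ∈ S
      · funext i; simp [xt_mem _ h]
      · simp [xt_not _ h]
    refine ⟨fun k => ?_, fun k => ?_⟩
    · rw [h0]; unfold dp; simp
    · rw [h0, h0]; funext i; simp [cj]
  smul_mem' := by
    rintro c x ⟨h1, h2⟩
    refine ⟨fun k => ?_, fun k => ?_⟩
    · rw [xt_smul, dp_smul, h1, mul_zero]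
    · rw [xt_smul, xt_smul, h2, cj_smul, Complex.conj_ofReal]

/-- the vector field of the Galerkin approximation -/
noncomputable def Xf (η : Md → Md → Md → ℝ) (ν' : ℝ) (S : Finset K3) (x : FE S) : FE S :=
  WithLp.toLp 2 fun p => -((ν' * kn p.1 ^ 2 : ℝ) : ℂ) * x p - nonl η (xt S x) p.1 p.2

lemma xt_Xf (ν' : ℝ) (x : FE S) {k : K3} (h : k ∈ S) :
    xt S (Xf η ν' S x) k = -((ν' * kn k ^ 2 : ℝ) : ℂ) • xt S x k - nonl η (xt S x) k := by
  funext i
  rw [xt_mem _ h, Pi.sub_apply, Pi.smul_apply, xt_mem _ h, smul_eq_mul]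
  rfl

lemma Xf_mem (hη : IsWeight η) (hneg : ∀ k ∈ S, -k ∈ S) (ν' : ℝ) {x : FE S} (hx : x ∈ WS S) :
    Xf η ν' S x ∈ WS S := by
  obtain ⟨H, hH⟩ := hη.bdd
  have hr : RapV (xt S x) := rapV_fin fun k hk => xt_not x hk
  refine ⟨fun k => ?_, fun k => ?_⟩
  · by_cases h : k ∈ S
    · rw [xt_Xf ν' x h, sub_eq_add_neg, dp_add, dp_smul, hx.1 k, mul_zero, zero_add]
      have := dp_smul (kc k) (nonl η (xt S x) k) (-1)
      rw [neg_one_smul] at this
      rw [this, dp_nonl hH (RapV.summable hr), mul_zero]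
    · rw [xt_not _ h]; unfold dp; simp
  · by_cases h : k ∈ S
    · rw [xt_Xf ν' x h, xt_Xf ν' x (hneg k h), kn_neg, hx.2 k, nonl_cj hη hx.2]
      funext i
      simp [cj, Complex.conj_ofReal]
    · have h' : -k ∉ S := fun h1 => h (by simpa using hneg _ h1)
      rw [xt_not _ h, xt_not _ h']
      funext i; simp [cj]

/-- the vector field on the subspace -/
noncomputable def Xw (hη : IsWeight η) (hneg : ∀ k ∈ S, -k ∈ S) (ν' : ℝ) (x : WS S) : WS S :=
  ⟨Xf η ν' S x, Xf_mem hη hneg ν' x.2⟩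

end Pool.Agent.X96.DM
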