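import Pool.Agent.X96.DM.Gal

/-!
Existence of the Galerkin approximations.
-/

open MeasureTheory Set Filter Topology
open scoped ENNReal InnerProductSpace NNReal
open H459R3.NS Pool.Agent.X96.HT

namespace Pool.Agent.X96.DM

variable {η : Md → Md → Md → ℝ} {S : Finset K3}

lemma norm_le_sum_fe {ι : Type*} [Fintype ι] (x : EuclideanSpace ℂ ι) : ‖x‖ ≤ ∑ i, ‖x i‖ := by
  rw [EuclideanSpace.norm_eq]
  refine Real.sqrt_le_iff.2 ⟨by positivity, ?_⟩
  exact Finset.sum_sq_le_sq_sum_of_nonneg fun i _ => norm_nonneg _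

lemma Xf_lip (ν' : ℝ) {H : ℝ} (hH : ∀ a b c, |η a b c| ≤ H) {R : ℝ} {x y : FE S} (hx : ‖x‖ ≤ R)
    (hy : ‖y‖ ≤ R) : ‖Xf η ν' S x - Xf η ν' S y‖
      ≤ (∑ p : ↥S × Fin 3, (|ν'| * kn p.1 ^ 2 + S.card * (cB H * kn p.1 * (2 * R)))) * ‖x - y‖ := by
  refine (norm_le_sum_fe _).trans ?_
  rw [Finset.sum_mul]
  refine Finset.sum_le_sum fun p _ => ?_
  have e : (Xf η ν' S x - Xf η ν' S y) p = -((ν' * kn p.1 ^ 2 : ℝ) : ℂ) * (x - y) p
      - (nonl η (xt S x) p.1 - nonl η (xt S y) p.1) p.2 := by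
    simp only [Xf, PiLp.sub_apply, Pi.sub_apply]
    ring
  rw [e]
  have h1 : ‖-((ν' * kn p.1 ^ 2 : ℝ) : ℂ) * (x - y) p‖ ≤ |ν'| * kn p.1 ^ 2 * ‖x - y‖ := by
    rw [norm_mul, norm_neg, Complex.norm_real, Real.norm_eq_abs, abs_mul,
      abs_of_nonneg (by positivity : 0 ≤ kn (p.1 : K3) ^ 2)]
    gcongr
    exact PiLp.norm_apply_le (x - y) p
  have h2 : ‖(nonl η (xt S x) p.1 - nonl η (xt S y) p.1) p.2‖
      ≤ (S.card * (cB H * kn p.1 * (2 * R))) * ‖x - y‖ := by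
    refine (norm_le_pi_norm _ _).trans ?_
    refine nonl_sub_fin hH (fun k hk => xt_not x hk) (fun k hk => xt_not y hk)
      (fun k => (norm_xt_le x k).trans hx) (fun k => (norm_xt_le y k).trans hy) (fun k => ?_) _
    rw [← xt_sub]
    exact norm_xt_le _ k
  calc _ ≤ |ν'| * kn p.1 ^ 2 * ‖x - y‖ + (S.card * (cB H * kn p.1 * (2 * R))) * ‖x - y‖ :=
        (norm_sub_le _ _).trans (add_le_add h1 h2)
    _ = _ := by ring

lemma pair_fin (hη : IsWeight η) {U : K3 → C3} (hs : ∀ k ∉ S, U k = 0)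
    (hdiv : ∀ k, dp (kc k) (U k) = 0) (hreal : ∀ k, U (-k) = cj (U k)) (m : ℕ) :
    ∑ k ∈ S, (kn k ^ m : ℂ) * ∑ i, (starRingEnd ℂ) (U k i) * nonl η U k i
      = 2 * Real.pi * T3s (fw η (fun k => kn k ^ m) U) := by
  have h1 := pairing hη (rapV_fin hs) hdiv hreal m
  have h2 : HasSum (fun k => (kn k ^ m : ℂ) * ∑ i, (starRingEnd ℂ) (U k i) * nonl η U k i)
      (∑ k ∈ S, (kn k ^ m : ℂ) * ∑ i, (starRingEnd ℂ) (U k i) * nonl η U k i) := by
    refine hasSum_sum_of_ne_finset_zero fun k hk => ?_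
    rw [hs k hk]; simp
  exact h2.unique h1

lemma Xf_energy (hη : IsWeight η) {ν' : ℝ} (hν : 0 ≤ ν') {x : FE S} (hx : x ∈ WS S) :
    ⟪Xf η ν' S x, x⟫_ℝ ≤ 0 := by
  have h1 := pair_fin hη (fun k hk => xt_not x hk) hx.1 hx.2 0
  rw [T3s_energy hη (rapV_fin fun k hk => xt_not x hk) hx.1, mul_zero] at h1
  simp only [pow_zero, one_mul] at h1
  rw [PiLp.inner_apply]
  have h2 : ∀ p : ↥S × Fin 3, ⟪Xf η ν' S x p, x p⟫_ℝ = -(ν' * kn p.1 ^ 2 * ‖x p‖ ^ 2)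
      - ((starRingEnd ℂ) (xt S x p.1 p.2) * nonl η (xt S x) p.1 p.2).re := by
    intro p
    rw [Complex.inner]
    have e : xt S x p.1 p.2 = x p := by rw [xt_mem _ p.1.2]
    have e2 : (Xf η ν' S x) p = -((ν' * kn p.1 ^ 2 : ℝ) : ℂ) * x p - nonl η (xt S x) p.1 p.2 := rfl
    rw [e2, e, ← Complex.normSq_eq_norm_sq, Complex.normSq_apply]
    simp only [map_sub, map_mul, map_neg, Complex.conj_ofReal, Complex.mul_re, Complex.sub_re,
      Complex.sub_im, Complex.neg_re, Complex.neg_im, Complex.ofReal_re, Complex.ofReal_im,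
      Complex.conj_re, Complex.conj_im, Complex.mul_im]
    ring
  simp_rw [h2]
  rw [Finset.sum_sub_distrib]
  have h3 : ∑ p : ↥S × Fin 3, ((starRingEnd ℂ) (xt S x p.1 p.2) * nonl η (xt S x) p.1 p.2).re = 0 := by
    rw [Fintype.sum_prod_type]
    have h4 := congrArg Complex.re h1
    rw [Complex.re_sum, Complex.zero_re] at h4
    rw [← h4, ← Finset.sum_coe_sort S]
    refine Finset.sum_congr rfl fun k _ => ?_
    rw [Complex.re_sum]
  rw [h3, sub_zero]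
  refine Finset.sum_nonpos fun p _ => ?_
  have : 0 ≤ ν' * kn p.1 ^ 2 * ‖x p‖ ^ 2 := by positivity
  linarith

/-- The Galerkin approximation with frequencies in `S` on `[0, T]`. -/
structure Gal (η : Md → Md → Md → ℝ) (ν' T : ℝ) (S : Finset K3) (a : ℝ → K3 → C3) : Prop where
  supp : ∀ t, ∀ k ∉ S, a t k = 0
  real : ∀ t k, a t (-k) = cj (a t k)
  div : ∀ t k, dp (kc k) (a t k) = 0
  deriv : ∀ t ∈ Icc 0 T, ∀ k ∈ S, ∀ i, HasDerivWithinAt (fun s => a s k i)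
    (-((ν' * kn k ^ 2 : ℝ) : ℂ) * a t k i - nonl η (a t) k i) (Icc 0 T) t

theorem exists_gal (hη : IsWeight η) (hneg : ∀ k ∈ S, -k ∈ S) {ν' T : ℝ} (hν : 0 ≤ ν')
    (hT : 0 ≤ T) {U : K3 → C3} (hs : ∀ k ∉ S, U k = 0)
    (hdiv : ∀ k, dp (kc k) (U k) = 0) (hreal : ∀ k, U (-k) = cj (U k)) :
    ∃ a, Gal η ν' T S a ∧ a 0 = U := by
  obtain ⟨H, hH⟩ := hη.bdd
  have hH0 : 0 ≤ H := (abs_nonneg _).trans (hH (0, true) (0, true) (0, true))
  have hcB := cB_nonneg hH0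
  have hx0 : xt S (WithLp.toLp 2 fun p : ↥S × Fin 3 => U p.1 p.2) = U := by
    funext k
    by_cases h : k ∈ S
    · funext i; rw [xt_mem _ h]
    · rw [xt_not _ h, hs k h]
  let x0 : WS S := ⟨WithLp.toLp 2 fun p : ↥S × Fin 3 => U p.1 p.2, by
    refine ⟨fun k => ?_, fun k => ?_⟩
    · rw [hx0]; exact hdiv k
    · rw [hx0]; exact hreal k⟩
  obtain ⟨x, h0, hx, -⟩ := H772R2.NSR.exists_global (fun _ => Xw hη hneg ν') hT (fun R => by
    refine ⟨Real.toNNReal (∑ p : ↥S × Fin 3, (|ν'| * kn p.1 ^ 2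
      + S.card * (cB H * kn p.1 * (2 * |R|)))), fun t _ => ?_⟩
    refine LipschitzOnWith.of_dist_le_mul fun y hy z hz => ?_
    rw [Real.coe_toNNReal _ (Finset.sum_nonneg fun p _ => by
      have := kn_nonneg (p.1 : K3); positivity)]
    rw [mem_closedBall_zero_iff] at hy hz
    rw [dist_eq_norm, dist_eq_norm]
    exact Xf_lip ν' hH (hy.trans (le_abs_self R)) (hz.trans (le_abs_self R)))
    (fun y => continuousOn_const) x0 (c := 0) le_rfl
    (fun t _ y => Xf_energy hη hν y.2)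
  refine ⟨fun t => xt S (x t), ⟨fun t k hk => xt_not _ hk, fun t k => (x t).2.2 k,
    fun t k => (x t).2.1 k, ?_⟩, ?_⟩
  · intro t ht k hk i
    have h1 : HasDerivWithinAt (fun s => (x s : FE S)) ((Xw hη hneg ν' (x t) : WS S) : FE S)
        (Icc 0 T) t :=
      (WS S).subtypeL.hasFDerivAt.comp_hasDerivWithinAt t (hx t ht)
    have h2 := (((EuclideanSpace.proj (𝕜 := ℂ) ((⟨k, hk⟩, i) : ↥S × Fin 3)).restrictScalars
      ℝ).hasFDerivAt).comp_hasDerivWithinAt t h1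
    refine HasDerivWithinAt.congr_deriv (f := fun s => xt S (x s) k i) (h2.congr_of_mem ?_ ht) ?_
    · intro s _
      simp only [xt_mem _ hk]; rfl
    · show (Xf η ν' S (x t)) (⟨k, hk⟩, i) = _
      rw [xt_mem _ hk]; rfl
  · simp only [h0]
    exact hx0

end Pool.Agent.X96.DM
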