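import Pool.Agent.X96.DM.Tri

/-!
The production of the norm of `H^{1/2}` with weights.
-/

open MeasureTheory Set Filter Topology
open scoped ENNReal
open H459R3.NS Pool.Agent.X96.HT

namespace Pool.Agent.X96.DM

variable {η : Md → Md → Md → ℝ} {U : K3 → C3} {w : K3 → ℝ} {k p q : K3} {a b c : C3}

/-- The weights of the strong mixed triads off `Q` are at most `C M^{-1/2}`: see `StrongSmall`. -/
def SmallAt (η : Md → Md → Md → ℝ) (C : ℝ) (x y z : Md) : Prop :=
  |η x y z| * Real.sqrt (max (kn x.1) (max (kn y.1) (kn z.1))) ≤ C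

/-- The weights of the strong mixed triads are small. A triad `a + b + c = 0` of frequencies, with
the same sign `s` of helicity for `a` and `b` and the opposite sign for `c`, is strong if it is not
collinear, if the shortest of the three frequencies is longer than `K M^θ₁`, where `M` is the
length of the longest, and if `c` is longer than `K m^θ₂`, where `m` is the length of the longer one
of `a` and `b`. The condition: for all strong triads without element in `Q` the weight is at most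
`C M^{-1/2}`. -/
def StrongSmall (η : Md → Md → Md → ℝ) (Q : Set K3) (K θ₁ θ₂ C : ℝ) : Prop :=
  ∀ (a b c : K3) (s : Bool), a + b + c = 0 → crossProduct a b ≠ 0 →
    K * max (kn a) (max (kn b) (kn c)) ^ θ₁ < min (kn a) (min (kn b) (kn c)) →
    K * max (kn a) (kn b) ^ θ₂ < kn c →
    a ∉ Q → b ∉ Q → c ∉ Q → |η (a, s) (b, s) (c, !s)|
      * Real.sqrt (max (kn a) (max (kn b) (kn c))) ≤ C

/-- the alternatives -/
def Alt2 (η : Md → Md → Md → ℝ) (Q : Set K3) (K θ₁ θ₂ C : ℝ) (k p q : K3) (r s t : Bool)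
    (w M : ℝ) : Prop :=
  w ≤ 108 * (ex K θ₁ θ₂ k p q * M) ∨ k ∈ Q ∨ p ∈ Q ∨ q ∈ Q ∨ SmallAt η C (k, r) (p, s) (q, t)

lemma SmallAt.rot (h : IsWeight η) {C : ℝ} {x y z : Md} (hs : SmallAt η C y z x) :
    SmallAt η C x y z := by
  unfold SmallAt at *
  rw [h.rot x y z] at hs
  have e : max (kn x.1) (max (kn y.1) (kn z.1)) = max (kn y.1) (max (kn z.1) (kn x.1)) := by
    rw [max_comm, max_assoc]
  rw [e]; exact hs

lemma Alt2_rot (h : IsWeight η) {Q : Set K3} {K θ₁ θ₂ C : ℝ} {r s t : Bool} {w M : ℝ}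
    (h2 : Alt2 η Q K θ₁ θ₂ C p q k s t r w M) : Alt2 η Q K θ₁ θ₂ C k p q r s t w M := by
  unfold Alt2 at *
  rw [ex_rot]
  rcases h2 with h2 | h2 | h2 | h2 | h2
  · exact Or.inl h2
  · exact Or.inr (Or.inr (Or.inl h2))
  · exact Or.inr (Or.inr (Or.inr (Or.inl h2)))
  · exact Or.inr (Or.inl h2)
  · exact Or.inr (Or.inr (Or.inr (Or.inr (SmallAt.rot h h2))))

lemma Alt2_min3 {Q : Set K3} {K θ₁ θ₂ C : ℝ} (hX : StrongSmall η Q K θ₁ θ₂ C)
    (h : k + p + q = 0) (hcol : crossProduct k p ≠ 0) (ha : dp (kc k) a = 0) (hb : dp (kc p) b = 0)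
    (hc : dp (kc q) c = 0) (s : Bool) :
    Alt2 η Q K θ₁ θ₂ C k p q s s (!s) ‖G3 k p q (par s k a) (par s p b) (par (!s) q c)‖
      (‖par s k a‖ * ‖par s p b‖ * ‖par (!s) q c‖) := by
  by_cases h1 : K * max (kn k) (max (kn p) (kn q)) ^ θ₁ < min (kn k) (min (kn p) (kn q))
  · by_cases h2 : K * max (kn k) (kn p) ^ θ₂ < kn q
    · by_cases hk : k ∈ Q
      · exact Or.inr (Or.inl hk)
      by_cases hp : p ∈ Q
      · exact Or.inr (Or.inr (Or.inl hp))
      by_cases hq : q ∈ Q
      · exact Or.inr (Or.inr (Or.inr (Or.inl hq)))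
      exact Or.inr (Or.inr (Or.inr (Or.inr (hX k p q s h hcol h1 h2 hk hp hq))))
    · exact Or.inl (ex_ge2 h2 (G3_minlow h ha hb hc s) (by positivity))
  · exact Or.inl (ex_ge1 h1 (B3_min3 h ha hb hc s) (by positivity))

lemma Alt2_mixed (hη : IsWeight η) {Q : Set K3} {K θ₁ θ₂ C : ℝ}
    (hX : StrongSmall η Q K θ₁ θ₂ C)
    (h : k + p + q = 0) (hcol : crossProduct k p ≠ 0) (ha : dp (kc k) a = 0) (hb : dp (kc p) b = 0)
    (hc : dp (kc q) c = 0) {r s t : Bool} (hmix : ¬ (r = s ∧ s = t)) :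
    Alt2 η Q K θ₁ θ₂ C k p q r s t ‖G3 k p q (par r k a) (par s p b) (par t q c)‖
      (‖par r k a‖ * ‖par s p b‖ * ‖par t q c‖) := by
  by_cases hrs : r = s
  · subst hrs
    have ht : t = !r := by
      cases r <;> cases t <;> simp_all
    subst ht
    exact Alt2_min3 hX h hcol ha hb hc r
  · by_cases hst : s = t
    · subst hst
      have hr : r = !s := by cases r <;> cases s <;> simp_all
      subst hr
      rw [G3_rot]
      have e : ‖par (!s) k a‖ * ‖par s p b‖ * ‖par s q c‖
          = ‖par s p b‖ * ‖par s q c‖ * ‖par (!s) k a‖ := by ring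
      rw [e]
      refine Alt2_rot hη (Alt2_min3 hX (sum_rot h) ?_ hb hc ha s)
      rw [cross_rot h]; exact hcol
    · have hr : r = t := by cases r <;> cases s <;> cases t <;> simp_all
      subst hr
      have hs : s = !r := by cases r <;> cases s <;> simp_all
      subst hs
      rw [G3_rot, G3_rot]
      have e : ‖par r k a‖ * ‖par (!r) p b‖ * ‖par r q c‖
          = ‖par r q c‖ * ‖par r k a‖ * ‖par (!r) p b‖ := by ring
      rw [e]
      refine Alt2_rot hη (Alt2_rot hη (Alt2_min3 hX (sum_rot (sum_rot h)) ?_ hc ha hb r))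
      rw [cross_rot (sum_rot h), cross_rot h]; exact hcol

/-- the power `3/4` of the length -/
noncomputable def k34 (k : K3) : ℝ := kn k ^ (3 / 4 : ℝ)

lemma k34_nonneg (k : K3) : 0 ≤ k34 k := Real.rpow_nonneg (kn_nonneg k) _

/-- `|η| |p| |q| ≤ C |p|^{3/4} |q|^{3/4}` if `|η| M^{1/2} ≤ C` -/
lemma small_pair {x P R M C : ℝ} (hx : 0 ≤ x) (hP : 0 ≤ P) (hR : 0 ≤ R) (hPM : P ≤ M)
    (hRM : R ≤ M) (h : x * Real.sqrt M ≤ C) :
    x * (P * R) ≤ C * (P ^ (3 / 4 : ℝ) * R ^ (3 / 4 : ℝ)) := by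
  have hM : 0 ≤ M := hP.trans hPM
  have e : ∀ y : ℝ, 0 ≤ y → y = y ^ (3 / 4 : ℝ) * y ^ (1 / 4 : ℝ) := by
    intro y hy
    rw [← Real.rpow_add_of_nonneg hy (by norm_num) (by norm_num)]
    norm_num
  have h1 : P ^ (1 / 4 : ℝ) * R ^ (1 / 4 : ℝ) ≤ Real.sqrt M := by
    calc P ^ (1 / 4 : ℝ) * R ^ (1 / 4 : ℝ) ≤ M ^ (1 / 4 : ℝ) * M ^ (1 / 4 : ℝ) := by
          gcongr
      _ = Real.sqrt M := by
          rw [← Real.rpow_add_of_nonneg hM (by norm_num) (by norm_num), Real.sqrt_eq_rpow]
          norm_num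
  calc x * (P * R) = x * (P ^ (1 / 4 : ℝ) * R ^ (1 / 4 : ℝ))
        * (P ^ (3 / 4 : ℝ) * R ^ (3 / 4 : ℝ)) := by
        conv_lhs => rw [e P hP, e R hR]
        ring
    _ ≤ x * Real.sqrt M * (P ^ (3 / 4 : ℝ) * R ^ (3 / 4 : ℝ)) := by gcongr
    _ ≤ _ := by gcongr

open Classical in
/-- the size of the part in `Q` -/
noncomputable def xr (Q : Set K3) (k : K3) (a : C3) : ℝ := if k ∈ Q then bt k a else 0

lemma xr_nonneg (Q : Set K3) (k : K3) (a : C3) : 0 ≤ xr Q k a := by
  unfold xr
  have := bt_nonneg k a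
  split_ifs <;> simp [this]

/-- The bound of the production by one triad, with weights. -/
theorem Gw_le (hη : IsWeight η) {H : ℝ} (hH : ∀ a b c, |η a b c| ≤ H) {Q : Set K3}
    {K θ₁ θ₂ C : ℝ} (hC : 0 ≤ C) (hX : StrongSmall η Q K θ₁ θ₂ C)
    (h : k + p + q = 0) (ha : dp (kc k) a = 0) (hb : dp (kc p) b = 0) (hc : dp (kc q) c = 0) :
    ‖∑ r : Bool, ∑ s : Bool, ∑ t : Bool, (η (k, r) (p, s) (q, t) : ℂ) *
      G3 k p q (par r k a) (par s p b) (par t q c)‖
    ≤ 108 * (H * (xr Q k a * (kn p * bt p b) * (kn q * bt q c)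
      + (kn k * bt k a) * xr Q p b * (kn q * bt q c)
      + (kn k * bt k a) * (kn p * bt p b) * xr Q q c)
      + H * (ex K θ₁ θ₂ k p q * (bt k a * bt p b * bt q c))
      + C * (bt k a * (k34 p * bt p b) * (k34 q * bt q c))) := by
  classical
  have hH0 : 0 ≤ H := (abs_nonneg _).trans (hH (k, true) (p, true) (q, true))
  have hk0 := kn_nonneg k
  have hp0 := kn_nonneg p
  have hq0 := kn_nonneg q
  have hk4 := k34_nonneg p
  have hk4' := k34_nonneg q
  have b1 := bt_nonneg k a
  have b2 := bt_nonneg p b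
  have b3 := bt_nonneg q c
  have x1 := xr_nonneg Q k a
  have x2 := xr_nonneg Q p b
  have x3 := xr_nonneg Q q c
  have hex := ex_nonneg K θ₁ θ₂ k p q
  by_cases h0 : k = 0 ∨ p = 0 ∨ q = 0
  · simp_rw [G3_zero h h0]
    simp only [mul_zero, Finset.sum_const_zero, norm_zero]
    positivity
  push Not at h0
  obtain ⟨hk, hp, hq⟩ := h0
  have key : ∀ r s t : Bool, ‖(η (k, r) (p, s) (q, t) : ℂ) *
      G3 k p q (par r k a) (par s p b) (par t q c)‖
      ≤ 108 * (H * ((if k ∈ Q then ‖par r k a‖ else 0) * (kn p * ‖par s p b‖) * (kn q * ‖par t q c‖)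
        + (kn k * ‖par r k a‖) * (if p ∈ Q then ‖par s p b‖ else 0) * (kn q * ‖par t q c‖)
        + (kn k * ‖par r k a‖) * (kn p * ‖par s p b‖)
          * (if q ∈ Q then ‖par t q c‖ else 0))
        + H * (ex K θ₁ θ₂ k p q * (‖par r k a‖ * ‖par s p b‖ * ‖par t q c‖))
        + C * (‖par r k a‖ * (k34 p * ‖par s p b‖) * (k34 q * ‖par t q c‖))) := by
    intro r s t
    have n1 := norm_nonneg (par r k a)
    have n2 := norm_nonneg (par s p b)
    have n3 := norm_nonneg (par t q c)
    have i1 : 0 ≤ (if k ∈ Q then ‖par r k a‖ else 0) := by positivity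
    have i2 : 0 ≤ (if p ∈ Q then ‖par s p b‖ else 0) := by positivity
    have i3 : 0 ≤ (if q ∈ Q then ‖par t q c‖ else 0) := by positivity
    have e1 : 0 ≤ H * ((if k ∈ Q then ‖par r k a‖ else 0) * (kn p * ‖par s p b‖)
      * (kn q * ‖par t q c‖)) := by positivity
    have e2 : 0 ≤ H * ((kn k * ‖par r k a‖) * (if p ∈ Q then ‖par s p b‖ else 0)
      * (kn q * ‖par t q c‖)) := by positivity
    have e3 : 0 ≤ H * ((kn k * ‖par r k a‖) * (kn p * ‖par s p b‖)
          * (if q ∈ Q then ‖par t q c‖ else 0)) := by positivity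
    have e4 : 0 ≤ H * (ex K θ₁ θ₂ k p q * (‖par r k a‖ * ‖par s p b‖ * ‖par t q c‖)) := by
      positivity
    have e5 : 0 ≤ C * (‖par r k a‖ * (k34 p * ‖par s p b‖) * (k34 q * ‖par t q c‖)) := by
      positivity
    by_cases hmix : r = s ∧ s = t
    · obtain ⟨rfl, rfl⟩ := hmix
      rw [G3_homo h ha hb hc, mul_zero, norm_zero]
      linarith
    · by_cases hcol : crossProduct k p = 0
      · rw [G3_col h hp hq hcol ha hb hc, mul_zero, norm_zero]; linarith
      · obtain ⟨c1, c2, c3⟩ := B3_mixed h ha hb hc hmix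
        rw [norm_mul, Complex.norm_real, Real.norm_eq_abs]
        set x := |η (k, r) (p, s) (q, t)| with hx
        have hx0 : 0 ≤ x := abs_nonneg _
        have hxH : x ≤ H := hH _ _ _
        set G := ‖G3 k p q (par r k a) (par s p b) (par t q c)‖ with hG
        set M := ‖par r k a‖ * ‖par s p b‖ * ‖par t q c‖ with hM
        have hM0 : 0 ≤ M := by positivity
        have up : ∀ y : ℝ, 0 ≤ y → G ≤ 108 * y → x * G ≤ 108 * (H * y) := by
          intro y hy hGy
          calc x * G ≤ H * (108 * y) := by gcongr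
            _ = _ := by ring
        rcases Alt2_mixed hη hX h hcol ha hb hc hmix with hx | hx | hx | hx | hx
        · have := up _ (by positivity) hx
          linarith
        · have := up (kn p * kn q * M) (by positivity) c1
          rw [if_pos hx] at e1 ⊢
          have e : H * (kn p * kn q * M)
            = H * (‖par r k a‖ * (kn p * ‖par s p b‖) * (kn q * ‖par t q c‖)) := by
            rw [hM]; ring
          linarith
        · have := up (kn q * kn k * M) (by positivity) c2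
          rw [if_pos hx] at e2 ⊢
          have e : H * (kn q * kn k * M)
            = H * ((kn k * ‖par r k a‖) * ‖par s p b‖ * (kn q * ‖par t q c‖)) := by
            rw [hM]; ring
          linarith
        · have := up (kn k * kn p * M) (by positivity) c3
          rw [if_pos hx] at e3 ⊢
          have e : H * (kn k * kn p * M)
            = H * ((kn k * ‖par r k a‖) * (kn p * ‖par s p b‖) * ‖par t q c‖) := by
            rw [hM]; ring
          linarith
        · unfold SmallAt at hx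
          have h5 := small_pair hx0 hp0 hq0
            ((le_max_left (kn p) (kn q)).trans (le_max_right (kn k) _))
            ((le_max_right (kn p) (kn q)).trans (le_max_right (kn k) _)) hx
          have h6 : x * G ≤ 108 * (C * (‖par r k a‖ * (k34 p * ‖par s p b‖)
              * (k34 q * ‖par t q c‖))) := by
            calc x * G ≤ x * (108 * (kn p * kn q * M)) := by gcongr
              _ = 108 * ((x * (kn p * kn q)) * M) := by ring
              _ ≤ 108 * ((C * (kn p ^ (3 / 4 : ℝ) * kn q ^ (3 / 4 : ℝ))) * M) := by gcongr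
              _ = _ := by rw [hM]; unfold k34; ring
          linarith
  have hs : ‖∑ r : Bool, ∑ s : Bool, ∑ t : Bool, (η (k, r) (p, s) (q, t) : ℂ) *
      G3 k p q (par r k a) (par s p b) (par t q c)‖
      ≤ ∑ r : Bool, ∑ s : Bool, ∑ t : Bool,
        108 * (H * ((if k ∈ Q then ‖par r k a‖ else 0) * (kn p * ‖par s p b‖) * (kn q * ‖par t q c‖)
        + (kn k * ‖par r k a‖) * (if p ∈ Q then ‖par s p b‖ else 0) * (kn q * ‖par t q c‖)
        + (kn k * ‖par r k a‖) * (kn p * ‖par s p b‖)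
          * (if q ∈ Q then ‖par t q c‖ else 0))
        + H * (ex K θ₁ θ₂ k p q * (‖par r k a‖ * ‖par s p b‖ * ‖par t q c‖))
        + C * (‖par r k a‖ * (k34 p * ‖par s p b‖) * (k34 q * ‖par t q c‖))) := by
    refine (norm_sum_le _ _).trans (Finset.sum_le_sum fun r _ => ?_)
    refine (norm_sum_le _ _).trans (Finset.sum_le_sum fun s _ => ?_)
    exact (norm_sum_le _ _).trans (Finset.sum_le_sum fun t _ => key r s t)
  refine hs.trans (le_of_eq ?_)
  have q1 : xr Q k a = (if k ∈ Q then ‖par true k a‖ else 0) + (if k ∈ Q then ‖par false k a‖ else 0) := by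
    unfold xr bt
    split_ifs <;> simp
  have q2 : xr Q p b = (if p ∈ Q then ‖par true p b‖ else 0) + (if p ∈ Q then ‖par false p b‖ else 0) := by
    unfold xr bt
    split_ifs <;> simp
  have q3 : xr Q q c = (if q ∈ Q then ‖par true q c‖ else 0) + (if q ∈ Q then ‖par false q c‖ else 0) := by
    unfold xr bt
    split_ifs <;> simp
  rw [q1, q2, q3]
  simp only [Fintype.sum_bool]
  unfold bt
  ring

end Pool.Agent.X96.DM
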