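import Pool.Agent.X96.DM.Est2

/-!
The limit of the Galerkin approximations: preparations.
-/

open MeasureTheory Set Filter Topology
open scoped ENNReal InnerProductSpace NNReal
open H459R3.NS Pool.Agent.X96.HT

namespace Pool.Agent.X96.DM

variable {η : Md → Md → Md → ℝ} {S : Finset K3}

/-- the majorant -/
noncomputable def be6 (C : ℝ) (k : K3) : ℝ := C * (mj k / (N k : ℝ) ^ 2)

lemma be6_nonneg {C : ℝ} (hC : 0 ≤ C) (k : K3) : 0 ≤ be6 C k := by
  unfold be6
  have := mj_nonneg k
  positivity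

lemma N_pos {k : K3} (hk : k ≠ 0) : 1 ≤ (N k : ℝ) := by
  have : 1 ≤ N k := Nat.one_le_iff_ne_zero.2 fun h => hk (N_eq_zero.1 h)
  exact_mod_cast this

lemma pw_be6 {C : ℝ} (hC : 0 ≤ C) (k : K3) : (1 + kn k) ^ 2 * be6 C k ≤ 9 * C * mj k := by
  unfold be6
  by_cases hk : k = 0
  · have : mj k = 0 := by unfold mj; rw [if_pos hk]
    rw [this]; simp
  · have h1 := N_pos hk
    have h2 := kn_le_N k
    have h3 := mj_nonneg k
    have h4 := kn_nonneg k
    have h5 : (1 + kn k) ^ 2 ≤ 9 * (N k : ℝ) ^ 2 := by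
      calc (1 + kn k) ^ 2 ≤ ((N k : ℝ) + 2 * N k) ^ 2 := by gcongr
        _ = _ := by ring
    calc (1 + kn k) ^ 2 * (C * (mj k / (N k : ℝ) ^ 2))
        ≤ 9 * (N k : ℝ) ^ 2 * (C * (mj k / (N k : ℝ) ^ 2)) := by gcongr
      _ = _ := by field_simp

lemma be6_summable {C : ℝ} (hC : 0 ≤ C) : Summable (be6 C) := by
  refine (mj_summable.mul_left (9 * C)).of_nonneg_of_le (be6_nonneg hC) fun k => ?_
  refine le_trans ?_ (pw_be6 hC k)
  have h1 := kn_nonneg k
  have h2 := be6_nonneg hC k
  have : 1 ≤ (1 + kn k) ^ 2 := one_le_pow₀ (by linarith)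
  nlinarith

lemma kn_be6_summable {C : ℝ} (hC : 0 ≤ C) : Summable fun k => kn k * be6 C k := by
  refine (mj_summable.mul_left (9 * C)).of_nonneg_of_le
    (fun k => mul_nonneg (kn_nonneg k) (be6_nonneg hC k)) fun k => ?_
  refine le_trans ?_ (pw_be6 hC k)
  have h1 := kn_nonneg k
  have h2 := be6_nonneg hC k
  have : kn k ≤ (1 + kn k) ^ 2 := by nlinarith
  nlinarith

lemma kn2_be6_le {C : ℝ} (hC : 0 ≤ C) (k : K3) : kn k ^ 2 * be6 C k ≤ 9 * C := by
  have h1 := kn_nonneg k
  have h2 := be6_nonneg hC k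
  have h3 : mj k ≤ 1 := by
    unfold mj
    split_ifs with h
    · norm_num
    · have := N_pos h
      rw [div_le_one (by positivity)]
      exact one_le_pow₀ this
  calc kn k ^ 2 * be6 C k ≤ (1 + kn k) ^ 2 * be6 C k := by gcongr; linarith
    _ ≤ 9 * C * mj k := pw_be6 hC k
    _ ≤ 9 * C * 1 := by gcongr
    _ = _ := mul_one _

/-- uniform bounds of all weighted norms -/
lemma le_be6 {B : ℕ → ℝ} {x : C3} {k : K3} (h0 : k = 0 → x = 0)
    (h : ∀ m, kn k ^ m * ‖x‖ ^ 2 ≤ B m) : ‖x‖ ≤ be6 (Real.sqrt (B 12)) k := by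
  by_cases hk : k = 0
  · rw [h0 hk, norm_zero]; exact be6_nonneg (Real.sqrt_nonneg _) _
  · have h1 := N_pos hk
    have h2 := N_le_kn k
    have h3 := h 12
    have h4 : (N k : ℝ) ^ 6 * ‖x‖ ≤ Real.sqrt (B 12) := by
      refine Real.le_sqrt_of_sq_le (le_trans ?_ h3)
      have : ((N k : ℝ) ^ 6 * ‖x‖) ^ 2 = (N k : ℝ) ^ 12 * ‖x‖ ^ 2 := by ring
      rw [this]
      gcongr
    unfold be6 mj
    rw [if_neg hk]
    rw [div_div, ← pow_add, mul_one_div, le_div_iff₀ (by positivity), mul_comm]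
    exact h4

lemma nonl_eq_tsum (U : K3 → C3) (k : K3) : nonl η U k = ∑' p, bil η k p (k - p) (U p) (U (k - p)) := rfl

/-- the nonlinear term under a uniform bound -/
lemma norm_nonl_le {H : ℝ} (hH : ∀ a b c, |η a b c| ≤ H) {U : K3 → C3} {C : ℝ} (hC : 0 ≤ C)
    (hU : ∀ k, ‖U k‖ ≤ be6 C k) (k : K3) :
    ‖nonl η U k‖ ≤ cB H * (2 * ((∑' p, kn p * be6 C p) * ∑' p, be6 C p)) := by
  have hH0 : 0 ≤ H := (abs_nonneg _).trans (hH (0, true) (0, true) (0, true))
  have hcB := cB_nonneg hH0
  have hb := be6_summable hC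
  have hb0 := be6_nonneg hC
  have hkb := kn_be6_summable hC
  have hkb0 : ∀ k, 0 ≤ kn k * be6 C k := fun k => mul_nonneg (kn_nonneg k) (hb0 k)
  set M0 := ∑' p, be6 C p with hM0
  set M1 := ∑' p, kn p * be6 C p with hM1
  have hle : ∀ p, be6 C p ≤ M0 := fun p => hb.le_tsum p fun _ _ => hb0 _
  have hle1 : ∀ p, kn p * be6 C p ≤ M1 := fun p => hkb.le_tsum p fun _ _ => hkb0 _
  have hM00 : 0 ≤ M0 := (hb0 0).trans (hle 0)
  have hM10 : 0 ≤ M1 := (hkb0 0).trans (hle1 0)
  have hterm : ∀ p, ‖bil η k p (k - p) (U p) (U (k - p))‖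
      ≤ cB H * ((kn p * be6 C p) * M0 + be6 C p * M1) := by
    intro p
    refine (norm_bil_le hH (by abel) _ _).trans ?_
    have e1 : kn k ≤ kn p + kn (k - p) := by
      have := kn_add_le p (k - p)
      rwa [add_sub_cancel] at this
    have e2 := hb0 p
    have e3 := hb0 (k - p)
    have e4 := kn_nonneg k
    have e5 := kn_nonneg p
    have e6 := kn_nonneg (k - p)
    calc cB H * kn k * (‖U p‖ * ‖U (k - p)‖)
        ≤ cB H * (kn p + kn (k - p)) * (be6 C p * be6 C (k - p)) := by
          gcongr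
          · exact hU _
          · exact hU _
      _ = cB H * ((kn p * be6 C p) * be6 C (k - p) + be6 C p * (kn (k - p) * be6 C (k - p))) := by ring
      _ ≤ _ := by
          gcongr
          · exact hle _
          · exact hle1 _
  have hs : Summable fun p => cB H * ((kn p * be6 C p) * M0 + be6 C p * M1) :=
    ((hkb.mul_right M0).add (hb.mul_right M1)).mul_left _
  rw [nonl_eq_tsum]
  refine (norm_tsum_le_tsum_norm (hs.of_nonneg_of_le (fun _ => norm_nonneg _) hterm)).trans ?_
  refine ((hs.of_nonneg_of_le (fun _ => norm_nonneg _) hterm).tsum_le_tsum hterm hs).trans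
    (le_of_eq ?_)
  rw [tsum_mul_left, ((hkb.mul_right M0)).tsum_add (hb.mul_right M1), tsum_mul_right,
    tsum_mul_right]
  ring


lemma norm_nonl_sub_le {H : ℝ} (hH : ∀ a b c, |η a b c| ≤ H) {U W : K3 → C3} {β : K3 → ℝ}
    (hb : Summable β) (hU : ∀ k, ‖U k‖ ≤ β k) (hW : ∀ k, ‖W k‖ ≤ β k) {d : ℝ}
    (hd : ∀ k, ‖U k - W k‖ ≤ d) (k : K3) :
    ‖nonl η U k - nonl η W k‖ ≤ cB H * kn k * (2 * (d * ∑' p, β p)) := by
  have hH0 : 0 ≤ H := (abs_nonneg _).trans (hH (0, true) (0, true) (0, true))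
  have hcB := cB_nonneg hH0
  have hk := kn_nonneg k
  have hb0 : ∀ k, 0 ≤ β k := fun k => (norm_nonneg _).trans (hU k)
  have hUs : Summable fun k => ‖U k‖ := hb.of_nonneg_of_le (fun _ => norm_nonneg _) hU
  have hWs : Summable fun k => ‖W k‖ := hb.of_nonneg_of_le (fun _ => norm_nonneg _) hW
  have hd0 : 0 ≤ d := (norm_nonneg _).trans (hd 0)
  have hbk : Summable fun p => β (k - p) := (Equiv.subLeft k).summable_iff.2 hb
  have hterm : ∀ p, ‖bil η k p (k - p) (U p) (U (k - p)) - bil η k p (k - p) (W p) (W (k - p))‖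
      ≤ cB H * kn k * (d * β (k - p) + d * β p) := by
    intro p
    have e : bil η k p (k - p) (U p) (U (k - p)) - bil η k p (k - p) (W p) (W (k - p))
        = bil η k p (k - p) (U p - W p) (U (k - p)) + bil η k p (k - p) (W p) (U (k - p) - W (k - p)) := by
      rw [bil_sub_left, bil_sub_right]; abel
    rw [e]
    have h1 := norm_bil_le (η := η) hH (k := k) (p := p) (q := k - p) (by abel) (U p - W p) (U (k - p))
    have h2 := norm_bil_le (η := η) hH (k := k) (p := p) (q := k - p) (by abel) (W p)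
      (U (k - p) - W (k - p))
    calc _ ≤ cB H * kn k * (‖U p - W p‖ * ‖U (k - p)‖)
          + cB H * kn k * (‖W p‖ * ‖U (k - p) - W (k - p)‖) := (norm_add_le _ _).trans (add_le_add h1 h2)
      _ ≤ cB H * kn k * (d * β (k - p)) + cB H * kn k * (β p * d) := by
          have := hb0 p
          gcongr
          · exact hd p
          · exact hU _
          · exact hW _
          · exact hd _
      _ = _ := by ring
  have hs : Summable fun p => cB H * kn k * (d * β (k - p) + d * β p) :=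
    ((hbk.mul_left d).add (hb.mul_left d)).mul_left _
  rw [nonl_eq_tsum, nonl_eq_tsum, ← (bil_summable hH hUs hUs k).of_norm.tsum_sub
    (bil_summable hH hWs hWs k).of_norm]
  have hs' := hs.of_nonneg_of_le (fun _ => norm_nonneg _) hterm
  refine (norm_tsum_le_tsum_norm hs').trans ((hs'.tsum_le_tsum hterm hs).trans (le_of_eq ?_))
  rw [tsum_mul_left, (hbk.mul_left d).tsum_add (hb.mul_left d), tsum_mul_left, tsum_mul_left]
  have e : ∑' p, β (k - p) = ∑' p, β p := (Equiv.subLeft k).tsum_eq β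
  rw [e]
  ring

lemma hel_continuous (s : Bool) (k : K3) : Continuous (hel s k) := by
  by_cases hk : k = 0
  · subst hk
    have : hel s 0 = fun _ => 0 := by funext a; exact hel_at_zero s a
    rw [this]; exact continuous_const
  · unfold hel
    simp only [if_neg hk]
    refine continuous_pi fun j => ?_
    have h1 : Continuous fun a : C3 => dp (kc k) a := by unfold dp; fun_prop
    have h2 : Continuous fun a : C3 => cp (kc k) a j := by
      fin_cases j <;> simp [cp] <;> fun_prop
    fun_prop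

lemma bil_continuous (k p q : K3) : Continuous fun z : C3 × C3 => bil η k p q z.1 z.2 := by
  unfold bil
  refine continuous_finsetSum _ fun r _ => continuous_finsetSum _ fun s _ =>
    continuous_finsetSum _ fun t _ => ?_
  have h1 : Continuous fun z : C3 × C3 => dp (kc q) (hel s p z.1) := by
    have h2 : Continuous fun z : C3 × C3 => hel s p z.1 := (hel_continuous s p).comp continuous_fst
    unfold dp
    fun_prop
  have h3 : Continuous fun z : C3 × C3 => hel t q z.2 := (hel_continuous t q).comp continuous_snd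
  have h4 : Continuous fun z : C3 × C3 =>
      hel r k ((2 * Real.pi * Complex.I * dp (kc q) (hel s p z.1)) • hel t q z.2) :=
    (hel_continuous r k).comp ((continuous_const.mul h1).smul h3)
  exact (continuous_const (y := ((η (-k, r) (p, s) (q, t) : ℝ) : ℂ))).smul h4

end Pool.Agent.X96.DM
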