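import Pool.Agent.X96.DM.Lim

/-!
The limit of the Galerkin approximations.
-/

open MeasureTheory Set Filter Topology
open scoped ENNReal InnerProductSpace NNReal
open H459R3.NS Pool.Agent.X96.HT

namespace Pool.Agent.X96.DM

variable {η : Md → Md → Md → ℝ} {S : Finset K3}

/-- the right-hand side -/
noncomputable def Fk (η : Md → Md → Md → ℝ) (ν' : ℝ) (U : K3 → C3) (k : K3) : C3 :=
  -((ν' * kn k ^ 2 : ℝ) : ℂ) • U k - nonl η U k

lemma Fk_apply (ν' : ℝ) (U : K3 → C3) (k : K3) (i : Fin 3) :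
    Fk η ν' U k i = -((ν' * kn k ^ 2 : ℝ) : ℂ) * U k i - nonl η U k i := rfl

lemma Gal.vec {ν' T : ℝ} {a : ℝ → K3 → C3} (h : Gal η ν' T S a) {t : ℝ} (ht : t ∈ Icc 0 T) {k : K3}
    (hk : k ∈ S) : HasDerivWithinAt (fun s => a s k) (Fk η ν' (a t) k) (Icc 0 T) t :=
  hasDerivWithinAt_pi.2 fun i => h.deriv t ht k hk i

/-- the Lipschitz constant -/
noncomputable def LL (ν' H C : ℝ) : ℝ :=
  |ν'| * (9 * C) + cB H * (2 * ((∑' p, kn p * be6 C p) * ∑' p, be6 C p))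

noncomputable def L2 (ν' H C : ℝ) (k : K3) : ℝ :=
  |ν'| * kn k ^ 2 * LL ν' H C + cB H * kn k * (2 * (LL ν' H C * ∑' p, be6 C p))

lemma norm_visc (ν' : ℝ) (k : K3) (x : C3) :
    ‖-((ν' * kn k ^ 2 : ℝ) : ℂ) • x‖ = |ν'| * kn k ^ 2 * ‖x‖ := by
  rw [norm_smul, norm_neg, Complex.norm_real, Real.norm_eq_abs, abs_mul,
    abs_of_nonneg (by positivity : 0 ≤ kn k ^ 2)]

lemma norm_Fk_le {H : ℝ} (hH : ∀ a b c, |η a b c| ≤ H) {ν' : ℝ} {U : K3 → C3} {C : ℝ} (hC : 0 ≤ C)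
    (hU : ∀ k, ‖U k‖ ≤ be6 C k) (k : K3) : ‖Fk η ν' U k‖ ≤ LL ν' H C := by
  unfold Fk LL
  refine (norm_sub_le _ _).trans (add_le_add ?_ (norm_nonl_le hH hC hU k))
  rw [norm_visc, mul_assoc]
  refine mul_le_mul_of_nonneg_left ?_ (abs_nonneg _)
  calc kn k ^ 2 * ‖U k‖ ≤ kn k ^ 2 * be6 C k := by gcongr; exact hU k
    _ ≤ _ := kn2_be6_le hC k

lemma Gal.lip {ν' T : ℝ} {a : ℝ → K3 → C3} (h : Gal η ν' T S a) {H : ℝ}
    (hH : ∀ a b c, |η a b c| ≤ H) {C : ℝ} (hC : 0 ≤ C)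
    (hU : ∀ t ∈ Icc 0 T, ∀ k, ‖a t k‖ ≤ be6 C k) {s t : ℝ} (hs : s ∈ Icc 0 T) (ht : t ∈ Icc 0 T)
    (k : K3) : ‖a s k - a t k‖ ≤ LL ν' H C * |s - t| := by
  by_cases hk : k ∈ S
  · have := (convex_Icc 0 T).norm_image_sub_le_of_norm_hasDerivWithin_le
      (f := fun s => a s k) (f' := fun s => Fk η ν' (a s) k) (C := LL ν' H C)
      (fun r hr => h.vec hr hk) (fun r hr => norm_Fk_le hH hC (hU r hr) k) ht hs
    simpa using this
  · rw [h.supp s k hk, h.supp t k hk, sub_zero, norm_zero]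
    have := norm_Fk_le (ν' := ν') hH hC (hU s hs) k
    have h2 := (norm_nonneg _).trans this
    positivity

lemma Fk_sub_le {H : ℝ} (hH : ∀ a b c, |η a b c| ≤ H) {ν' : ℝ} {U W : K3 → C3} {C : ℝ} (hC : 0 ≤ C)
    (hU : ∀ k, ‖U k‖ ≤ be6 C k) (hW : ∀ k, ‖W k‖ ≤ be6 C k) {d : ℝ}
    (hd : ∀ k, ‖U k - W k‖ ≤ LL ν' H C * d) (k : K3) :
    ‖Fk η ν' U k - Fk η ν' W k‖ ≤ L2 ν' H C k * d := by
  have e : Fk η ν' U k - Fk η ν' W k = -((ν' * kn k ^ 2 : ℝ) : ℂ) • (U k - W k)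
      - (nonl η U k - nonl η W k) := by
    unfold Fk; rw [smul_sub]; abel
  rw [e]
  refine (norm_sub_le _ _).trans ?_
  have h1 := norm_nonl_sub_le hH (be6_summable hC) hU hW hd k
  rw [norm_visc]
  calc |ν'| * kn k ^ 2 * ‖U k - W k‖ + ‖nonl η U k - nonl η W k‖
      ≤ |ν'| * kn k ^ 2 * (LL ν' H C * d)
        + cB H * kn k * (2 * (LL ν' H C * d * ∑' p, be6 C p)) := by
        gcongr
        exact hd k
    _ = _ := by unfold L2; ring

lemma Gal.taylor {ν' T : ℝ} {a : ℝ → K3 → C3} (h : Gal η ν' T S a) {H : ℝ}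
    (hH : ∀ a b c, |η a b c| ≤ H) {C : ℝ} (hC : 0 ≤ C)
    (hU : ∀ t ∈ Icc 0 T, ∀ k, ‖a t k‖ ≤ be6 C k) {s t : ℝ} (hs : s ∈ Icc 0 T) (ht : t ∈ Icc 0 T)
    {k : K3} (hk : k ∈ S) :
    ‖a s k - a t k - (s - t) • Fk η ν' (a t) k‖ ≤ L2 ν' H C k * |s - t| * |s - t| := by
  have hsub : uIcc t s ⊆ Icc 0 T := uIcc_subset_Icc ht hs
  have h1 : ∀ r ∈ uIcc t s, HasDerivWithinAt (fun r => a r k - r • Fk η ν' (a t) k)
      (Fk η ν' (a r) k - (1 : ℝ) • Fk η ν' (a t) k) (uIcc t s) r := fun r hr =>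
    ((h.vec (hsub hr) hk).mono hsub).sub ((hasDerivWithinAt_id r _).smul_const _)
  have h2 : ∀ r ∈ uIcc t s, ‖Fk η ν' (a r) k - (1 : ℝ) • Fk η ν' (a t) k‖
      ≤ L2 ν' H C k * |s - t| := by
    intro r hr
    rw [one_smul]
    refine (Fk_sub_le hH hC (hU r (hsub hr)) (hU t ht) (d := |r - t|)
      (fun p => h.lip hH hC hU (hsub hr) ht p) k).trans ?_
    have h3 : |r - t| ≤ |s - t| := abs_sub_left_of_mem_uIcc hr
    have h4 : 0 ≤ L2 ν' H C k := by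
      have h5 := Fk_sub_le (ν' := ν') hH hC (hU t ht) (hU t ht) (d := 1) (fun p => by
        rw [sub_self, norm_zero, mul_one]
        exact (norm_nonneg _).trans (norm_Fk_le (ν' := ν') hH hC (hU t ht) 0)) k
      rw [sub_self, norm_zero, mul_one] at h5
      exact h5
    gcongr
  have h5 := (convex_uIcc t s).norm_image_sub_le_of_norm_hasDerivWithin_le h1 h2 left_mem_uIcc
    right_mem_uIcc
  have e : a s k - s • Fk η ν' (a t) k - (a t k - t • Fk η ν' (a t) k)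
      = a s k - a t k - (s - t) • Fk η ν' (a t) k := by
    rw [sub_smul]; abel
  rw [e, Real.norm_eq_abs] at h5
  exact h5

/-- the frequencies of the approximations -/
noncomputable def Fn (n : ℕ) : Finset K3 := (finite_cube n).toFinset.erase 0

lemma mem_Fn {n : ℕ} {k : K3} : k ∈ Fn n ↔ k ≠ 0 ∧ N k ≤ n := by
  unfold Fn
  simp

lemma Fn_neg {n : ℕ} : ∀ k ∈ Fn n, -k ∈ Fn n := by
  intro k hk
  rw [mem_Fn] at hk ⊢
  exact ⟨neg_ne_zero.2 hk.1, by rw [N_neg]; exact hk.2⟩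

lemma zero_notMem_Fn {n : ℕ} : (0 : K3) ∉ Fn n := fun h => (mem_Fn.1 h).1 rfl

/-- truncation -/
noncomputable def tr (n : ℕ) (U : K3 → C3) (k : K3) : C3 := by
  classical exact if k ∈ Fn n then U k else 0

lemma tr_not {n : ℕ} (U : K3 → C3) {k : K3} (h : k ∉ Fn n) : tr n U k = 0 := if_neg h

lemma tr_mem {n : ℕ} (U : K3 → C3) {k : K3} (h : k ∈ Fn n) : tr n U k = U k := if_pos h

lemma norm_tr_le (n : ℕ) (U : K3 → C3) (k : K3) (i : Fin 3) : ‖tr n U k i‖ ≤ ‖U k i‖ := by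
  by_cases h : k ∈ Fn n
  · rw [tr_mem U h]
  · rw [tr_not U h]; simp

lemma hn_tr_le {U : K3 → C3} (hU : RapV U) (n m : ℕ) : hn m (tr n U) ≤ hn m U := by
  unfold hn
  refine Summable.tsum_le_tsum (fun k => ?_) ?_ (hU.hn_summable m)
  · have := kn_nonneg k
    gcongr with i
    exact norm_tr_le n U k i
  · exact (rapV_fin (S := Fn n) fun k hk => tr_not U hk).hn_summable m

lemma pow_sq_le_hn {U : K3 → C3} (hU : RapV U) (m : ℕ) (k : K3) : kn k ^ m * ‖U k‖ ^ 2 ≤ hn m U := by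
  unfold hn
  have h1 := (hU.hn_summable m).le_tsum k fun j _ => by
    have := kn_nonneg j
    positivity
  refine le_trans ?_ h1
  have := kn_nonneg k
  gcongr
  exact sq_le_sum (U k)

end Pool.Agent.X96.DM
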