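import Pool.Agent.X96.DM.Lim2

/-!
The limit of the Galerkin approximations: the theorem.
-/

open MeasureTheory Set Filter Topology
open scoped ENNReal InnerProductSpace NNReal
open H459R3.NS Pool.Agent.X96.HT

namespace Pool.Agent.X96.DM

variable {η : Md → Md → Md → ℝ}

lemma hasDerivAt_of_taylor {f : ℝ → C3} {d : C3} {L t : ℝ}
    (h : ∀ᶠ s in 𝓝 t, ‖f s - f t - (s - t) • d‖ ≤ L * |s - t| * |s - t|) : HasDerivAt f d t := by
  rw [hasDerivAt_iff_isLittleO]
  have h1 : (fun s => f s - f t - (s - t) • d) =O[𝓝 t] fun s => ‖s - t‖ ^ 2 := by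
    refine Asymptotics.IsBigO.of_bound L ?_
    filter_upwards [h] with s hs
    rw [norm_pow, norm_norm, Real.norm_eq_abs]
    refine hs.trans (le_of_eq (by ring))
  exact h1.trans_isLittleO (Asymptotics.isLittleO_pow_sub_sub t (by norm_num))

lemma tendsto_bil {𝓕 : Filter ℕ} {A B : ℕ → C3}
    {a b : C3} (k p q : K3) (h1 : Tendsto A 𝓕 (𝓝 a)) (h2 : Tendsto B 𝓕 (𝓝 b)) :
    Tendsto (fun n => bil η k p q (A n) (B n)) 𝓕 (𝓝 (bil η k p q a b)) := by
  have h3 := (bil_continuous (η := η) k p q).continuousAt (x := (a, b))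
  have h4 := h1.prodMk_nhds h2
  have h5 := h3.tendsto.comp h4
  exact h5

/-- the nonlinear term is continuous under domination -/
lemma tendsto_nonl {H : ℝ} (hH : ∀ a b c, |η a b c| ≤ H) {𝓕 : Filter ℕ} {A : ℕ → K3 → C3}
    {a : K3 → C3} {β : K3 → ℝ} (hb : Summable β) (hb0 : ∀ k, 0 ≤ β k)
    (hA : ∀ᶠ n in 𝓕, ∀ k, ‖A n k‖ ≤ β k) (hl : ∀ k, Tendsto (fun n => A n k) 𝓕 (𝓝 (a k))) (k : K3) :
    Tendsto (fun n => nonl η (A n) k) 𝓕 (𝓝 (nonl η a k)) := by
  have hH0 : 0 ≤ H := (abs_nonneg _).trans (hH (0, true) (0, true) (0, true))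
  have hcB := cB_nonneg hH0
  have hk := kn_nonneg k
  have hterm : ∀ p, Tendsto (fun n => bil η k p (k - p) (A n p) (A n (k - p))) 𝓕
      (𝓝 (bil η k p (k - p) (a p) (a (k - p)))) := by
    intro p
    exact tendsto_bil k p (k - p) (hl p) (hl (k - p))
  have hs : Summable fun p => cB H * kn k * (β p * ∑' m, β m) := (hb.mul_right _).mul_left _
  unfold nonl
  refine tendsto_tsum_of_dominated_convergence hs hterm ?_
  · filter_upwards [hA] with n hn p
    refine (norm_bil_le hH (by abel) _ _).trans ?_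
    have := hb0 p
    gcongr
    · exact hn p
    · exact (hn _).trans (hb.le_tsum _ fun _ _ => hb0 _)

/-- bounds of the Galerkin approximations which are uniform in the time and in the set of
frequencies -/
def APr (η : Md → Md → Md → ℝ) (ν' : ℝ) : Prop :=
  ∀ A₀ : ℕ → ℝ, ∃ B : ℕ → ℝ, ∀ (S : Finset K3), (0 : K3) ∉ S → ∀ (T : ℝ) (a : ℝ → K3 → C3),
    Gal η ν' T S a → (∀ m, hn m (a 0) ≤ A₀ m) → ∀ t ∈ Icc 0 T, ∀ m, hn m (a t) ≤ B m

theorem exists_lim (hη : IsWeight η) {ν' : ℝ} (hν : 0 < ν') (hap : APr η ν') {U₀ : K3 → C3}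
    (hU : RapV U₀)
    (h00 : U₀ 0 = 0) (hdiv : ∀ k, dp (kc k) (U₀ k) = 0) (hreal : ∀ k, U₀ (-k) = cj (U₀ k)) :
    ∃ (a : ℝ → K3 → C3) (B : ℕ → ℝ), a 0 = U₀ ∧ (∀ t k, a t (-k) = cj (a t k)) ∧
      (∀ t k, dp (kc k) (a t k) = 0) ∧ (∀ t, a t 0 = 0) ∧
      (∀ t k m, kn k ^ m * ‖a t k‖ ^ 2 ≤ B m) ∧ (∀ k, Continuous fun t => a t k) ∧
      (∀ t, 0 < t → ∀ k, HasDerivAt (fun s => a s k) (Fk η ν' (a t) k) t) := by
  obtain ⟨H, hH⟩ := hη.bdd
  have hH0 : 0 ≤ H := (abs_nonneg _).trans (hH (0, true) (0, true) (0, true))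
  obtain ⟨B, hB⟩ := hap (fun m => hn m U₀)
  have hex : ∀ n : ℕ, ∃ a, Gal η ν' n (Fn n) a ∧ a 0 = tr n U₀ := by
    intro n
    refine exists_gal hη Fn_neg hν.le (Nat.cast_nonneg n) (fun k hk => tr_not U₀ hk) (fun k => ?_)
      fun k => ?_
    · by_cases hk : k ∈ Fn n
      · rw [tr_mem _ hk]; exact hdiv k
      · rw [tr_not _ hk]; unfold dp; simp
    · by_cases hk : k ∈ Fn n
      · rw [tr_mem _ hk, tr_mem _ (Fn_neg k hk)]; exact hreal k
      · have hk' : -k ∉ Fn n := fun h => hk (by simpa using Fn_neg _ h)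
        rw [tr_not _ hk, tr_not _ hk']; funext i; simp [cj]
  choose A hA hA0 using hex
  set C6 : ℝ := Real.sqrt (B 12) with hC6
  have hC60 : 0 ≤ C6 := Real.sqrt_nonneg _
  have hbd : ∀ n : ℕ, ∀ t ∈ Icc (0 : ℝ) n, ∀ k m, kn k ^ m * ‖A n t k‖ ^ 2 ≤ B m := by
    intro n t ht k m
    refine (pow_sq_le_hn (rapV_fin ((hA n).supp t)) m k).trans ?_
    refine hB (Fn n) zero_notMem_Fn n (A n) (hA n) (fun m => ?_) t ht m
    rw [hA0]
    exact hn_tr_le hU n m
  have hbe : ∀ n : ℕ, ∀ t ∈ Icc (0 : ℝ) n, ∀ k, ‖A n t k‖ ≤ be6 C6 k := by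
    intro n t ht k
    refine le_be6 (fun hk => ?_) fun m => hbd n t ht k m
    rw [hk]; exact (hA n).supp t 0 zero_notMem_Fn
  set 𝓕 : Ultrafilter ℕ := hyperfilter ℕ with h𝓕
  have hev : ∀ t : ℝ, 0 ≤ t → ∀ᶠ n : ℕ in (𝓕 : Filter ℕ), t ∈ Icc (0 : ℝ) n := by
    intro t ht
    have : ∀ᶠ n : ℕ in atTop, t ≤ n := eventually_ge_atTop ⌈t⌉₊ |>.mono fun n hn => Nat.ceil_le.1 hn
    have h2 := Nat.hyperfilter_le_atTop this
    exact Filter.Eventually.mono h2 fun n hn => ⟨ht, hn⟩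
  have hlim : ∀ (t : ℝ) (k : K3), ∃ x, Tendsto (fun n => A n (max t 0) k) 𝓕 (𝓝 x) := by
    intro t k
    have hc : IsCompact (Metric.closedBall (0 : C3) (be6 C6 k)) := isCompact_closedBall _ _
    obtain ⟨x, -, hx⟩ := hc.ultrafilter_le_nhds (𝓕.map fun n => A n (max t 0) k) (by
      rw [le_principal_iff]
      show ∀ᶠ n in (𝓕 : Filter ℕ), A n (max t 0) k ∈ Metric.closedBall (0 : C3) (be6 C6 k)
      refine (hev (max t 0) (le_max_right _ _)).mono fun n hn => ?_
      rw [mem_closedBall_zero_iff]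
      exact hbe n _ hn k)
    exact ⟨x, hx⟩
  choose a ha using hlim
  have hmax : ∀ t, a (max t 0) = a t := by
    intro t
    funext k
    have h1 := ha (max t 0) k
    rw [max_eq_left (le_max_right t 0)] at h1
    exact tendsto_nhds_unique h1 (ha t k)
  have hAe : ∀ t, ∀ᶠ n in (𝓕 : Filter ℕ), ∀ k, ‖A n (max t 0) k‖ ≤ be6 C6 k := fun t =>
    (hev (max t 0) (le_max_right _ _)).mono fun n hn k => hbe n _ hn k
  have hF : ∀ t k, Tendsto (fun n => Fk η ν' (A n (max t 0)) k) 𝓕 (𝓝 (Fk η ν' (a t) k)) := by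
    intro t k
    unfold Fk
    refine Tendsto.sub (Tendsto.const_smul (ha t k) _) ?_
    exact tendsto_nonl hH (be6_summable hC60) (be6_nonneg hC60) (hAe t) (ha t) k
  have hmem : ∀ k : K3, k ≠ 0 → ∀ᶠ n in (𝓕 : Filter ℕ), k ∈ Fn n := by
    intro k hk
    have : ∀ᶠ n : ℕ in atTop, N k ≤ n := eventually_ge_atTop (N k)
    exact Filter.Eventually.mono (Nat.hyperfilter_le_atTop this) fun n hn => mem_Fn.2 ⟨hk, hn⟩
  have ha00 : ∀ t, a t 0 = 0 := by
    intro t
    refine tendsto_nhds_unique (ha t 0) ?_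
    have : (fun n => A n (max t 0) 0) = fun _ => 0 := by
      funext n; exact (hA n).supp _ 0 zero_notMem_Fn
    rw [this]; exact tendsto_const_nhds
  have hLip : ∀ s t k, 0 ≤ s → 0 ≤ t → ‖a s k - a t k‖ ≤ LL ν' H C6 * |s - t| := by
    intro s t k hs ht
    have h1 : Tendsto (fun n => ‖A n (max s 0) k - A n (max t 0) k‖) 𝓕 (𝓝 ‖a s k - a t k‖) :=
      ((ha s k).sub (ha t k)).norm
    refine le_of_tendsto h1 ?_
    filter_upwards [hev s hs, hev t ht] with n hn1 hn2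
    rw [max_eq_left hs, max_eq_left ht]
    exact (hA n).lip hH hC60 (hbe n) hn1 hn2 k
  have hTay : ∀ s t k, 0 ≤ s → 0 ≤ t → ‖a s k - a t k - (s - t) • Fk η ν' (a t) k‖
      ≤ L2 ν' H C6 k * |s - t| * |s - t| := by
    intro s t k hs ht
    by_cases hk : k = 0
    · subst hk
      have : Fk η ν' (a t) 0 = 0 := by
        unfold Fk; rw [nonl_zero, ha00]; simp
      rw [this, ha00, ha00]
      have h2 : L2 ν' H C6 0 = 0 := by unfold L2; rw [kn_zero]; ring
      rw [h2]; simp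
    · have h1 : Tendsto (fun n => ‖A n (max s 0) k - A n (max t 0) k
          - (s - t) • Fk η ν' (A n (max t 0)) k‖) 𝓕
          (𝓝 ‖a s k - a t k - (s - t) • Fk η ν' (a t) k‖) :=
        (((ha s k).sub (ha t k)).sub (Tendsto.const_smul (hF t k) _)).norm
      refine le_of_tendsto h1 ?_
      filter_upwards [hev s hs, hev t ht, hmem k hk] with n hn1 hn2 hn3
      rw [max_eq_left hs, max_eq_left ht]
      exact (hA n).taylor hH hC60 (hbe n) hn1 hn2 hn3
  refine ⟨a, B, ?_, ?_, ?_, ha00, ?_, ?_, ?_⟩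
  · funext k
    refine tendsto_nhds_unique (ha 0 k) ?_
    rw [max_self]
    by_cases hk : k = 0
    · have : (fun n => A n 0 k) = fun _ => U₀ k := by
        funext n; rw [hk, h00]; exact (hA n).supp _ 0 zero_notMem_Fn
      rw [this]; exact tendsto_const_nhds
    · refine tendsto_const_nhds.congr' ?_
      filter_upwards [hmem k hk] with n hn
      rw [hA0, tr_mem _ hn]
  · intro t k
    have hcj : Continuous cj := by
      unfold cj
      exact continuous_pi fun i => Complex.continuous_conj.comp (continuous_apply i)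
    refine tendsto_nhds_unique (ha t (-k)) ?_
    have h1 := (hcj.tendsto (a t k)).comp (ha t k)
    refine h1.congr fun n => ?_
    exact ((hA n).real _ k).symm
  · intro t k
    have hdp : Continuous fun x : C3 => dp (kc k) x := by unfold dp; fun_prop
    refine tendsto_nhds_unique ((hdp.tendsto (a t k)).comp (ha t k)) ?_
    have : ((fun x : C3 => dp (kc k) x) ∘ fun n => A n (max t 0) k) = fun _ => 0 := by
      funext n; exact (hA n).div _ k
    rw [this]; exact tendsto_const_nhds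
  · intro t k m
    have h1 : Tendsto (fun n => kn k ^ m * ‖A n (max t 0) k‖ ^ 2) 𝓕 (𝓝 (kn k ^ m * ‖a t k‖ ^ 2)) :=
      (((ha t k).norm).pow 2).const_mul _
    refine le_of_tendsto h1 ?_
    filter_upwards [hev (max t 0) (le_max_right _ _)] with n hn
    exact hbd n _ hn k m
  · intro k
    have hl0 : 0 ≤ LL ν' H C6 := by
      have h1 : Tendsto (fun n => ‖Fk η ν' (A n (max 0 0)) k‖) 𝓕 (𝓝 ‖Fk η ν' (a 0) k‖) := (hF 0 k).norm
      have h2 : ‖Fk η ν' (a 0) k‖ ≤ LL ν' H C6 := le_of_tendsto h1 (by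
        filter_upwards [hAe 0] with n hn
        exact norm_Fk_le hH hC60 hn k)
      exact (norm_nonneg _).trans h2
    have h1 : ∀ s t, ‖a s k - a t k‖ ≤ LL ν' H C6 * |s - t| := by
      intro s t
      rw [← hmax s, ← hmax t]
      refine (hLip _ _ k (le_max_right _ _) (le_max_right _ _)).trans ?_
      refine mul_le_mul_of_nonneg_left ?_ hl0
      exact abs_max_sub_max_le_abs _ _ _
    have h2 : LipschitzWith (Real.toNNReal (LL ν' H C6)) fun t => a t k :=
      LipschitzWith.of_dist_le_mul fun s t => by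
        rw [Real.coe_toNNReal _ hl0, dist_eq_norm, dist_eq_norm]; exact h1 s t
    exact h2.continuous
  · intro t ht k
    refine hasDerivAt_of_taylor (L := L2 ν' H C6 k) ?_
    filter_upwards [lt_mem_nhds ht] with s hs
    exact hTay s t k hs.le ht.le

end Pool.Agent.X96.DM
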