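import Pool.Agent.X96.DM.Est2
import Pool.Agent.X96.DM.Lim2

/-!
The production of the norm of `H^{1/2}`: weights which are logarithmically larger.
-/

open MeasureTheory Set Filter Topology
open scoped ENNReal InnerProductSpace NNReal
open H459R3.NS Pool.Agent.X96.HT

namespace Pool.Agent.X96.DM

variable {η : Md → Md → Md → ℝ} {U : K3 → C3} {Q : Set K3}

/-- The weights of the strong mixed triads are small. A triad `a + b + c = 0` of frequencies, with
the same sign `s` of helicity for `a` and `b` and the opposite sign for `c`, is strong if it is not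
collinear, if the shortest of the three frequencies is longer than `K M^θ₁`, where `M` is the
length of the longest, and if `c` is longer than `K m^θ₂`, where `m` is the length of the longer one
of `a` and `b`. The condition: for all strong triads without element in `Q` the weight is at most
`C (log (3 + M) / M)^{1/2}`. -/
def StrongLog (η : Md → Md → Md → ℝ) (Q : Set K3) (K θ₁ θ₂ C : ℝ) : Prop :=
  ∀ (a b c : K3) (s : Bool), a + b + c = 0 → crossProduct a b ≠ 0 →
    K * max (kn a) (max (kn b) (kn c)) ^ θ₁ < min (kn a) (min (kn b) (kn c)) →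
    K * max (kn a) (kn b) ^ θ₂ < kn c →
    a ∉ Q → b ∉ Q → c ∉ Q → |η (a, s) (b, s) (c, !s)|
      * Real.sqrt (max (kn a) (max (kn b) (kn c)))
        ≤ C * Real.sqrt (Real.log (3 + max (kn a) (max (kn b) (kn c))))

/-- the length of the longest frequency -/
noncomputable def mx (x y z : Md) : ℝ := max (kn x.1) (max (kn y.1) (kn z.1))

/-- the part of the weights with long frequencies and small values -/
def Bg (η : Md → Md → Md → ℝ) (C R : ℝ) (x y z : Md) : Prop :=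
  R < mx x y z ∧ |η x y z| * Real.sqrt (mx x y z) ≤ C * Real.sqrt (Real.log (3 + mx x y z))

noncomputable def e2p (η : Md → Md → Md → ℝ) (C R : ℝ) (x y z : Md) : ℝ := by
  classical exact if Bg η C R x y z then η x y z else 0

noncomputable def e1p (η : Md → Md → Md → ℝ) (C R : ℝ) (x y z : Md) : ℝ := by
  classical exact if Bg η C R x y z then 0 else η x y z

lemma ep_add (η : Md → Md → Md → ℝ) (C R : ℝ) (x y z : Md) :
    η x y z = e1p η C R x y z + e2p η C R x y z := by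
  unfold e1p e2p
  split_ifs <;> simp

lemma mx_swap (x y z : Md) : mx y x z = mx x y z := by
  unfold mx; rw [← max_assoc, max_comm (kn y.1) (kn x.1), max_assoc]

lemma mx_rot (x y z : Md) : mx y z x = mx x y z := by
  unfold mx; rw [← max_assoc, max_comm]

lemma Bg_swap (hη : IsWeight η) (C R : ℝ) (x y z : Md) : Bg η C R y x z ↔ Bg η C R x y z := by
  unfold Bg; rw [mx_swap, hη.swap]

lemma Bg_rot (hη : IsWeight η) (C R : ℝ) (x y z : Md) : Bg η C R y z x ↔ Bg η C R x y z := by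
  unfold Bg; rw [mx_rot, hη.rot]

lemma Bg_neg (hη : IsWeight η) (C R : ℝ) (x y z : Md) :
    Bg η C R (-x.1, x.2) (-y.1, y.2) (-z.1, z.2) ↔ Bg η C R x y z := by
  unfold Bg mx
  simp only [kn_neg, hη.neg]

lemma abs_e1p_le {H : ℝ} (hH : ∀ a b c, |η a b c| ≤ H) (C R : ℝ) (x y z : Md) :
    |e1p η C R x y z| ≤ H := by
  have h0 := (abs_nonneg _).trans (hH x y z)
  unfold e1p
  split_ifs
  · rwa [abs_zero]
  · exact hH x y z

lemma e1p_pos {C R : ℝ} {x y z : Md} (h : Bg η C R x y z) : e1p η C R x y z = 0 := if_pos h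

lemma e1p_not {C R : ℝ} {x y z : Md} (h : ¬ Bg η C R x y z) : e1p η C R x y z = η x y z := if_neg h

lemma e1p_congr {C R : ℝ} {x y z x' y' z' : Md} (h : Bg η C R x' y' z' ↔ Bg η C R x y z)
    (h' : η x' y' z' = η x y z) : e1p η C R x' y' z' = e1p η C R x y z := by
  by_cases hB : Bg η C R x y z
  · rw [e1p_pos hB, e1p_pos (h.2 hB)]
  · rw [e1p_not hB, e1p_not fun hB' => hB (h.1 hB'), h']

lemma e1p_weight (hη : IsWeight η) (C R : ℝ) : IsWeight (e1p η C R) where
  swap := fun x y z => e1p_congr (Bg_swap hη C R x y z) (hη.swap x y z)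
  rot := fun x y z => e1p_congr (Bg_rot hη C R x y z) (hη.rot x y z)
  neg := fun x y z => e1p_congr (Bg_neg hη C R x y z) (hη.neg x y z)
  bdd := by
    obtain ⟨H, hH⟩ := hη.bdd
    exact ⟨H, abs_e1p_le hH C R⟩

lemma log_le_sqrt {x : ℝ} (hx : 1 ≤ x) : Real.log (3 + x) ≤ 4 * Real.sqrt x := by
  have h1 : 0 < 3 + x := by linarith
  have h2 : Real.log (3 + x) = 2 * Real.log (Real.sqrt (3 + x)) := by
    rw [Real.log_sqrt h1.le]; ring
  have h3 : Real.log (Real.sqrt (3 + x)) ≤ Real.sqrt (3 + x) - 1 :=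
    Real.log_le_sub_one_of_pos (Real.sqrt_pos.2 h1)
  have h4 : Real.sqrt (3 + x) ≤ 2 * Real.sqrt x := by
    rw [Real.sqrt_le_left (by positivity), mul_pow, Real.sq_sqrt (by linarith)]
    linarith
  linarith

lemma abs_e2p_le {C R : ℝ} (hC : 0 ≤ C) (hR : 1 ≤ R) (x y z : Md) :
    |e2p η C R x y z| ≤ 2 * C / Real.sqrt (Real.sqrt R) := by
  have hR0 : 0 < R := by linarith
  have hs : 0 < Real.sqrt (Real.sqrt R) := Real.sqrt_pos.2 (Real.sqrt_pos.2 hR0)
  unfold e2p
  split_ifs with h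
  · obtain ⟨h1, h2⟩ := h
    set m := mx x y z with hm
    have hm1 : 1 ≤ m := hR.trans h1.le
    have hm0 : 0 < m := by linarith
    have h3 : Real.sqrt (Real.log (3 + m)) ≤ 2 * Real.sqrt (Real.sqrt m) := by
      rw [Real.sqrt_le_left (by positivity), mul_pow, Real.sq_sqrt (Real.sqrt_nonneg _)]
      have := log_le_sqrt hm1
      linarith
    have h4 : Real.sqrt (Real.sqrt R) ≤ Real.sqrt (Real.sqrt m) :=
      Real.sqrt_le_sqrt (Real.sqrt_le_sqrt h1.le)
    have h5 : 0 < Real.sqrt (Real.sqrt m) := Real.sqrt_pos.2 (Real.sqrt_pos.2 hm0)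
    have h6 : Real.sqrt m = Real.sqrt (Real.sqrt m) * Real.sqrt (Real.sqrt m) :=
      (Real.mul_self_sqrt (Real.sqrt_nonneg _)).symm
    rw [le_div_iff₀ hs]
    have h7 : |η x y z| * Real.sqrt (Real.sqrt m) ≤ 2 * C := by
      have h8 : |η x y z| * Real.sqrt (Real.sqrt m) * Real.sqrt (Real.sqrt m)
          ≤ 2 * C * Real.sqrt (Real.sqrt m) := by
        calc _ = |η x y z| * Real.sqrt m := by rw [mul_assoc, ← h6]
          _ ≤ C * Real.sqrt (Real.log (3 + m)) := h2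
          _ ≤ C * (2 * Real.sqrt (Real.sqrt m)) := by gcongr
          _ = _ := by ring
      exact le_of_mul_le_mul_right h8 h5
    calc |η x y z| * Real.sqrt (Real.sqrt R) ≤ |η x y z| * Real.sqrt (Real.sqrt m) := by gcongr
      _ ≤ _ := h7
  · rw [abs_zero]; positivity

lemma e1p_strong {K θ₁ θ₂ C R : ℝ} (hC : 0 ≤ C) (hX : StrongLog η Q K θ₁ θ₂ C) :
    StrongSmall (e1p η C R) Q K θ₁ θ₂ (C * Real.sqrt (Real.log (3 + R))) := by
  intro a b c s h hcol h1 h2 ha hb hc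
  have h3 := hX a b c s h hcol h1 h2 ha hb hc
  have hm0 : 0 ≤ max (kn a) (max (kn b) (kn c)) := (kn_nonneg a).trans (le_max_left _ _)
  unfold e1p
  split_ifs with hB
  · rw [abs_zero, zero_mul]; positivity
  · have h4 : ¬ R < max (kn a) (max (kn b) (kn c)) := fun h5 => hB ⟨h5, h3⟩
    rw [not_lt] at h4
    refine h3.trans ?_
    gcongr

lemma fw_add (η₁ η₂ : Md → Md → Md → ℝ) (h : ∀ x y z, η x y z = η₁ x y z + η₂ x y z) (w : K3 → ℝ)
    (k p q : K3) : fw η w U k p q = fw η₁ w U k p q + fw η₂ w U k p q := by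
  unfold fw
  rw [← mul_add]
  congr 1
  simp only [← Finset.sum_add_distrib]
  refine Finset.sum_congr rfl fun r _ => Finset.sum_congr rfl fun s _ =>
    Finset.sum_congr rfl fun t _ => ?_
  rw [h]
  push_cast
  ring

lemma eh_b0 (hU : RapV U) : eh (b0 U) ≤ ENNReal.ofReal (3 * Real.sqrt (hn 1 U)) := by
  have h01 := hn_nonneg 1 U
  refine eh_le (fun k => bt_nonneg _ _) (by positivity) ((hU.hn_summable 1).mul_left 9)
    (fun k => ?_) ?_
  · have h1 := bt_sq_le k (U k)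
    have h2 := N_le_kn k
    have h3 : 0 ≤ ∑ i, ‖U k i‖ ^ 2 := by positivity
    have h4 := kn_nonneg k
    calc (N k : ℝ) * bt k (U k) ^ 2 ≤ kn k * (9 * ∑ i, ‖U k i‖ ^ 2) := by gcongr
      _ = _ := by ring
  · rw [tsum_mul_left, mul_pow, Real.sq_sqrt h01]
    unfold hn
    norm_num

/-- the critical bound -/
theorem prod_crit {H : ℝ} (hH : ∀ a b c, |η a b c| ≤ H) (hU : RapV U)
    (hdiv : ∀ k, dp (kc k) (U k) = 0) :
    ‖T3s (fw η (fun k => kn k ^ 1) U)‖ ≤ 64152 * H * (Real.sqrt (hn 1 U) * hn 3 U) := by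
  have hH0 : 0 ≤ H := (abs_nonneg _).trans (hH (0, true) (0, true) (0, true))
  have h1 := hn_nonneg 1 U
  have h3 := hn_nonneg 3 U
  have h := T_abs hH hdiv 1
  have e : bp ((1 + 1 : ℕ) / 2 : ℝ) U = be U := by
    funext k
    unfold bp be
    norm_num
  rw [e] at h
  have hb0 : be U 0 = 0 := by unfold be; rw [kn_zero, zero_mul, ENNReal.ofReal_zero]
  have h5 : ENNReal.ofReal ‖T3s (fw η (fun k => kn k ^ 1) U)‖
      ≤ ENNReal.ofReal (9 * H * 2 ^ (1 + 2) * (33 * (3 * Real.sqrt (hn 1 U) * (9 * hn 3 U)))) := by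
    refine h.trans ?_
    rw [ENNReal.ofReal_mul (p := 9 * H * 2 ^ (1 + 2)) (by positivity)]
    gcongr
    refine (tz_half (b0_zero U) hb0 hb0).trans ?_
    rw [ENNReal.ofReal_mul (by norm_num : (0 : ℝ) ≤ 33), ENNReal.ofReal_mul (by positivity),
      ENNReal.ofReal_ofNat]
    rw [mul_assoc (eh (b0 U))]
    gcongr
    · exact eh_b0 hU
    · exact eh_be_sq hU
  refine ((ENNReal.ofReal_le_ofReal_iff (by positivity)).1 h5).trans (le_of_eq ?_)
  ring

/-- The bound of the production of the norm of `H^{1/2}`, with a parameter `R`. -/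
theorem half_log (hη : IsWeight η) {H : ℝ} (hH : ∀ a b c, |η a b c| ≤ H) (hU : RapV U)
    (hdiv : ∀ k, dp (kc k) (U k) = 0) {K θ₁ θ₂ C A : ℝ} (hK : 0 ≤ K) (hC : 0 ≤ C)
    (hθ₁ : 0 ≤ θ₁) (hθ₁' : θ₁ < 4 / 5) (hθ₂ : 0 ≤ θ₂) (hθ₂' : θ₂ < 6 / 7) (hQ : Planar A Q)
    (hX : StrongLog η Q K θ₁ θ₂ C) {ε₁ ε₂ : ℝ} (hε₁ : 0 < ε₁) (hε₂ : 0 < ε₂) {R : ℝ}
    (hR : 1 ≤ R) :
    ‖T3s (fw η (fun k => kn k ^ 1) U)‖
      ≤ (5832 * H * Real.sqrt A + 12600 * (C * Real.sqrt (Real.log (3 + R))))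
        * Real.sqrt (hn 3 U * hn 2 U * hn 1 U)
      + 2916 * H * (ck K θ₁ 1 1 * Real.sqrt (hn 0 U)
        * (ε₁ * hn 3 U + ε₁ ^ (-((1 + 5 / 2 * θ₁) / (2 - 5 / 2 * θ₁))) * hn 0 U)
      + ck K θ₂ 2 0 * Real.sqrt (hn 0 U)
        * (ε₂ * hn 3 U + ε₂ ^ (-((7 / 2 * θ₂) / (3 - 7 / 2 * θ₂))) * hn 0 U))
      + 64152 * (2 * C / Real.sqrt (Real.sqrt R)) * (Real.sqrt (hn 1 U) * hn 3 U) := by
  have hH1 := abs_e1p_le hH C R
  have hH2 := abs_e2p_le (η := η) hC hR
  have h1 := half_prod (e1p_weight hη C R) hH1 hU hdiv hK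
    (mul_nonneg hC (Real.sqrt_nonneg (Real.log (3 + R)))) hθ₁ hθ₁' hθ₂ hθ₂' hQ
    (e1p_strong hC hX) hε₁ hε₂
  have h2 := prod_crit hH2 hU hdiv
  have e : T3s (fw η (fun k => kn k ^ 1) U)
      = T3s (fw (e1p η C R) (fun k => kn k ^ 1) U) + T3s (fw (e2p η C R) (fun k => kn k ^ 1) U) := by
    rw [← T3s_add (S3s_fw hH1 hU hdiv 1) (S3s_fw hH2 hU hdiv 1)]
    congr 1
    funext k p q
    exact fw_add _ _ (ep_add η C R) _ k p q
  rw [e]
  exact (norm_add_le _ _).trans (add_le_add h1 h2)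

end Pool.Agent.X96.DM
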