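import Pool.Agent.X96.DM.Lim3
import Pool.Agent.H356R3.NS.Reg2

/-!
Weighted convolutions of families which are smooth in time.
-/

open MeasureTheory Set Filter Topology
open scoped ENNReal NNReal ContDiff
open H459R3.NS Pool.Agent.X96.HT
open Pool.Agent.H356R3.NS (SFam RD TT pw pw_pos one_le_pw pw_sub cvv)

namespace Pool.Agent.X96.DM

/-- weighted convolution of families -/
noncomputable def cvw (M : K3 → K3 → ℂ) (c d : SFam) : SFam :=
  fun k t => ∑' l, M k l * (c l t * d (k - l) t)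

variable {M : K3 → K3 → ℂ} {C : ℝ} {c d c' d' : SFam}

lemma RD.cvw (hM : ∀ k l, ‖M k l‖ ≤ C * pw k) (hc : RD c) (hd : RD d) : RD (cvw M c d) := by
  intro m
  have hc' : RD fun k t => ((‖c k t‖ : ℝ) : ℂ) := fun m => by
    obtain ⟨b, hb, h⟩ := hc m
    refine ⟨b, hb, fun k t => ?_⟩
    rw [Complex.norm_real, norm_norm]; exact h k t
  have hd' : RD fun k t => ((‖d k t‖ : ℝ) : ℂ) := fun m => by
    obtain ⟨b, hb, h⟩ := hd m
    refine ⟨b, hb, fun k t => ?_⟩
    rw [Complex.norm_real, norm_norm]; exact h k t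
  obtain ⟨b, hb, h⟩ := hc'.conv hd' (m + 1)
  obtain ⟨bc, hbc, hc2⟩ := hc.summ
  obtain ⟨bd, hbd, hd2⟩ := hd.summ
  have hC : 0 ≤ C := by
    have h1 := (norm_nonneg _).trans (hM 0 0)
    exact nonneg_of_mul_nonneg_left h1 (pw_pos 0)
  refine ⟨fun k => C * b k, hb.mul_left C, fun k t => ?_⟩
  have hp := pw_pos k
  have hs : Summable fun l => ‖c l t‖ * ‖d (k - l) t‖ := by
    refine (hbc.mul_right (∑' l, bd l)).of_nonneg_of_le (fun l => by positivity) fun l => ?_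
    have h0 : ∀ k, 0 ≤ bd k := fun k => (norm_nonneg _).trans (hd2 k t)
    exact mul_le_mul (hc2 l t) ((hd2 _ t).trans (hbd.le_tsum _ fun _ _ => h0 _)) (norm_nonneg _)
      ((norm_nonneg _).trans (hc2 l t))
  have hterm : ∀ l, ‖M k l * (c l t * d (k - l) t)‖ ≤ C * pw k * (‖c l t‖ * ‖d (k - l) t‖) := by
    intro l
    rw [norm_mul, norm_mul]
    gcongr
    exact hM k l
  have hs2 := hs.mul_left (C * pw k)
  have hs3 := hs2.of_nonneg_of_le (fun _ => norm_nonneg _) hterm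
  have h1 : ‖DM.cvw M c d k t‖ ≤ C * pw k * ∑' l, ‖c l t‖ * ‖d (k - l) t‖ := by
    unfold DM.cvw
    rw [← tsum_mul_left]
    exact (norm_tsum_le_tsum_norm hs3).trans (hs3.tsum_le_tsum hterm hs2)
  have h2 : ‖cvv (fun k t => ((‖c k t‖ : ℝ) : ℂ)) (fun k t => ((‖d k t‖ : ℝ) : ℂ)) k t‖
      = ∑' l, ‖c l t‖ * ‖d (k - l) t‖ := by
    unfold cvv
    simp only
    have : ∑' l, ((‖c l t‖ : ℝ) : ℂ) * ((‖d (k - l) t‖ : ℝ) : ℂ)
        = ((∑' l, ‖c l t‖ * ‖d (k - l) t‖ : ℝ) : ℂ) := by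
      push_cast; rfl
    rw [this, Complex.norm_real, Real.norm_eq_abs, abs_of_nonneg (tsum_nonneg fun l => by positivity)]
  have h3 := h k t
  rw [h2] at h3
  calc pw k ^ m * ‖DM.cvw M c d k t‖ ≤ pw k ^ m * (C * pw k * ∑' l, ‖c l t‖ * ‖d (k - l) t‖) := by
        gcongr
    _ = C * (pw k ^ (m + 1) * ∑' l, ‖c l t‖ * ‖d (k - l) t‖) := by rw [pow_succ]; ring
    _ ≤ _ := mul_le_mul_of_nonneg_left h3 hC

/-- the bound of the terms -/
lemma term_le (hM : ∀ k l, ‖M k l‖ ≤ C * pw k) {bx by' : K3 → ℝ} (hby : Summable by')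
    (hx : ∀ k t, ‖c k t‖ ≤ bx k) (hy : ∀ k t, ‖d k t‖ ≤ by' k) (k : K3) (t : ℝ) (l : K3) :
    ‖M k l * (c l t * d (k - l) t)‖ ≤ C * pw k * (bx l * ∑' l', by' l') := by
  have p0 : ∀ k, 0 ≤ by' k := fun k => (norm_nonneg _).trans (hy k t)
  have hC : 0 ≤ C * pw k := (norm_nonneg _).trans (hM k l)
  rw [norm_mul, norm_mul]
  have h1 := (hy (k - l) t).trans (hby.le_tsum _ fun _ _ => p0 _)
  have h2 := hx l t
  have h3 := hM k l
  have h4 : 0 ≤ bx l := (norm_nonneg _).trans h2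
  gcongr

lemma cvw_cont (hM : ∀ k l, ‖M k l‖ ≤ C * pw k) (hc : RD c) (hd : RD d)
    (hcc : ∀ k, Continuous (c k)) (hdc : ∀ k, Continuous (d k)) (k : K3) :
    Continuous (cvw M c d k) := by
  obtain ⟨b, hb, h⟩ := hc.summ
  obtain ⟨b', hb', h'⟩ := hd.summ
  unfold cvw
  exact continuous_tsum (fun l => continuous_const.mul ((hcc l).mul (hdc (k - l))))
    ((hb.mul_right _).mul_left _) fun l t => term_le hM hb' h h' k t l

lemma cvw_deriv (hM : ∀ k l, ‖M k l‖ ≤ C * pw k) (hc : RD c) (hd : RD d) (hc' : RD c')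
    (hd' : RD d') (h1 : ∀ k t, 0 < t → HasDerivAt (c k) (c' k t) t)
    (h2 : ∀ k t, 0 < t → HasDerivAt (d k) (d' k t) t) (k : K3) {t : ℝ} (ht : 0 < t) :
    HasDerivAt (cvw M c d k) (cvw M c' d k t + cvw M c d' k t) t := by
  obtain ⟨b, hb, h⟩ := hc.summ
  obtain ⟨b', hb', h'⟩ := hd.summ
  obtain ⟨b1, hb1, hh1⟩ := hc'.summ
  obtain ⟨b1', hb1', hh1'⟩ := hd'.summ
  have s1 : ∀ t, Summable fun l => M k l * (c' l t * d (k - l) t) := fun t =>
    Summable.of_norm_bounded ((hb1.mul_right _).mul_left _) fun l => term_le hM hb' hh1 h' k t l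
  have s2 : ∀ t, Summable fun l => M k l * (c l t * d' (k - l) t) := fun t =>
    Summable.of_norm_bounded ((hb.mul_right _).mul_left _) fun l => term_le hM hb1' h hh1' k t l
  have s0 : ∀ t, Summable fun l => M k l * (c l t * d (k - l) t) := fun t =>
    Summable.of_norm_bounded ((hb.mul_right _).mul_left _) fun l => term_le hM hb' h h' k t l
  have key := hasDerivAt_tsum_of_isPreconnected (t := Ioi (0 : ℝ))
    (u := fun l => C * pw k * (b1 l * (∑' l', b' l')) + C * pw k * (b l * ∑' l', b1' l'))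
    (g := fun l t => M k l * (c l t * d (k - l) t))
    (g' := fun l t => M k l * (c' l t * d (k - l) t + c l t * d' (k - l) t))
    (((hb1.mul_right _).mul_left _).add ((hb.mul_right _).mul_left _)) isOpen_Ioi isPreconnected_Ioi
    (fun l t ht => ((h1 l t ht).mul (h2 (k - l) t ht)).const_mul _)
    (fun l t _ => by
      rw [mul_add]
      exact (norm_add_le _ _).trans (add_le_add (term_le hM hb' hh1 h' k t l)
        (term_le hM hb1' h hh1' k t l)))
    (y₀ := t) ht (s0 t) ht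
  have e : ∑' l, M k l * (c' l t * d (k - l) t + c l t * d' (k - l) t)
      = cvw M c' d k t + cvw M c d' k t := by
    rw [show (fun l => M k l * (c' l t * d (k - l) t + c l t * d' (k - l) t))
      = fun l => M k l * (c' l t * d (k - l) t) + M k l * (c l t * d' (k - l) t) by
        funext l; ring]
    exact (s1 t).tsum_add (s2 t)
  rw [← e]
  exact key

lemma TT.cvw (hM : ∀ k l, ‖M k l‖ ≤ C * pw k) {n : ℕ} :
    ∀ {c d : SFam}, TT n c → TT n d → TT n (cvw M c d) := by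
  induction n with
  | zero => intro c d hc hd; exact ⟨RD.cvw hM hc.1 hd.1, cvw_cont hM hc.1 hd.1 hc.2 hd.2⟩
  | succ n ih =>
    intro c d hc hd
    have hc0 := hc.pred
    have hd0 := hd.pred
    obtain ⟨h1, h2, c', h3, h4⟩ := hc
    obtain ⟨g1, g2, d', g3, g4⟩ := hd
    exact ⟨RD.cvw hM h1 g1, cvw_cont hM h1 g1 h2 g2, _,
      fun k t ht => cvw_deriv hM h1 g1 h4.rd g4.rd h3 g3 k ht, (ih h4 hd0).add (ih hc0 g4)⟩

end Pool.Agent.X96.DM
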