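import Pool.Agent.X96.DM.Reg

/-!
The limit is smooth.
-/

open MeasureTheory Set Filter Topology
open scoped ENNReal NNReal ContDiff
open H459R3.NS Pool.Agent.X96.HT
open Pool.Agent.H356R3.NS (SFam RD TT pw pw_pos one_le_pw pw_sub cvv SF)

namespace Pool.Agent.X96.DM

variable {η : Md → Md → Md → ℝ}

lemma kn_le_pw (k : K3) : kn k ≤ pw k := by
  have h1 : kn k = Pool.Agent.H356R3.NS.nk k := rfl
  rw [h1]
  exact Pool.Agent.H356R3.NS.nk_le_pw k

lemma pw_le_N {k : K3} (hk : k ≠ 0) : pw k ≤ 4 * N k := by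
  have h1 := N_pos hk
  have h2 : ∀ j, |(k j : ℝ)| ≤ N k := by
    intro j
    have := (N_le_iff k (N k)).1 le_rfl j
    exact_mod_cast this
  unfold pw Pool.Agent.H356R3.NS.l1
  rw [Fin.sum_univ_three]
  have := h2 0
  have := h2 1
  have := h2 2
  linarith

/-- unit vectors -/
def eu (j : Fin 3) : C3 := Pi.single j 1

lemma norm_eu (j : Fin 3) : ‖eu j‖ ≤ 1 := by
  rw [pi_norm_le_iff_of_nonneg (by norm_num)]
  intro i
  unfold eu
  by_cases h : i = j
  · subst h; simp
  · simp [Pi.single_eq_of_ne h]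

lemma eu_sum (b : C3) : b = ∑ j, b j • eu j := by
  funext i
  rw [Finset.sum_apply]
  simp only [Pi.smul_apply, eu, smul_eq_mul]
  rw [Finset.sum_eq_single i]
  · simp
  · intro j _ hj; simp [Pi.single_eq_of_ne hj.symm]
  · simp

/-- the symbol -/
noncomputable def Mb (η : Md → Md → Md → ℝ) (i j m : Fin 3) (k p : K3) : ℂ :=
  bil η k p (k - p) (eu j) (eu m) i

lemma norm_Mb_le {H : ℝ} (hH : ∀ a b c, |η a b c| ≤ H) (i j m : Fin 3) (k p : K3) :
    ‖Mb η i j m k p‖ ≤ cB H * pw k := by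
  have hH0 : 0 ≤ H := (abs_nonneg _).trans (hH (0, true) (0, true) (0, true))
  have hcB := cB_nonneg hH0
  unfold Mb
  refine (norm_le_pi_norm _ i).trans ((norm_bil_le hH (by abel) _ _).trans ?_)
  have h1 := norm_eu j
  have h2 := norm_eu m
  have h3 := kn_nonneg k
  calc cB H * kn k * (‖eu j‖ * ‖eu m‖) ≤ cB H * kn k * (1 * 1) := by gcongr
    _ ≤ cB H * pw k * (1 * 1) := by gcongr; exact kn_le_pw k
    _ = _ := by ring

lemma bil_sum_left (k p q : K3) (c : C3) {ι : Type*} (s : Finset ι) (f : ι → C3) :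
    bil η k p q (∑ j ∈ s, f j) c = ∑ j ∈ s, bil η k p q (f j) c := by
  classical
  induction s using Finset.induction_on with
  | empty =>
    have := bil_smul_left η k p q 0 0 c
    simpa using this
  | insert i s hi ih => rw [Finset.sum_insert hi, Finset.sum_insert hi, bil_add_left, ih]

lemma bil_sum_right (k p q : K3) (b : C3) {ι : Type*} (s : Finset ι) (f : ι → C3) :
    bil η k p q b (∑ j ∈ s, f j) = ∑ j ∈ s, bil η k p q b (f j) := by
  classical
  induction s using Finset.induction_on with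
  | empty =>
    have := bil_smul_right η k p q 0 b 0
    simpa using this
  | insert i s hi ih => rw [Finset.sum_insert hi, Finset.sum_insert hi, bil_add_right, ih]

lemma bil_expand (k p : K3) (b c : C3) (i : Fin 3) :
    bil η k p (k - p) b c i = ∑ j, ∑ m, Mb η i j m k p * (b j * c m) := by
  conv_lhs => rw [eu_sum b, eu_sum c]
  rw [bil_sum_left, Finset.sum_apply]
  refine Finset.sum_congr rfl fun j _ => ?_
  rw [bil_sum_right, Finset.sum_apply]
  refine Finset.sum_congr rfl fun m _ => ?_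
  rw [bil_smul_left, bil_smul_right]
  unfold Mb
  simp only [Pi.smul_apply, smul_eq_mul]
  ring

lemma nonl_expand {H : ℝ} (hH : ∀ a b c, |η a b c| ≤ H) {a : ℝ → K3 → C3} {b : K3 → ℝ}
    (hb : Summable b) (hab : ∀ t k, ‖a t k‖ ≤ b k) (t : ℝ) (k : K3) (i : Fin 3) :
    nonl η (a t) k i = ∑ j, ∑ m, cvw (Mb η i j m) (fun k t => a t k j) (fun k t => a t k m) k t := by
  have hH0 : 0 ≤ H := (abs_nonneg _).trans (hH (0, true) (0, true) (0, true))
  have hb0 : ∀ k, 0 ≤ b k := fun k => (norm_nonneg _).trans (hab t k)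
  have hU : Summable fun k => ‖a t k‖ := hb.of_nonneg_of_le (fun _ => norm_nonneg _) (hab t)
  have hs := (bil_summable hH hU hU k).of_norm
  have h1 : nonl η (a t) k i = ∑' p, bil η k p (k - p) (a t p) (a t (k - p)) i := by
    unfold nonl; exact tsum_apply hs
  rw [h1]
  simp_rw [bil_expand]
  have hjm : ∀ j m, Summable fun p => Mb η i j m k p * (a t p j * a t (k - p) m) := by
    intro j m
    refine Summable.of_norm_bounded (((hb.mul_right (∑' l, b l)).mul_left (cB H * pw k))) fun p => ?_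
    rw [norm_mul, norm_mul]
    have e1 := norm_Mb_le hH i j m k p
    have e2 := (norm_le_pi_norm (a t p) j).trans (hab t p)
    have e3 := ((norm_le_pi_norm (a t (k - p)) m).trans (hab t (k - p))).trans
      (hb.le_tsum _ fun _ _ => hb0 _)
    have e4 := hb0 p
    have e5 : 0 ≤ cB H * pw k := (norm_nonneg _).trans e1
    gcongr
  rw [Summable.tsum_finsetSum fun j _ => summable_sum fun m _ => hjm j m]
  refine Finset.sum_congr rfl fun j _ => ?_
  rw [Summable.tsum_finsetSum fun m _ => hjm j m]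
  rfl

/-- rapid decrease of the limit -/
lemma rd_of_bd {a : ℝ → K3 → C3} {B : ℕ → ℝ} (h0 : ∀ t, a t 0 = 0)
    (hB : ∀ t k m, kn k ^ m * ‖a t k‖ ^ 2 ≤ B m) (i : Fin 3) : RD fun k t => a t k i := by
  intro m
  refine ⟨fun k => 4 ^ m * Real.sqrt (B (2 * (m + 4))) * mj k, mj_summable.mul_left _, fun k t => ?_⟩
  show pw k ^ m * ‖a t k i‖ ≤ 4 ^ m * Real.sqrt (B (2 * (m + 4))) * mj k
  by_cases hk : k = 0
  · subst hk
    rw [h0]
    have := mj_nonneg 0
    simp only [Pi.zero_apply, norm_zero, mul_zero]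
    positivity
  · have h1 := N_pos hk
    have h2 := N_le_kn k
    have h3 := hB t k (2 * (m + 4))
    have h4 : (N k : ℝ) ^ (m + 4) * ‖a t k‖ ≤ Real.sqrt (B (2 * (m + 4))) := by
      refine Real.le_sqrt_of_sq_le (le_trans ?_ h3)
      rw [mul_pow, ← pow_mul, mul_comm (m + 4) 2]
      gcongr
    have h5 := norm_le_pi_norm (a t k) i
    have h6 := pw_le_N hk
    have h7 := pw_pos k
    unfold mj
    rw [if_neg hk, mul_one_div, le_div_iff₀ (by positivity)]
    calc pw k ^ m * ‖a t k i‖ * (N k : ℝ) ^ 4 ≤ (4 * N k) ^ m * ‖a t k‖ * (N k : ℝ) ^ 4 := by gcongr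
      _ = 4 ^ m * ((N k : ℝ) ^ (m + 4) * ‖a t k‖) := by rw [mul_pow, pow_add]; ring
      _ ≤ _ := by gcongr

lemma TT_all (hη : IsWeight η) {ν' : ℝ} {a : ℝ → K3 → C3} {B : ℕ → ℝ} (h0 : ∀ t, a t 0 = 0)
    (hB : ∀ t k m, kn k ^ m * ‖a t k‖ ^ 2 ≤ B m) (hc : ∀ k, Continuous fun t => a t k)
    (hd : ∀ t, 0 < t → ∀ k, HasDerivAt (fun s => a s k) (Fk η ν' (a t) k) t) (n : ℕ) :
    ∀ i, TT n fun k t => a t k i := by
  obtain ⟨H, hH⟩ := hη.bdd
  have hrd := rd_of_bd h0 hB
  have hci : ∀ i k, Continuous fun t => a t k i := fun i k => (continuous_apply i).comp (hc k)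
  have hab : ∀ t k, ‖a t k‖ ≤ be6 (Real.sqrt (B 12)) k := fun t k =>
    le_be6 (fun hk => by rw [hk]; exact h0 t) (hB t k)
  induction n with
  | zero => intro i; exact ⟨hrd i, hci i⟩
  | succ n ih =>
    intro i
    refine ⟨hrd i, hci i, fun k t => (-((ν' * kn k ^ 2 : ℝ) : ℂ)) * a t k i
      + ∑ j, ∑ m, (-1 : ℂ) * cvw (Mb η i j m) (fun k t => a t k j) (fun k t => a t k m) k t,
      fun k t ht => ?_, ?_⟩
    · have h1 := (hasDerivAt_pi.1 (hd t ht k)) i
      refine h1.congr_deriv ?_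
      rw [Fk_apply, nonl_expand hH (be6_summable (Real.sqrt_nonneg _)) hab]
      simp only [neg_mul, one_mul, Finset.sum_neg_distrib]
      ring
    · refine TT.add (TT.mul (C := |ν'|) (r := 2) (fun k => ?_) (ih i)) ?_
      · rw [norm_neg, Complex.norm_real, Real.norm_eq_abs, abs_mul,
          abs_of_nonneg (by positivity : 0 ≤ kn k ^ 2)]
        have := kn_le_pw k
        have := kn_nonneg k
        gcongr
      · refine TT.sum _ fun j _ => TT.sum _ fun m _ => ?_
        exact TT.mul (C := 1) (r := 0) (fun k => by simp) (TT.cvw (norm_Mb_le hH i j m) (ih j) (ih m))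

end Pool.Agent.X96.DM
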