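import Pool.Agent.X96.DM.Reg2

/-!
The solution in physical space.
-/

open MeasureTheory Set Filter Topology
open scoped ENNReal NNReal ContDiff
open H459R3.NS Pool.Agent.X96.HT
open Pool.Agent.H356R3.NS (SFam RD TT pw pw_pos one_le_pw pw_sub cvv SF)

namespace Pool.Agent.X96.DM

variable {η : Md → Md → Md → ℝ}

lemma ex_eq_ee (k : K3) (x : V) : Pool.Agent.H356R3.NS.ex k x = ee k x := by
  unfold Pool.Agent.H356R3.NS.ex ee ph
  push_cast
  rfl

/-- the field -/
noncomputable def uf (a : ℝ → K3 → C3) (t : ℝ) (x : V) : V := fun i =>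
  (S (fun k => a t k i) x).re

lemma SF_eq (a : ℝ → K3 → C3) (i : Fin 3) (t : ℝ) (x : V) :
    SF (fun k t => a t k i) (t, x) = S (fun k => a t k i) x := by
  unfold SF S
  simp only [ex_eq_ee]

section

variable {a : ℝ → K3 → C3} {B : ℕ → ℝ}

lemma summ_i (h0 : ∀ t, a t 0 = 0) (hB : ∀ t k m, kn k ^ m * ‖a t k‖ ^ 2 ≤ B m) (t : ℝ)
    (i : Fin 3) : Summable fun k => a t k i :=
  Summable.of_norm_bounded (be6_summable (Real.sqrt_nonneg _)) fun k =>
    (norm_le_pi_norm (a t k) i).trans (le_be6 (fun hk => by rw [hk]; exact h0 t) (hB t k))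

lemma S_real (hreal : ∀ t k, a t (-k) = cj (a t k)) (t : ℝ) (i : Fin 3) (x : V) :
    ((S (fun k => a t k i) x).re : ℂ) = S (fun k => a t k i) x := by
  rw [← Complex.conj_eq_iff_re]
  unfold S
  rw [Complex.conj_tsum, ← (Equiv.neg K3).tsum_eq (fun k => a t k i * ee k x)]
  refine tsum_congr fun k => ?_
  rw [map_mul, ← ee_neg, Equiv.neg_apply, hreal]
  rfl

lemma co_uf (h0 : ∀ t, a t 0 = 0) (hB : ∀ t k m, kn k ^ m * ‖a t k‖ ^ 2 ≤ B m)
    (hreal : ∀ t k, a t (-k) = cj (a t k)) (t : ℝ) : co (uf a t) = a t := by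
  funext k i
  unfold co fr fc uf
  simp only [S_real hreal]
  have := integral_ee_S (-k) (summ_i h0 hB t i)
  rw [this, neg_neg]

lemma uf_per (t : ℝ) : Per (uf a t) := by
  intro j x
  funext i
  have h1 : ∀ k, ee k (x + Pi.single j 1) = ee k x := fun k => ee_per k j x
  unfold uf S
  simp only [h1]

lemma uf_smooth (hTT : ∀ n i, TT n fun k t => a t k i) :
    ContDiffOn ℝ ∞ (fun z : ℝ × V => uf a z.1 z.2) (Ici 0 ×ˢ univ) := by
  rw [contDiffOn_pi]
  intro i
  have h1 := Pool.Agent.H356R3.NS.SF_contDiffOn (c := fun k t => a t k i) fun n => hTT n i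
  have h2 : (fun z : ℝ × V => uf a z.1 z.2 i) = fun z => Complex.reCLM (SF (fun k t => a t k i) z) := by
    funext z
    rw [show z = (z.1, z.2) from rfl, SF_eq]
    rfl
  rw [h2]
  exact Complex.reCLM.contDiff.comp_contDiffOn h1

lemma uf_slice (hTT : ∀ n i, TT n fun k t => a t k i) {t : ℝ} (ht : 0 ≤ t) (i : Fin 3) :
    SP (fun x => uf a t x i) := by
  have h1 := contDiffOn_pi.1 (uf_smooth hTT) i
  have h2 : ContDiffOn ℝ ∞ (fun z : ℝ × V => uf a z.1 z.2 i) (Ico 0 (t + 1) ×ˢ univ) :=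
    h1.mono (prod_mono (fun s hs => hs.1) Subset.rfl)
  refine ⟨contDiff_slice (f := fun t x => uf a t x i) h2 ⟨ht, by linarith⟩, fun j x => ?_⟩
  exact congrFun (uf_per t j x) i

lemma uf_div (h0 : ∀ t, a t 0 = 0) (hB : ∀ t k m, kn k ^ m * ‖a t k‖ ^ 2 ≤ B m)
    (hreal : ∀ t k, a t (-k) = cj (a t k)) (hdiv : ∀ t k, dp (kc k) (a t k) = 0)
    (hTT : ∀ n i, TT n fun k t => a t k i) {t : ℝ} (ht : 0 ≤ t) (x : V) :
    ∑ i, pd i (fun y => uf a t y i) x = 0 := by
  have hsp := uf_slice hTT ht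
  have h1 : SP (fun x => ∑ i, pd i (fun y => uf a t y i) x) := SP.sum fun i _ => (hsp i).pd i
  have h2 : fr (fun x => ∑ i, pd i (fun y => uf a t y i) x) = 0 := by
    funext k
    rw [fr_sum fun i _ => (hsp i).pd i]
    simp_rw [fr_pd (hsp _)]
    have h3 : ∀ i, fr (fun y => uf a t y i) k = a t k i := fun i =>
      congrFun (congrFun (co_uf h0 hB hreal t) k) i
    simp only [D, h3]
    have h4 := hdiv t k
    unfold dp kc at h4
    rw [Fin.sum_univ_three]
    simp only [Pi.zero_apply]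
    linear_combination (2 * Real.pi * Complex.I) * h4
  have h5 := S_fr h1 x
  rw [h2] at h5
  have h6 : S 0 x = 0 := by unfold S; simp
  rw [h6] at h5
  exact_mod_cast h5.symm

end

/-- existence -/
theorem exists_sol (hη : IsWeight η) {ν : ℝ} (hν : 0 < ν) (hap : APr η (ν * (2 * Real.pi) ^ 2))
    {u₀ : V → V} (hs : ContDiff ℝ ∞ u₀)
    (hper : Per u₀) (hdiv : ∀ x, ∑ i, pd i (fun y => u₀ y i) x = 0)
    (hmean : ∀ i, ∫ x in cube, u₀ x i = 0) :
    ∃ (u : ℝ → V → V) (B : ℕ → ℝ), IsSolW η ν (Ici 0) u ∧ u 0 = u₀ ∧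
      ∀ t k m, kn k ^ m * ‖co (u t) k‖ ^ 2 ≤ B m := by
  have hsp : ∀ i, SP (fun x => u₀ x i) := fun i =>
    ⟨(contDiff_pi.1 hs) i, fun j x => congrFun (hper j x) i⟩
  have hν' : 0 < ν * (2 * Real.pi) ^ 2 := by positivity
  have h00 : co u₀ 0 = 0 := by
    funext i
    unfold co fr fc
    have e : ∀ x : V, ee (-0) x * ((u₀ x i : ℝ) : ℂ) = ((u₀ x i : ℝ) : ℂ) := fun x => by
      rw [neg_zero, ee_zero, one_mul]
    simp_rw [e]
    have e2 : ∫ x in cube, ((u₀ x i : ℝ) : ℂ) = ((∫ x in cube, u₀ x i : ℝ) : ℂ) :=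
      integral_complex_ofReal
    rw [e2, hmean]
    simp
  obtain ⟨a, B, ha0, hreal, hdv, h0, hB, hc, hd⟩ := exists_lim hη hν' hap
    (rapV_co hsp) h00 (dp_co hsp hdiv) fun k => by
      funext i; exact fr_neg_conj _ k
  have hTT : ∀ n i, TT n fun k t => a t k i := TT_all hη h0 hB hc hd
  have hco := co_uf h0 hB hreal
  refine ⟨uf a, B, ⟨uf_smooth hTT, fun t _ => uf_per t, fun t ht x => uf_div h0 hB hreal hdv hTT ht x,
    fun t _ ht k i => ?_⟩, ?_, fun t k m => ?_⟩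
  · have h1 := (hasDerivAt_pi.1 (hd t ht k)) i
    simp only [hco]
    refine h1.congr_deriv ?_
    rw [Fk_apply]
    congr 4
    ring
  · funext x i
    unfold uf
    rw [ha0]
    have := S_fr (hsp i) x
    have e : (fun k => co u₀ k i) = fr (fun x => u₀ x i) := rfl
    rw [e, this, Complex.ofReal_re]
  · rw [hco]; exact hB t k m

end Pool.Agent.X96.DM
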