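import Pool.Agent.X96.DM.Log

/-!
Weights of density two: the trilinear bound.
-/

open MeasureTheory Set Filter Topology
open scoped ENNReal InnerProductSpace NNReal
open H459R3.NS Pool.Agent.X96.HT

namespace Pool.Agent.X96.DM

variable {η : Md → Md → Md → ℝ} {U : K3 → C3} {w : K3 → K3 → ℝ} {A : ℝ}

/-- The nonnegative weights `w k p` (of the frequency `k` in the triad `k`, `p`, `-k-p`) have
density two, up to a logarithm: for every `k` and `r ≥ 1` the sum of `w k p ^ 2` over all `p` such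
that `k`, `p` and `k + p` are not longer than `r` is at most `A r² log (3 + r)`. -/
def DensTwo (w : K3 → K3 → ℝ) (A : ℝ) : Prop :=
  (∀ k p, 0 ≤ w k p) ∧ ∀ (k : K3) (r : ℝ), 1 ≤ r → ∀ F : Finset K3,
    (∀ p ∈ F, kn k ≤ r ∧ kn p ≤ r ∧ kn (k + p) ≤ r) →
    ∑ p ∈ F, w k p ^ 2 ≤ A * r ^ 2 * Real.log (3 + r)

lemma DensTwo.nonneg (h : DensTwo w A) : 0 ≤ A := by
  have h1 := h.2 0 1 le_rfl ∅ (by simp)
  have h2 : 0 < Real.log (3 + 1) := Real.log_pos (by norm_num)
  simp only [Finset.sum_empty, one_pow, mul_one] at h1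
  exact nonneg_of_mul_nonneg_left h1 h2

/-- the largest sup norm in a triad -/
noncomputable def mN (k p : K3) : ℕ := max (N k) (max (N p) (N (-k - p)))

/-- the dyadic shells -/
def Sh (m : ℕ) (k p : K3) : Prop := 2 ^ m ≤ mN k p ∧ mN k p < 2 ^ (m + 1)

/-- the part with high frequencies -/
noncomputable def gm (m : ℕ) (U : K3 → C3) (k : K3) : ℝ≥0∞ := by
  classical exact if 2 ^ m ≤ 2 * N k then b0 U k else 0

/-- the product of the two smallest lengths -/
noncomputable def mu (k p q : K3) : ℝ := min (kn p * kn q) (min (kn q * kn k) (kn k * kn p))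

lemma mu_nonneg (k p q : K3) : 0 ≤ mu k p q := by
  have h1 := kn_nonneg k
  have h2 := kn_nonneg p
  have h3 := kn_nonneg q
  unfold mu
  exact le_min (by positivity) (le_min (by positivity) (by positivity))

lemma kn_le_shell {m : ℕ} {k : K3} (h : N k < 2 ^ (m + 1)) : kn k ≤ 2 ^ (m + 2) := by
  have h1 := kn_le_N k
  have h2 : (N k : ℝ) ≤ 2 ^ (m + 1) := by exact_mod_cast h.le
  calc kn k ≤ 2 * N k := h1
    _ ≤ 2 * 2 ^ (m + 1) := by gcongr
    _ = 2 ^ (m + 2) := by ring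

lemma shell_case {m : ℕ} {a b c : K3} {X : ℝ} (hX : X ≤ kn a * kn b) (hb : kn b ≤ 2 ^ (m + 2)) :
    ENNReal.ofReal X * (b0 U a * b0 U b * b0 U c) ≤ 2 ^ (m + 2) * (be U a * b0 U b * b0 U c) := by
  have ha := kn_nonneg a
  have e1 : be U a = ENNReal.ofReal (kn a) * b0 U a := by
    unfold be b0
    rw [ENNReal.ofReal_mul ha]
  have e2 : ENNReal.ofReal X ≤ ENNReal.ofReal (kn a) * 2 ^ (m + 2) := by
    have h1 : X ≤ kn a * 2 ^ (m + 2) := hX.trans (by gcongr)
    refine (ENNReal.ofReal_le_ofReal h1).trans (le_of_eq ?_)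
    rw [ENNReal.ofReal_mul ha, ENNReal.ofReal_pow (by norm_num), ENNReal.ofReal_ofNat]
  calc ENNReal.ofReal X * (b0 U a * b0 U b * b0 U c)
      ≤ (ENNReal.ofReal (kn a) * 2 ^ (m + 2)) * (b0 U a * b0 U b * b0 U c) := by gcongr
    _ = _ := by rw [e1]; ring

/-- the pointwise bound on a shell -/
lemma shell_pt {m : ℕ} {k p : K3} (h : Sh m k p) :
    ENNReal.ofReal (mu k p (-k - p)) * (b0 U k * b0 U p * b0 U (-k - p))
      ≤ 2 ^ (m + 2) * (be U k * gm m U p * gm m U (-k - p)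
        + be U p * gm m U k * gm m U (-k - p)
        + be U (-k - p) * gm m U k * gm m U p) := by
  classical
  set q : K3 := -k - p with hq
  obtain ⟨h1, h2⟩ := h
  have hk : N k < 2 ^ (m + 1) := (le_max_left _ _).trans_lt h2
  have hp : N p < 2 ^ (m + 1) := ((le_max_left _ _).trans (le_max_right _ _)).trans_lt h2
  have hq' : N q < 2 ^ (m + 1) := ((le_max_right _ _).trans (le_max_right _ _)).trans_lt h2
  have t1 : N k ≤ N p + N q := N_tri k p
  have t2 : N p ≤ N k + N q := by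
    have := N_tri p k
    rwa [show -p - k = q by rw [hq]; abel] at this
  have t3 : N q ≤ N k + N p := by
    have := N_tri q k
    rwa [show -q - k = p by rw [hq]; abel] at this
  have g1 : ∀ {x : K3}, 2 ^ m ≤ 2 * N x → gm m U x = b0 U x := fun hx => if_pos hx
  have hM : 2 ^ m ≤ max (N k) (max (N p) (N q)) := h1
  have mle1 : mu k p q ≤ kn p * kn q := min_le_left _ _
  have mle2 : mu k p q ≤ kn q * kn k := (min_le_right _ _).trans (min_le_left _ _)
  have mle3 : mu k p q ≤ kn k * kn p := (min_le_right _ _).trans (min_le_right _ _)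
  rcases le_total (N k) (N p) with o1 | o1
  · rcases le_total (N k) (N q) with o2 | o2
    · -- k is the smallest
      have hp2 : 2 ^ m ≤ 2 * N p := by omega
      have hq2 : 2 ^ m ≤ 2 * N q := by omega
      have h3 := shell_case (U := U) (c := q) mle3 (kn_le_shell hp)
      rw [g1 hp2, g1 hq2]
      refine h3.trans ?_
      gcongr
      rw [add_assoc]
      exact le_self_add
    · -- q is the smallest
      have hp2 : 2 ^ m ≤ 2 * N p := by omega
      have hk2 : 2 ^ m ≤ 2 * N k := by omega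
      have h3 := shell_case (U := U) (a := q) (b := k) (c := p) mle2 (kn_le_shell hk)
      rw [g1 hp2, g1 hk2]
      calc _ = ENNReal.ofReal (mu k p q) * (b0 U q * b0 U k * b0 U p) := by ring
        _ ≤ _ := h3
        _ ≤ _ := mul_le_mul_right (le_add_left le_rfl) _
  · rcases le_total (N p) (N q) with o2 | o2
    · -- p is the smallest
      have hk2 : 2 ^ m ≤ 2 * N k := by omega
      have hq2 : 2 ^ m ≤ 2 * N q := by omega
      have h3 := shell_case (U := U) (a := p) (b := k) (c := q) (X := mu k p q)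
        (mle3.trans (le_of_eq (mul_comm _ _))) (kn_le_shell hk)
      rw [g1 hk2, g1 hq2]
      calc _ = ENNReal.ofReal (mu k p q) * (b0 U p * b0 U k * b0 U q) := by ring
        _ ≤ _ := h3
        _ ≤ _ := mul_le_mul_right (le_add_right (le_add_left le_rfl)) _
    · -- q is the smallest
      have hp2 : 2 ^ m ≤ 2 * N p := by omega
      have hk2 : 2 ^ m ≤ 2 * N k := by omega
      have h3 := shell_case (U := U) (a := q) (b := k) (c := p) mle2 (kn_le_shell hk)
      rw [g1 hp2, g1 hk2]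
      calc _ = ENNReal.ofReal (mu k p q) * (b0 U q * b0 U k * b0 U p) := by ring
        _ ≤ _ := h3
        _ ≤ _ := mul_le_mul_right (le_add_left le_rfl) _

/-- Cauchy-Schwarz with weights on the pairs -/
lemma shell_cs (I : K3 × K3 → ℝ≥0∞) {B : ℝ≥0∞} (hI : ∀ k, ∑' p, I (k, p) ^ 2 ≤ B)
    (φ ψ χ : K3 → ℝ≥0∞) :
    ∑' z : K3 × K3, I z * (φ z.1 * ψ z.2 * χ (-z.1 - z.2))
      ≤ B ^ (1 / 2 : ℝ) * (e2 φ * (e2 ψ * e2 χ)) := by
  have e : ∀ z : K3 × K3, I z * (φ z.1 * ψ z.2 * χ (-z.1 - z.2))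
      = (I z * φ z.1) * (ψ z.2 * χ (-z.1 - z.2)) := fun z => by ring
  simp_rw [e]
  refine (enn_cs _ _).trans ?_
  have h1 : ∑' z : K3 × K3, (I z * φ z.1) ^ 2 ≤ B * ∑' k, φ k ^ 2 := by
    rw [ENNReal.tsum_prod', ← ENNReal.tsum_mul_left]
    refine ENNReal.tsum_le_tsum fun k => ?_
    simp_rw [mul_pow]
    rw [ENNReal.tsum_mul_right]
    gcongr
    exact hI k
  have h2 : ∑' z : K3 × K3, (ψ z.2 * χ (-z.1 - z.2)) ^ 2 = (∑' p, ψ p ^ 2) * ∑' q, χ q ^ 2 := by
    rw [← (Equiv.prodComm K3 K3).tsum_eq, ENNReal.tsum_prod', ← ENNReal.tsum_mul_right]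
    refine tsum_congr fun p => ?_
    simp only [Equiv.prodComm_apply, Prod.swap_prod_mk, mul_pow]
    rw [ENNReal.tsum_mul_left]
    congr 1
    have : ∀ k : K3, -k - p = Equiv.subLeft (-p) k := fun k => by
      rw [Equiv.subLeft_apply]; abel
    simp_rw [this]
    exact (Equiv.subLeft (-p)).tsum_eq (fun q => χ q ^ 2)
  rw [h2]
  calc (∑' z : K3 × K3, (I z * φ z.1) ^ 2) ^ (1 / 2 : ℝ)
        * ((∑' p, ψ p ^ 2) * ∑' q, χ q ^ 2) ^ (1 / 2 : ℝ)
      ≤ (B * ∑' k, φ k ^ 2) ^ (1 / 2 : ℝ) * ((∑' p, ψ p ^ 2) * ∑' q, χ q ^ 2) ^ (1 / 2 : ℝ) := by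
        gcongr
    _ = _ := by
        rw [ENNReal.mul_rpow_of_nonneg _ _ (by norm_num), ENNReal.mul_rpow_of_nonneg _ _ (by norm_num)]
        unfold e2
        ring

/-- the weights on a shell -/
noncomputable def Iw (w : K3 → K3 → ℝ) (m : ℕ) (z : K3 × K3) : ℝ≥0∞ := by
  classical exact if Sh m z.1 z.2 then ENNReal.ofReal (w z.1 z.2) else 0

/-- the bound of the shell -/
noncomputable def Bm (A : ℝ) (m : ℕ) : ℝ := A * (2 ^ (m + 2)) ^ 2 * Real.log (3 + 2 ^ (m + 2))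

lemma Iw_sum (h : DensTwo w A) (m : ℕ) (k : K3) :
    ∑' p, Iw w m (k, p) ^ 2 ≤ ENNReal.ofReal (Bm A m) := by
  classical
  rw [ENNReal.tsum_eq_iSup_sum]
  refine iSup_le fun F => ?_
  have e : ∑ p ∈ F, Iw w m (k, p) ^ 2
      = ∑ p ∈ F.filter (fun p => Sh m k p), ENNReal.ofReal (w k p ^ 2) := by
    rw [Finset.sum_filter]
    refine Finset.sum_congr rfl fun p _ => ?_
    unfold Iw
    by_cases hp : Sh m k p
    · simp only [if_pos hp]
      rw [ENNReal.ofReal_pow (h.1 k p)]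
    · simp only [if_neg hp]
      norm_num
  rw [e, ← ENNReal.ofReal_sum_of_nonneg fun p _ => sq_nonneg _]
  refine ENNReal.ofReal_le_ofReal (h.2 k _ (one_le_pow₀ (by norm_num)) _ fun p hp => ?_)
  obtain ⟨-, hs⟩ := Finset.mem_filter.1 hp
  obtain ⟨-, h2⟩ := hs
  refine ⟨kn_le_shell ((le_max_left _ _).trans_lt h2),
    kn_le_shell (((le_max_left _ _).trans (le_max_right _ _)).trans_lt h2), ?_⟩
  have : kn (k + p) = kn (-k - p) := by
    rw [← kn_neg]; congr 1; abel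
  rw [this]
  exact kn_le_shell (((le_max_right _ _).trans (le_max_right _ _)).trans_lt h2)

/-- the sum over a shell, with any bound `φ` of the factor -/
lemma shell_sum (h : DensTwo w A) (m : ℕ) {φ : K3 → ℝ≥0∞} {c : ℝ≥0∞}
    (hφ : ∀ k, N k < 2 ^ (m + 1) → be U k ≤ c * φ k) :
    ∑' z : K3 × K3, Iw w m z * (ENNReal.ofReal (mu z.1 z.2 (-z.1 - z.2))
      * (b0 U z.1 * b0 U z.2 * b0 U (-z.1 - z.2)))
      ≤ 3 * (c * (2 ^ (m + 2) * (ENNReal.ofReal (Bm A m) ^ (1 / 2 : ℝ)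
        * (e2 φ * (e2 (gm m U) * e2 (gm m U)))))) := by
  classical
  have key : ∀ z : K3 × K3, Iw w m z * (ENNReal.ofReal (mu z.1 z.2 (-z.1 - z.2))
      * (b0 U z.1 * b0 U z.2 * b0 U (-z.1 - z.2)))
      ≤ (c * 2 ^ (m + 2)) * (Iw w m z * (φ z.1 * gm m U z.2 * gm m U (-z.1 - z.2)))
        + (c * 2 ^ (m + 2)) * (Iw w m z * (gm m U z.1 * φ z.2 * gm m U (-z.1 - z.2)))
        + (c * 2 ^ (m + 2)) * (Iw w m z * (gm m U z.1 * gm m U z.2 * φ (-z.1 - z.2))) := by
    intro z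
    by_cases hz : Sh m z.1 z.2
    · have h1 := shell_pt (U := U) hz
      obtain ⟨-, h2⟩ := hz
      have f1 := hφ z.1 ((le_max_left _ _).trans_lt h2)
      have f2 := hφ z.2 (((le_max_left _ _).trans (le_max_right _ _)).trans_lt h2)
      have f3 := hφ (-z.1 - z.2) (((le_max_right _ _).trans (le_max_right _ _)).trans_lt h2)
      calc _ ≤ Iw w m z * (2 ^ (m + 2) * (be U z.1 * gm m U z.2 * gm m U (-z.1 - z.2)
            + be U z.2 * gm m U z.1 * gm m U (-z.1 - z.2)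
            + be U (-z.1 - z.2) * gm m U z.1 * gm m U z.2)) := by gcongr
        _ ≤ Iw w m z * (2 ^ (m + 2) * ((c * φ z.1) * gm m U z.2 * gm m U (-z.1 - z.2)
            + (c * φ z.2) * gm m U z.1 * gm m U (-z.1 - z.2)
            + (c * φ (-z.1 - z.2)) * gm m U z.1 * gm m U z.2)) := by gcongr
        _ = _ := by ring
    · have : Iw w m z = 0 := by unfold Iw; rw [if_neg hz]
      rw [this]; simp
  refine (ENNReal.tsum_le_tsum key).trans ?_
  rw [ENNReal.tsum_add, ENNReal.tsum_add, ENNReal.tsum_mul_left, ENNReal.tsum_mul_left,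
    ENNReal.tsum_mul_left]
  have b1 := shell_cs (Iw w m) (Iw_sum h m) φ (gm m U) (gm m U)
  have b2 := shell_cs (Iw w m) (Iw_sum h m) (gm m U) φ (gm m U)
  have b3 := shell_cs (Iw w m) (Iw_sum h m) (gm m U) (gm m U) φ
  calc _ ≤ (c * 2 ^ (m + 2)) * (ENNReal.ofReal (Bm A m) ^ (1 / 2 : ℝ)
          * (e2 φ * (e2 (gm m U) * e2 (gm m U))))
        + (c * 2 ^ (m + 2)) * (ENNReal.ofReal (Bm A m) ^ (1 / 2 : ℝ)
          * (e2 (gm m U) * (e2 φ * e2 (gm m U))))
        + (c * 2 ^ (m + 2)) * (ENNReal.ofReal (Bm A m) ^ (1 / 2 : ℝ)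
          * (e2 (gm m U) * (e2 (gm m U) * e2 φ))) := by gcongr
    _ = _ := by ring

end Pool.Agent.X96.DM
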