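import Pool.Agent.X96.DM.Thin

/-!
Weights of density two: the sum over the shells.
-/

open MeasureTheory Set Filter Topology
open scoped ENNReal InnerProductSpace NNReal
open H459R3.NS Pool.Agent.X96.HT

namespace Pool.Agent.X96.DM

variable {η : Md → Md → Md → ℝ} {U : K3 → C3} {w : K3 → K3 → ℝ} {A : ℝ}

lemma geo_le {j : ℕ} (hj : 1 ≤ j) (L : ℕ) :
    ∑ m ∈ Finset.range (L + 1), ((2 : ℝ) ^ (m + 2)) ^ j ≤ 2 * ((2 : ℝ) ^ (L + 2)) ^ j := by
  induction L with
  | zero =>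
    have : (0 : ℝ) ≤ ((2 : ℝ) ^ 2) ^ j := by positivity
    simp only [zero_add, Finset.sum_range_one]
    linarith
  | succ L ih =>
    rw [Finset.sum_range_succ]
    have h1 : 2 * ((2 : ℝ) ^ (L + 2)) ^ j ≤ ((2 : ℝ) ^ (L + 1 + 2)) ^ j := by
      have e : (2 : ℝ) ^ (L + 1 + 2) = 2 * 2 ^ (L + 2) := by ring
      rw [e, mul_pow]
      have h2 : (2 : ℝ) ≤ 2 ^ j := by
        calc (2 : ℝ) = 2 ^ 1 := by norm_num
          _ ≤ 2 ^ j := pow_le_pow_right₀ (by norm_num) hj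
      gcongr
    linarith

lemma sum_gm {j : ℕ} (hj : 1 ≤ j) :
    ∑' m : ℕ, ENNReal.ofReal (((2 : ℝ) ^ (m + 2)) ^ j) * (e2 (gm m U) * e2 (gm m U))
      ≤ ENNReal.ofReal (2 * 8 ^ j) * ∑' k, ENNReal.ofReal (kn k ^ j) * b0 U k ^ 2 := by
  classical
  have h1 : ∀ m : ℕ, ENNReal.ofReal (((2 : ℝ) ^ (m + 2)) ^ j) * (e2 (gm m U) * e2 (gm m U))
      = ∑' k, ENNReal.ofReal (((2 : ℝ) ^ (m + 2)) ^ j) * gm m U k ^ 2 := by
    intro m
    rw [ENNReal.tsum_mul_left, ← sq]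
    unfold e2
    rw [enn_half_sq]
  simp_rw [h1]
  rw [ENNReal.tsum_comm, ← ENNReal.tsum_mul_left]
  refine ENNReal.tsum_le_tsum fun k => ?_
  by_cases hk : k = 0
  · subst hk
    have h0 : ∀ m : ℕ, gm m U 0 = 0 := by
      intro m; unfold gm; rw [b0_zero]; simp
    simp only [h0, b0_zero]
    norm_num
  · set L := Nat.log 2 (2 * N k) with hL
    have hN1 : 1 ≤ N k := Nat.one_le_iff_ne_zero.2 fun h => hk (N_eq_zero.1 h)
    have hne : 2 * N k ≠ 0 := by omega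
    have h2 : ∑' m : ℕ, ENNReal.ofReal (((2 : ℝ) ^ (m + 2)) ^ j) * gm m U k ^ 2
        = ∑ m ∈ Finset.range (L + 1), ENNReal.ofReal (((2 : ℝ) ^ (m + 2)) ^ j) * gm m U k ^ 2 := by
      refine tsum_eq_sum fun m hm => ?_
      have hm' : L < m := by
        rw [Finset.mem_range, not_lt] at hm; omega
      have h3 : ¬ (2 ^ m ≤ 2 * N k) := by
        rw [not_le]
        exact Nat.lt_pow_of_log_lt (by norm_num) hm'
      have : gm m U k = 0 := by unfold gm; rw [if_neg h3]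
      rw [this]; simp
    rw [h2]
    have h4 : ∀ m, gm m U k ≤ b0 U k := by
      intro m; unfold gm; split_ifs
      · exact le_rfl
      · exact bot_le
    have h5 : (2 : ℝ) ^ (L + 2) ≤ 8 * kn k := by
      have h6 : 2 ^ L ≤ 2 * N k := Nat.pow_log_le_self 2 hne
      have h7 : (2 : ℝ) ^ L ≤ 2 * N k := by exact_mod_cast h6
      have h8 := N_le_kn k
      calc (2 : ℝ) ^ (L + 2) = 4 * 2 ^ L := by ring
        _ ≤ 4 * (2 * kn k) := by linarith
        _ = _ := by ring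
    calc ∑ m ∈ Finset.range (L + 1), ENNReal.ofReal (((2 : ℝ) ^ (m + 2)) ^ j) * gm m U k ^ 2
        ≤ ∑ m ∈ Finset.range (L + 1), ENNReal.ofReal (((2 : ℝ) ^ (m + 2)) ^ j) * b0 U k ^ 2 := by
          refine Finset.sum_le_sum fun m _ => ?_
          gcongr
          exact h4 m
      _ = ENNReal.ofReal (∑ m ∈ Finset.range (L + 1), ((2 : ℝ) ^ (m + 2)) ^ j) * b0 U k ^ 2 := by
          rw [← Finset.sum_mul, ENNReal.ofReal_sum_of_nonneg fun m _ => by positivity]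
      _ ≤ ENNReal.ofReal (2 * (8 ^ j * kn k ^ j)) * b0 U k ^ 2 := by
          gcongr
          refine (geo_le hj L).trans ?_
          rw [← mul_pow]
          gcongr
      _ = _ := by
          rw [← mul_assoc 2, ENNReal.ofReal_mul (by positivity)]
          ring

/-- the sum over all triads -/
noncomputable def TW (w : K3 → K3 → ℝ) (U : K3 → C3) : ℝ≥0∞ :=
  TE (fun k p q => ENNReal.ofReal (w k p) * (ENNReal.ofReal (mu k p q)
    * (b0 U k * b0 U p * b0 U q)))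

lemma TW_le_shells : TW w U ≤ ∑' m : ℕ, ∑' z : K3 × K3, Iw w m z
    * (ENNReal.ofReal (mu z.1 z.2 (-z.1 - z.2)) * (b0 U z.1 * b0 U z.2 * b0 U (-z.1 - z.2))) := by
  classical
  unfold TW TE
  rw [ENNReal.tsum_comm]
  refine ENNReal.tsum_le_tsum fun z => ?_
  beta_reduce
  by_cases hM : mN z.1 z.2 = 0
  · have h1 : N z.1 = 0 := Nat.le_zero.1 ((le_max_left _ _).trans (le_of_eq hM))
    have h2 : z.1 = 0 := N_eq_zero.1 h1
    simp only [h2, b0_zero, zero_mul, mul_zero, zero_le]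
  · set m := Nat.log 2 (mN z.1 z.2) with hm
    have hS : Sh m z.1 z.2 := ⟨Nat.pow_log_le_self 2 hM, Nat.lt_pow_succ_log_self (by norm_num) _⟩
    have h1 : Iw w m z = ENNReal.ofReal (w z.1 z.2) := by unfold Iw; rw [if_pos hS]
    rw [← h1]
    exact ENNReal.le_tsum (f := fun m => Iw w m z * (ENNReal.ofReal (mu z.1 z.2 (-z.1 - z.2))
      * (b0 U z.1 * b0 U z.2 * b0 U (-z.1 - z.2)))) m

lemma half_pow (x : ℝ) (hx : 0 ≤ x) : x ^ (1 / 2 : ℝ) = Real.sqrt x := (Real.sqrt_eq_rpow x).symm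

/-- the bound on a shell with moderate frequencies -/
lemma shell_low (h : DensTwo w A) {R : ℝ} {m : ℕ} (hm : (2 : ℝ) ^ (m + 2) ≤ R) :
    ∑' z : K3 × K3, Iw w m z * (ENNReal.ofReal (mu z.1 z.2 (-z.1 - z.2))
      * (b0 U z.1 * b0 U z.2 * b0 U (-z.1 - z.2)))
      ≤ ENNReal.ofReal (3 * Real.sqrt (A * Real.log (3 + R)))
        * (e2 (be U) * (ENNReal.ofReal (((2 : ℝ) ^ (m + 2)) ^ 2) * (e2 (gm m U) * e2 (gm m U)))) := by
  have hA := h.nonneg
  have h1 := shell_sum (U := U) h m (φ := be U) (c := 1) (fun k _ => by rw [one_mul])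
  refine h1.trans ?_
  set t : ℝ := 2 ^ (m + 2) with ht
  have ht1 : 1 ≤ t := one_le_pow₀ (by norm_num)
  have hlog : 0 ≤ Real.log (3 + t) := Real.log_nonneg (by linarith)
  have hlog2 : Real.log (3 + t) ≤ Real.log (3 + R) := Real.log_le_log (by linarith) (by linarith)
  have hB : 0 ≤ Bm A m := by unfold Bm; positivity
  have h2 : t * Real.sqrt (Bm A m) ≤ Real.sqrt (A * Real.log (3 + R)) * t ^ 2 := by
    have e : Real.sqrt (Bm A m) = Real.sqrt (A * Real.log (3 + t)) * t := by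
      unfold Bm
      rw [← ht, show A * t ^ 2 * Real.log (3 + t) = A * Real.log (3 + t) * t ^ 2 by ring,
        Real.sqrt_mul (by positivity), Real.sqrt_sq (by linarith)]
    rw [e]
    have h3 : Real.sqrt (A * Real.log (3 + t)) ≤ Real.sqrt (A * Real.log (3 + R)) :=
      Real.sqrt_le_sqrt (by gcongr)
    calc t * (Real.sqrt (A * Real.log (3 + t)) * t) = Real.sqrt (A * Real.log (3 + t)) * t ^ 2 := by
          ring
      _ ≤ _ := by gcongr
  have e1 : (2 : ℝ≥0∞) ^ (m + 2) = ENNReal.ofReal t := by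
    rw [ht, ENNReal.ofReal_pow (by norm_num), ENNReal.ofReal_ofNat]
  rw [e1, ofReal_sqrt_half hB, one_mul]
  calc 3 * (ENNReal.ofReal t * (ENNReal.ofReal (Real.sqrt (Bm A m))
        * (e2 (be U) * (e2 (gm m U) * e2 (gm m U)))))
      = 3 * ENNReal.ofReal (t * Real.sqrt (Bm A m)) * (e2 (be U) * (e2 (gm m U) * e2 (gm m U))) := by
        rw [ENNReal.ofReal_mul (by linarith)]; ring
    _ ≤ 3 * ENNReal.ofReal (Real.sqrt (A * Real.log (3 + R)) * t ^ 2)
        * (e2 (be U) * (e2 (gm m U) * e2 (gm m U))) := by gcongr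
    _ = _ := by
        rw [ENNReal.ofReal_mul (Real.sqrt_nonneg _), ENNReal.ofReal_mul (by norm_num),
          ENNReal.ofReal_ofNat]
        ring

lemma be_le_bp {m : ℕ} {k : K3} (h : N k < 2 ^ (m + 1)) :
    be U k ≤ ENNReal.ofReal (Real.sqrt (2 ^ (m + 2))) * bp (1 / 2 : ℝ) U k := by
  unfold be bp
  rw [← ENNReal.ofReal_mul (Real.sqrt_nonneg _)]
  refine ENNReal.ofReal_le_ofReal ?_
  have h1 := kn_le_shell h
  have h2 := kn_nonneg k
  have h3 := bt_nonneg k (U k)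
  rw [half_pow _ h2, ← mul_assoc]
  refine mul_le_mul_of_nonneg_right ?_ h3
  calc kn k = Real.sqrt (kn k) * Real.sqrt (kn k) := (Real.mul_self_sqrt h2).symm
    _ ≤ Real.sqrt (2 ^ (m + 2)) * Real.sqrt (kn k) := by
        gcongr

/-- the bound on a shell with high frequencies -/
lemma shell_high (h : DensTwo w A) {R : ℝ} (hR : 1 ≤ R) {m : ℕ} (hm : R < (2 : ℝ) ^ (m + 2)) :
    ∑' z : K3 × K3, Iw w m z * (ENNReal.ofReal (mu z.1 z.2 (-z.1 - z.2))
      * (b0 U z.1 * b0 U z.2 * b0 U (-z.1 - z.2)))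
      ≤ ENNReal.ofReal (6 * Real.sqrt A / Real.sqrt (Real.sqrt R))
        * (e2 (bp (1 / 2 : ℝ) U)
          * (ENNReal.ofReal (((2 : ℝ) ^ (m + 2)) ^ 3) * (e2 (gm m U) * e2 (gm m U)))) := by
  have hA := h.nonneg
  have h1 := shell_sum (U := U) h m (φ := bp (1 / 2 : ℝ) U)
    (c := ENNReal.ofReal (Real.sqrt (2 ^ (m + 2)))) (fun k hk => be_le_bp hk)
  refine h1.trans ?_
  set t : ℝ := 2 ^ (m + 2) with ht
  have ht1 : 1 ≤ t := one_le_pow₀ (by norm_num)
  have ht0 : 0 < t := by linarith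
  have hR0 : 0 < R := by linarith
  have hlog : 0 ≤ Real.log (3 + t) := Real.log_nonneg (by linarith)
  have hB : 0 ≤ Bm A m := by unfold Bm; positivity
  have hsR : 0 < Real.sqrt (Real.sqrt R) := Real.sqrt_pos.2 (Real.sqrt_pos.2 hR0)
  have h2 : Real.sqrt t * (t * Real.sqrt (Bm A m))
      ≤ 2 * Real.sqrt A / Real.sqrt (Real.sqrt R) * t ^ 3 := by
    have e : Real.sqrt (Bm A m) = Real.sqrt A * t * Real.sqrt (Real.log (3 + t)) := by
      unfold Bm
      rw [← ht, Real.sqrt_mul (by positivity), Real.sqrt_mul hA, Real.sqrt_sq (by linarith)]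
    have h3 : Real.sqrt (Real.log (3 + t)) ≤ 2 * Real.sqrt (Real.sqrt t) := by
      rw [Real.sqrt_le_left (by positivity), mul_pow, Real.sq_sqrt (Real.sqrt_nonneg _)]
      have := log_le_sqrt ht1
      linarith
    have h4 : Real.sqrt (Real.sqrt R) ≤ Real.sqrt (Real.sqrt t) :=
      Real.sqrt_le_sqrt (Real.sqrt_le_sqrt hm.le)
    have h5 : Real.sqrt t = Real.sqrt (Real.sqrt t) * Real.sqrt (Real.sqrt t) :=
      (Real.mul_self_sqrt (Real.sqrt_nonneg _)).symm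
    have h6 : t = Real.sqrt t * Real.sqrt t := (Real.mul_self_sqrt ht0.le).symm
    rw [e, div_mul_eq_mul_div, le_div_iff₀ hsR]
    calc Real.sqrt t * (t * (Real.sqrt A * t * Real.sqrt (Real.log (3 + t)))) * Real.sqrt (Real.sqrt R)
        ≤ Real.sqrt t * (t * (Real.sqrt A * t * (2 * Real.sqrt (Real.sqrt t))))
          * Real.sqrt (Real.sqrt t) := by gcongr
      _ = 2 * Real.sqrt A * t ^ 2 * (Real.sqrt t * (Real.sqrt (Real.sqrt t)
          * Real.sqrt (Real.sqrt t))) := by ring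
      _ = 2 * Real.sqrt A * t ^ 3 := by rw [← h5, ← h6]; ring
  have e1 : (2 : ℝ≥0∞) ^ (m + 2) = ENNReal.ofReal t := by
    rw [ht, ENNReal.ofReal_pow (by norm_num), ENNReal.ofReal_ofNat]
  rw [e1, ofReal_sqrt_half hB]
  calc 3 * (ENNReal.ofReal (Real.sqrt t) * (ENNReal.ofReal t * (ENNReal.ofReal (Real.sqrt (Bm A m))
        * (e2 (bp (1 / 2 : ℝ) U) * (e2 (gm m U) * e2 (gm m U))))))
      = 3 * ENNReal.ofReal (Real.sqrt t * (t * Real.sqrt (Bm A m)))
        * (e2 (bp (1 / 2 : ℝ) U) * (e2 (gm m U) * e2 (gm m U))) := by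
        rw [ENNReal.ofReal_mul (Real.sqrt_nonneg _), ENNReal.ofReal_mul ht0.le]; ring
    _ ≤ 3 * ENNReal.ofReal (2 * Real.sqrt A / Real.sqrt (Real.sqrt R) * t ^ 3)
        * (e2 (bp (1 / 2 : ℝ) U) * (e2 (gm m U) * e2 (gm m U))) := by gcongr
    _ = _ := by
        have e3 : 6 * Real.sqrt A / Real.sqrt (Real.sqrt R)
            = 3 * (2 * Real.sqrt A / Real.sqrt (Real.sqrt R)) := by ring
        rw [e3, ENNReal.ofReal_mul (by positivity : 0 ≤ 2 * Real.sqrt A / Real.sqrt (Real.sqrt R)),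
          ENNReal.ofReal_mul (by norm_num : (0 : ℝ) ≤ 3), ENNReal.ofReal_ofNat]
        ring

lemma sum_kn_b0 (hU : RapV U) {j : ℕ} (hj : 1 ≤ j) :
    ∑' k, ENNReal.ofReal (kn k ^ j) * b0 U k ^ 2 ≤ ENNReal.ofReal (9 * hn j U) := by
  have h1 := bp_sq hU (α := (j / 2 : ℝ)) (m := j) (by ring) (by
    have : (1 : ℝ) ≤ j := by exact_mod_cast hj
    linarith)
  refine le_trans (le_of_eq (tsum_congr fun k => ?_)) h1
  have hk := kn_nonneg k
  have hb := bt_nonneg k (U k)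
  unfold b0 bp
  rw [← ENNReal.ofReal_pow hb, ← ENNReal.ofReal_mul (by positivity),
    ← ENNReal.ofReal_pow (mul_nonneg (Real.rpow_nonneg hk _) hb), mul_pow]
  congr 2
  rw [← Real.rpow_natCast (kn k ^ (j / 2 : ℝ)), ← Real.rpow_mul hk, ← Real.rpow_natCast]
  congr 1
  push_cast
  ring

/-- the trilinear bound for weights of density two -/
theorem TW_le (h : DensTwo w A) (hU : RapV U) {R : ℝ} (hR : 1 ≤ R) :
    TW w U ≤ ENNReal.ofReal (10368 * Real.sqrt (A * Real.log (3 + R))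
        * (Real.sqrt (hn 2 U) * hn 2 U)
      + 165888 * (Real.sqrt A / Real.sqrt (Real.sqrt R)) * (Real.sqrt (hn 1 U) * hn 3 U)) := by
  have hA := h.nonneg
  have h1 := hn_nonneg 1 U
  have h2 := hn_nonneg 2 U
  have h3 := hn_nonneg 3 U
  set G2 : ℕ → ℝ≥0∞ := fun m => ENNReal.ofReal (((2 : ℝ) ^ (m + 2)) ^ 2)
    * (e2 (gm m U) * e2 (gm m U)) with hG2
  set G3 : ℕ → ℝ≥0∞ := fun m => ENNReal.ofReal (((2 : ℝ) ^ (m + 2)) ^ 3)
    * (e2 (gm m U) * e2 (gm m U)) with hG3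
  have key : ∀ m : ℕ, ∑' z : K3 × K3, Iw w m z * (ENNReal.ofReal (mu z.1 z.2 (-z.1 - z.2))
      * (b0 U z.1 * b0 U z.2 * b0 U (-z.1 - z.2)))
      ≤ ENNReal.ofReal (3 * Real.sqrt (A * Real.log (3 + R))) * (e2 (be U) * G2 m)
        + ENNReal.ofReal (6 * Real.sqrt A / Real.sqrt (Real.sqrt R))
          * (e2 (bp (1 / 2 : ℝ) U) * G3 m) := by
    intro m
    rcases le_or_gt ((2 : ℝ) ^ (m + 2)) R with hm | hm
    · exact (shell_low h hm).trans le_self_add
    · exact (shell_high h hR hm).trans le_add_self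
  refine (TW_le_shells.trans (ENNReal.tsum_le_tsum key)).trans ?_
  rw [ENNReal.tsum_add, ENNReal.tsum_mul_left, ENNReal.tsum_mul_left, ENNReal.tsum_mul_left,
    ENNReal.tsum_mul_left]
  have s2 : ∑' m, G2 m ≤ ENNReal.ofReal (128 * (9 * hn 2 U)) := by
    refine (sum_gm (U := U) (j := 2) (by norm_num)).trans ?_
    rw [ENNReal.ofReal_mul (by norm_num : (0 : ℝ) ≤ 128)]
    gcongr
    · norm_num
    · exact sum_kn_b0 hU (by norm_num)
  have s3 : ∑' m, G3 m ≤ ENNReal.ofReal (1024 * (9 * hn 3 U)) := by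
    refine (sum_gm (U := U) (j := 3) (by norm_num)).trans ?_
    rw [ENNReal.ofReal_mul (by norm_num : (0 : ℝ) ≤ 1024)]
    gcongr
    · norm_num
    · exact sum_kn_b0 hU (by norm_num)
  have s4 : e2 (bp (1 / 2 : ℝ) U) ≤ ENNReal.ofReal (3 * Real.sqrt (hn 1 U)) := by
    have h5 := bp_sq hU (α := (1 / 2 : ℝ)) (m := 1) (by norm_num) (by norm_num)
    unfold e2
    calc (∑' k, bp (1 / 2 : ℝ) U k ^ 2) ^ (1 / 2 : ℝ) ≤ (ENNReal.ofReal (9 * hn 1 U)) ^ (1 / 2 : ℝ) := by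
          gcongr
      _ = ENNReal.ofReal (Real.sqrt (9 * hn 1 U)) := ofReal_sqrt_half (by positivity)
      _ = _ := by
          rw [Real.sqrt_mul (by norm_num), show (9 : ℝ) = 3 ^ 2 by norm_num,
            Real.sqrt_sq (by norm_num)]
  have s5 := e2_be hU
  rw [ENNReal.ofReal_add (by positivity) (by positivity)]
  refine add_le_add ?_ ?_
  · calc ENNReal.ofReal (3 * Real.sqrt (A * Real.log (3 + R))) * (e2 (be U) * ∑' m, G2 m)
        ≤ ENNReal.ofReal (3 * Real.sqrt (A * Real.log (3 + R)))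
          * (ENNReal.ofReal (3 * Real.sqrt (hn 2 U)) * ENNReal.ofReal (128 * (9 * hn 2 U))) := by
          gcongr
      _ = _ := by
          rw [← ENNReal.ofReal_mul (by positivity), ← ENNReal.ofReal_mul (by positivity)]
          congr 1
          ring
  · calc ENNReal.ofReal (6 * Real.sqrt A / Real.sqrt (Real.sqrt R))
          * (e2 (bp (1 / 2 : ℝ) U) * ∑' m, G3 m)
        ≤ ENNReal.ofReal (6 * Real.sqrt A / Real.sqrt (Real.sqrt R))
          * (ENNReal.ofReal (3 * Real.sqrt (hn 1 U)) * ENNReal.ofReal (1024 * (9 * hn 3 U))) := by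
          gcongr
      _ = _ := by
          rw [← ENNReal.ofReal_mul (by positivity), ← ENNReal.ofReal_mul (by positivity)]
          congr 1
          ring

end Pool.Agent.X96.DM
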