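import Pool.Agent.X96.DM.Defs

/-!
The weighted trilinear form.
-/

open MeasureTheory Set Filter Topology
open scoped ENNReal
open H459R3.NS Pool.Agent.X96.HT

namespace Pool.Agent.X96.DM

variable {η : Md → Md → Md → ℝ} {U : K3 → C3} {w : K3 → ℝ} {k p q : K3}

/-- one term -/
def t0 (q : K3) (a b c : C3) : ℂ := Complex.I * (dp (kc q) b * dp c a)

/-- the weighted form on one triad -/
noncomputable def fw (η : Md → Md → Md → ℝ) (w : K3 → ℝ) (U : K3 → C3) (k p q : K3) : ℂ :=
  w k * ∑ r : Bool, ∑ s : Bool, ∑ t : Bool, (η (k, r) (p, s) (q, t) : ℂ) *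
    t0 q (par r k (U k)) (par s p (U p)) (par t q (U q))

lemma dp_comm (a b : C3) : dp a b = dp b a := by unfold dp; ring

/-- the adjoint of the helical projection -/
lemma dp_hel_adj (r : Bool) (k : K3) (a c : C3) : dp a (hel r k c) = dp (hel r (-k) a) c := by
  by_cases hk : k = 0
  · subst hk
    rw [neg_zero, hel_at_zero, hel_at_zero]
    unfold dp; simp
  · unfold hel
    rw [if_neg hk, if_neg (neg_ne_zero.2 hk), kn_neg]
    unfold dp kc
    simp only [cp0, cp1, cp2, Pi.neg_apply, Int.cast_neg]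
    ring

lemma IsWeight.perm132 (h : IsWeight η) (a b c : Md) : η a c b = η a b c :=
  (h.swap c a b).trans (h.rot c a b).symm

lemma sum3_swap12 (g : Bool → Bool → Bool → ℂ) :
    ∑ r, ∑ s, ∑ t, g s r t = ∑ r, ∑ s, ∑ t, g r s t := by
  simp only [Fintype.sum_bool]; ring

lemma sum3_swap23 (g : Bool → Bool → Bool → ℂ) :
    ∑ r, ∑ s, ∑ t, g r t s = ∑ r, ∑ s, ∑ t, g r s t := by
  simp only [Fintype.sum_bool]; ring

lemma sum3_swap13 (g : Bool → Bool → Bool → ℂ) :
    ∑ r, ∑ s, ∑ t, g t s r = ∑ r, ∑ s, ∑ t, g r s t := by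
  simp only [Fintype.sum_bool]; ring

lemma sum3_rot (g : Bool → Bool → Bool → ℂ) :
    ∑ r, ∑ s, ∑ t, g t r s = ∑ r, ∑ s, ∑ t, g r s t := by
  simp only [Fintype.sum_bool]; ring

lemma sum3_rot' (g : Bool → Bool → Bool → ℂ) :
    ∑ r, ∑ s, ∑ t, g s t r = ∑ r, ∑ s, ∑ t, g r s t := by
  simp only [Fintype.sum_bool]; ring

/-- the symmetrization -/
lemma fw_sym (h : IsWeight η) (w : K3 → ℝ) (U : K3 → C3) (k p q : K3) :
    (fw η w U k p q + fw η w U k q p) + (fw η w U p q k + fw η w U p k q)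
      + (fw η w U q k p + fw η w U q p k)
    = ∑ r : Bool, ∑ s : Bool, ∑ t : Bool, (η (k, r) (p, s) (q, t) : ℂ) *
      Gs (w k) (w p) (w q) (kc k) (kc p) (kc q) (par r k (U k)) (par s p (U p))
        (par t q (U q)) := by
  set e : Bool → Bool → Bool → ℂ := fun r s t => (η (k, r) (p, s) (q, t) : ℂ) with he
  set a := fun r => par r k (U k) with ha
  set b := fun s => par s p (U p) with hb
  set c := fun t => par t q (U q) with hc
  have e1 : fw η w U k p q = w k * ∑ r, ∑ s, ∑ t, e r s t * t0 q (a r) (b s) (c t) := rfl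
  have e2 : fw η w U k q p = w k * ∑ r, ∑ s, ∑ t, e r s t * t0 p (a r) (c t) (b s) := by
    rw [← sum3_swap23 (fun r s t => e r s t * t0 p (a r) (c t) (b s))]
    unfold fw
    simp only [he, ha, hb, hc]
    congr 1
    refine Finset.sum_congr rfl fun r _ => Finset.sum_congr rfl fun s _ =>
      Finset.sum_congr rfl fun t _ => ?_
    rw [h.perm132]
  have e3 : fw η w U p q k = w p * ∑ r, ∑ s, ∑ t, e r s t * t0 k (b s) (c t) (a r) := by
    rw [← sum3_rot (fun r s t => e r s t * t0 k (b s) (c t) (a r))]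
    unfold fw
    simp only [he, ha, hb, hc]
    congr 1
    refine Finset.sum_congr rfl fun r _ => Finset.sum_congr rfl fun s _ =>
      Finset.sum_congr rfl fun t _ => ?_
    rw [h.rot]
  have e4 : fw η w U p k q = w p * ∑ r, ∑ s, ∑ t, e r s t * t0 q (b s) (a r) (c t) := by
    rw [← sum3_swap12 (fun r s t => e r s t * t0 q (b s) (a r) (c t))]
    unfold fw
    simp only [he, ha, hb, hc]
    congr 1
    refine Finset.sum_congr rfl fun r _ => Finset.sum_congr rfl fun s _ =>
      Finset.sum_congr rfl fun t _ => ?_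
    rw [h.swap]
  have e5 : fw η w U q k p = w q * ∑ r, ∑ s, ∑ t, e r s t * t0 p (c t) (a r) (b s) := by
    rw [← sum3_rot' (fun r s t => e r s t * t0 p (c t) (a r) (b s))]
    unfold fw
    simp only [he, ha, hb, hc]
    congr 1
    refine Finset.sum_congr rfl fun r _ => Finset.sum_congr rfl fun s _ =>
      Finset.sum_congr rfl fun t _ => ?_
    rw [← h.rot (q, r) (k, s) (p, t)]
  have e6 : fw η w U q p k = w q * ∑ r, ∑ s, ∑ t, e r s t * t0 k (c t) (b s) (a r) := by
    rw [← sum3_swap13 (fun r s t => e r s t * t0 k (c t) (b s) (a r))]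
    unfold fw
    simp only [he, ha, hb, hc]
    congr 1
    refine Finset.sum_congr rfl fun r _ => Finset.sum_congr rfl fun s _ =>
      Finset.sum_congr rfl fun t _ => ?_
    rw [← h.rot (q, r) (p, s) (k, t), h.swap (k, t) (p, s) (q, r) ]
  rw [e1, e2, e3, e4, e5, e6]
  simp only [Finset.mul_sum, ← Finset.sum_add_distrib]
  refine Finset.sum_congr rfl fun r _ => Finset.sum_congr rfl fun s _ =>
      Finset.sum_congr rfl fun t _ => ?_
  unfold t0 Gs tau
  rw [dp_comm (c t) (a r), dp_comm (b s) (a r), dp_comm (c t) (b s)]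
  ring

/-- the other bound: the frequency of the first factor -/
lemma dp_shift (h : k + p + q = 0) {b : C3} (hb : dp (kc p) b = 0) :
    dp (kc q) b = -dp (kc k) b := by
  have e := kc_sum h
  have e0 := e 0
  have e1 := e 1
  have e2 := e 2
  unfold dp at *
  linear_combination b 0 * e0 + b 1 * e1 + b 2 * e2 - hb

/-- the absolute bound of the form -/
lemma norm_fw_le {H : ℝ} (hH : ∀ a b c, |η a b c| ≤ H) (h : k + p + q = 0)
    (hp : dp (kc p) (U p) = 0) :
    ‖fw η w U k p q‖ ≤ 9 * H * (|w k| * kn k) * (bt k (U k) * bt p (U p) * bt q (U q)) := by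
  have hH0 : 0 ≤ H := (abs_nonneg _).trans (hH (k, true) (p, true) (q, true))
  have hk := kn_nonneg k
  have key : ∀ r s t, ‖(η (k, r) (p, s) (q, t) : ℂ) *
      t0 q (par r k (U k)) (par s p (U p)) (par t q (U q))‖
      ≤ 9 * H * kn k * (‖par r k (U k)‖ * ‖par s p (U p)‖ * ‖par t q (U q)‖) := by
    intro r s t
    unfold t0
    rw [dp_shift h (dp_par s hp), norm_mul, norm_mul, norm_mul, norm_neg, Complex.norm_I, one_mul,
      Complex.norm_real, Real.norm_eq_abs]
    have h1 := norm_dp_le (kc k) (par s p (U p))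
    have h2 := norm_dp_le (par t q (U q)) (par r k (U k))
    have h3 := norm_kc_le k
    calc |η (k, r) (p, s) (q, t)| * (‖dp (kc k) (par s p (U p))‖
          * ‖dp (par t q (U q)) (par r k (U k))‖)
        ≤ H * ((3 * (kn k * ‖par s p (U p)‖)) * (3 * (‖par t q (U q)‖ * ‖par r k (U k)‖))) := by
          gcongr
          · exact hH _ _ _
          · exact h1.trans (by gcongr)
      _ = _ := by ring
  unfold fw
  rw [norm_mul, Complex.norm_real, Real.norm_eq_abs]
  have hs : ‖∑ r : Bool, ∑ s : Bool, ∑ t : Bool, (η (k, r) (p, s) (q, t) : ℂ) *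
      t0 q (par r k (U k)) (par s p (U p)) (par t q (U q))‖
      ≤ ∑ r : Bool, ∑ s : Bool, ∑ t : Bool,
        9 * H * kn k * (‖par r k (U k)‖ * ‖par s p (U p)‖ * ‖par t q (U q)‖) := by
    refine (norm_sum_le _ _).trans (Finset.sum_le_sum fun r _ => ?_)
    refine (norm_sum_le _ _).trans (Finset.sum_le_sum fun s _ => ?_)
    exact (norm_sum_le _ _).trans (Finset.sum_le_sum fun t _ => key r s t)
  calc |w k| * _ ≤ |w k| * ∑ r : Bool, ∑ s : Bool, ∑ t : Bool,
        9 * H * kn k * (‖par r k (U k)‖ * ‖par s p (U p)‖ * ‖par t q (U q)‖) := by gcongr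
    _ = _ := by
      simp only [Fintype.sum_bool]
      unfold bt
      ring

end Pool.Agent.X96.DM
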