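import Pool.Agent.X96.DM.Lim2

/-!
Uniqueness.
-/

open MeasureTheory Set Filter Topology
open scoped ENNReal InnerProductSpace NNReal ContDiff
open H459R3.NS Pool.Agent.X96.HT

namespace Pool.Agent.X96.DM

variable {η : Md → Md → Md → ℝ} {ν T : ℝ} {u v : ℝ → V → V}

lemma IsSolW.mono {I J : Set ℝ} (h : IsSolW η ν I u) (hJ : J ⊆ I) : IsSolW η ν J u where
  smooth := h.smooth.mono (prod_mono hJ Subset.rfl)
  per := fun t ht => h.per t (hJ ht)
  divfree := fun t ht => h.divfree t (hJ ht)
  eqn := fun t ht => h.eqn t (hJ ht)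

lemma IsSolW.sp (h : IsSolW η ν (Ico 0 T) u) {t : ℝ} (ht : t ∈ Ico 0 T) (i : Fin 3) :
    SP (fun x => u t x i) :=
  ⟨contDiff_slice (f := fun t x => u t x i) (contDiffOn_pi.1 h.smooth i) ht,
    fun j x => congrFun (h.per t ht j x) i⟩

lemma IsSolW.bound (h : IsSolW η ν (Ico 0 T) u) {b : ℝ} (hb : b < T) :
    ∃ β : K3 → ℝ, Summable β ∧ ∀ t ∈ Icc 0 b, ∀ k, ‖co (u t) k‖ ≤ β k := by
  choose C hC0 hC using fun i => unif_decay (f := fun s y => u s y i)
    (contDiffOn_pi.1 h.smooth i) (fun t ht => (h.sp ht i).per) hb 4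
  choose C' hC0' hC' using fun i => unif_decay (f := fun s y => u s y i)
    (contDiffOn_pi.1 h.smooth i) (fun t ht => (h.sp ht i).per) hb 0
  refine ⟨fun k => (∑ i, C i) * mj k + (∑ i, C' i) * (if k = 0 then 1 else 0),
    (mj_summable.mul_left _).add (Summable.mul_left _ ?_), fun t ht k => ?_⟩
  · exact summable_of_ne_finset_zero (s := {0}) fun k hk => if_neg (by simpa using hk)
  · have e1 : 0 ≤ ∑ i, C i := Finset.sum_nonneg fun i _ => hC0 i
    have e2 : 0 ≤ ∑ i, C' i := Finset.sum_nonneg fun i _ => hC0' i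
    show ‖co (u t) k‖ ≤ (∑ i, C i) * mj k + (∑ i, C' i) * (if k = 0 then 1 else 0)
    by_cases hk : k = 0
    · rw [if_pos hk, mul_one]
      have h1 := mj_nonneg k
      have h2 : ‖co (u t) k‖ ≤ ∑ i, C' i := by
        refine norm_co_le e2 fun i => ?_
        have := hC' i t ht k
        rw [pow_zero, one_mul] at this
        exact this.trans (Finset.single_le_sum (fun i _ => hC0' i) (Finset.mem_univ i))
      have : 0 ≤ (∑ i, C i) * mj k := by positivity
      linarith
    · rw [if_neg hk, mul_zero, add_zero]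
      unfold mj
      rw [if_neg hk, mul_one_div]
      have hN := N_pos hk
      refine norm_co_le (div_nonneg e1 (by positivity)) fun i => ?_
      rw [le_div_iff₀ (by positivity), mul_comm]
      exact (hC i t ht k).trans (Finset.single_le_sum (fun i _ => hC0 i) (Finset.mem_univ i))

lemma IsSolW.cont (h : IsSolW η ν (Ico 0 T) u) (k : K3) (i : Fin 3) :
    ContinuousOn (fun s => co (u s) k i) (Ico 0 T) :=
  continuousOn_fr (f := fun s y => u s y i) (contDiffOn_pi.1 h.smooth i) k

/-- The solution is unique. -/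
theorem uniq (hη : IsWeight η) (hν : 0 < ν) (hu : IsSolW η ν (Ico 0 T) u)
    (hv : IsSolW η ν (Ico 0 T) v) (h0 : u 0 = v 0) : ∀ t ∈ Ico 0 T, u t = v t := by
  obtain ⟨H, hH⟩ := hη.bdd
  have hH0 : 0 ≤ H := (abs_nonneg _).trans (hH (0, true) (0, true) (0, true))
  have hcB := cB_nonneg hH0
  intro b hb
  obtain ⟨β₁, hβ₁, hb1⟩ := hu.bound hb.2
  obtain ⟨β₂, hβ₂, hb2⟩ := hv.bound hb.2
  set β : K3 → ℝ := fun k => β₁ k + β₂ k with hβdef
  have hβ : Summable β := hβ₁.add hβ₂
  have hI0 : (0 : ℝ) ∈ Icc 0 b := ⟨le_rfl, hb.1⟩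
  have hn1 : ∀ k, 0 ≤ β₁ k := fun k => (norm_nonneg _).trans (hb1 0 hI0 k)
  have hn2 : ∀ k, 0 ≤ β₂ k := fun k => (norm_nonneg _).trans (hb2 0 hI0 k)
  have hU : ∀ t ∈ Icc 0 b, ∀ k, ‖co (u t) k‖ ≤ β k := fun t ht k =>
    (hb1 t ht k).trans (le_add_of_nonneg_right (hn2 k))
  have hV : ∀ t ∈ Icc 0 b, ∀ k, ‖co (v t) k‖ ≤ β k := fun t ht k =>
    (hb2 t ht k).trans (le_add_of_nonneg_left (hn1 k))
  set M := ∑' k, β k with hM
  have hM0 : 0 ≤ M := tsum_nonneg fun k => add_nonneg (hn1 k) (hn2 k)
  set G : ℝ := cB H * (2 * M) with hG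
  have hG0 : 0 ≤ G := by positivity
  set ν' : ℝ := ν * (2 * Real.pi) ^ 2 with hν'
  have hν'0 : 0 < ν' := by positivity
  set c : ℝ := G ^ 2 / (2 * ν') with hc
  have hc0 : 0 ≤ c := by positivity
  have hsub : Icc 0 b ⊆ Ico 0 T := fun s hs => ⟨hs.1, hs.2.trans_lt hb.2⟩
  -- the iterated estimate
  have key : ∀ n : ℕ, ∀ t ∈ Icc 0 b, ∀ k, ‖co (u t) k - co (v t) k‖ ^ 2
      ≤ (M * 2) ^ 2 * (c * t) ^ n / n.factorial := by
    intro n
    induction n with
    | zero =>
      intro t ht k
      rw [pow_zero, Nat.factorial_zero, Nat.cast_one, mul_one, div_one]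
      have h1 := hU t ht k
      have h2 := hV t ht k
      have h3 : β k ≤ M := hβ.le_tsum k fun j _ => add_nonneg (hn1 j) (hn2 j)
      have h4 : ‖co (u t) k - co (v t) k‖ ≤ M * 2 := (norm_sub_le _ _).trans (by linarith)
      gcongr
    | succ n ih =>
      intro t ht k
      -- componentwise
      have comp : ∀ i, ‖co (u t) k i - co (v t) k i‖ ^ 2
          ≤ (M * 2) ^ 2 * (c * t) ^ (n + 1) / (n + 1).factorial := by
        intro i
        set w : ℝ → ℂ := fun s => co (u s) k i - co (v s) k i with hw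
        set f : ℝ → ℝ := fun s => (M * 2) ^ 2 * (c * s) ^ n / n.factorial with hf
        set F : ℝ → ℝ := fun s => (M * 2) ^ 2 * (c * s) ^ (n + 1) / (n + 1).factorial with hF
        have hwd : ∀ s ∈ Ioo 0 b, HasDerivAt w (-((ν' * kn k ^ 2 : ℝ) : ℂ) * w s
            - (nonl η (co (u s)) k - nonl η (co (v s)) k) i) s := by
          intro s hs
          have hsI : s ∈ Ico 0 T := hsub ⟨hs.1.le, hs.2.le⟩
          refine ((hu.eqn s hsI hs.1 k i).sub (hv.eqn s hsI hs.1 k i)).congr_deriv ?_
          simp only [hw, hν', Pi.sub_apply]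
          push_cast
          ring
        have hwc : ContinuousOn w (Icc 0 b) := ((hu.cont k i).sub (hv.cont k i)).mono hsub
        have hFd : ∀ s, HasDerivAt F (c * f s) s := by
          intro s
          have h1 : HasDerivAt (fun s : ℝ => (M * 2) ^ 2 * (c * s) ^ (n + 1) / (n + 1).factorial)
              ((M * 2) ^ 2 * (((n + 1 : ℕ) : ℝ) * (c * s) ^ (n + 1 - 1) * (c * 1))
                / (n + 1).factorial) s :=
            ((((hasDerivAt_id s).const_mul c).pow (n + 1)).const_mul _).div_const _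
          refine h1.congr_deriv ?_
          have hfac : ((n + 1).factorial : ℝ) = (n + 1 : ℕ) * (n.factorial : ℝ) := by
            rw [Nat.factorial_succ]; push_cast; ring
          simp only [hf, Nat.add_sub_cancel, mul_one]
          rw [hfac]
          have e1 : (0 : ℝ) < (n + 1 : ℕ) := by positivity
          have e2 : (0 : ℝ) < (n.factorial : ℝ) := by positivity
          field_simp
        have hnl : ∀ s ∈ Icc 0 b, ‖(nonl η (co (u s)) k - nonl η (co (v s)) k) i‖
            ≤ G * kn k * Real.sqrt (f s) := by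
          intro s hs
          have h1 := norm_nonl_sub_le hH hβ (hU s hs) (hV s hs) (d := Real.sqrt (f s))
            (fun p => Real.le_sqrt_of_sq_le (ih s hs p)) k
          refine (norm_le_pi_norm _ i).trans (h1.trans (le_of_eq ?_))
          rw [hG]; ring
        -- monotonicity
        have hmono : MonotoneOn (fun s => F s - ‖w s‖ ^ 2) (Icc 0 b) := by
          have hd : ∀ s ∈ Ioo 0 b, HasDerivAt (fun s => F s - ‖w s‖ ^ 2)
              (c * f s - 2 * ⟪w s, -((ν' * kn k ^ 2 : ℝ) : ℂ) * w s
                - (nonl η (co (u s)) k - nonl η (co (v s)) k) i⟫_ℝ) s := fun s hs =>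
            (hFd s).sub (hwd s hs).norm_sq
          refine monotoneOn_of_deriv_nonneg (convex_Icc 0 b) ?_ ?_ ?_
          · have hFc : ContinuousOn F (Icc 0 b) := fun s _ =>
              (hFd s).continuousAt.continuousWithinAt
            exact hFc.sub (hwc.norm.pow 2)
          · intro s hs
            rw [interior_Icc] at hs
            exact (hd s hs).differentiableAt.differentiableWithinAt
          · intro s hs
            rw [interior_Icc] at hs
            rw [(hd s hs).deriv]
            have hsI : s ∈ Icc 0 b := ⟨hs.1.le, hs.2.le⟩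
            have h1 := hnl s hsI
            set z := (nonl η (co (u s)) k - nonl η (co (v s)) k) i with hz
            have hfs : 0 ≤ f s := by
              have : 0 ≤ c * s := mul_nonneg hc0 hs.1.le
              simp only [hf]; positivity
            have h2 : ⟪w s, -((ν' * kn k ^ 2 : ℝ) : ℂ) * w s - z⟫_ℝ
                = -(ν' * kn k ^ 2 * ‖w s‖ ^ 2) - ⟪w s, z⟫_ℝ := by
              rw [inner_sub_right]
              congr 1
              rw [Complex.inner, ← Complex.normSq_eq_norm_sq, Complex.normSq_apply]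
              simp only [Complex.mul_re, Complex.neg_re, Complex.neg_im, Complex.mul_im,
                Complex.ofReal_re, Complex.ofReal_im, Complex.conj_re, Complex.conj_im]
              ring
            rw [h2]
            have h3 : -⟪w s, z⟫_ℝ ≤ ‖w s‖ * ‖z‖ := by
              have := abs_real_inner_le_norm (w s) z
              have h4 := neg_abs_le (⟪w s, z⟫_ℝ)
              linarith
            have h5 : ‖w s‖ * ‖z‖ ≤ ‖w s‖ * (G * kn k * Real.sqrt (f s)) := by gcongr
            have h6 : 2 * (‖w s‖ * (G * kn k * Real.sqrt (f s)))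
                ≤ 2 * ν' * kn k ^ 2 * ‖w s‖ ^ 2 + c * f s := by
              have h7 : 2 * ν' * kn k ^ 2 * ‖w s‖ ^ 2 + c * f s
                  - 2 * (‖w s‖ * (G * kn k * Real.sqrt (f s)))
                  = (2 * ν' * kn k * ‖w s‖ - G * Real.sqrt (f s)) ^ 2 / (2 * ν') := by
                rw [hc]
                field_simp
                rw [sub_sq, mul_pow G, Real.sq_sqrt hfs]
                ring
              have h8 : 0 ≤ (2 * ν' * kn k * ‖w s‖ - G * Real.sqrt (f s)) ^ 2 / (2 * ν') := by
                positivity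
              linarith
            linarith
        have h1 := hmono hI0 ht ht.1
        have h2 : F 0 - ‖w 0‖ ^ 2 = 0 := by
          simp only [hF, hw, h0]
          simp
        simp only at h1
        rw [h2] at h1
        have h3 : ‖w t‖ ^ 2 ≤ F t := by linarith
        exact h3
      have hpos : 0 ≤ (M * 2) ^ 2 * (c * t) ^ (n + 1) / (n + 1).factorial := by
        have := ht.1
        positivity
      have h4 : ‖co (u t) k - co (v t) k‖
          ≤ Real.sqrt ((M * 2) ^ 2 * (c * t) ^ (n + 1) / (n + 1).factorial) := by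
        rw [pi_norm_le_iff_of_nonneg (Real.sqrt_nonneg _)]
        intro i
        exact Real.le_sqrt_of_sq_le (comp i)
      calc ‖co (u t) k - co (v t) k‖ ^ 2
          ≤ Real.sqrt ((M * 2) ^ 2 * (c * t) ^ (n + 1) / (n + 1).factorial) ^ 2 := by gcongr
        _ = _ := Real.sq_sqrt hpos
  -- conclusion
  have hzero : ∀ k, co (u b) k = co (v b) k := by
    intro k
    have hb' : b ∈ Icc 0 b := ⟨hb.1, le_rfl⟩
    have h1 : Tendsto (fun n : ℕ => (M * 2) ^ 2 * (c * b) ^ n / n.factorial) atTop (𝓝 0) := by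
      have := (FloorSemiring.tendsto_pow_div_factorial_atTop (c * b)).const_mul ((M * 2) ^ 2)
      rw [mul_zero] at this
      exact this.congr fun n => by ring
    have h2 : ‖co (u b) k - co (v b) k‖ ^ 2 ≤ 0 :=
      ge_of_tendsto' h1 fun n => key n b hb' k
    have h3 : ‖co (u b) k - co (v b) k‖ = 0 := by
      have := sq_nonneg ‖co (u b) k - co (v b) k‖
      exact pow_eq_zero_iff (two_ne_zero) |>.1 (le_antisymm h2 this)
    exact sub_eq_zero.1 (norm_eq_zero.1 h3)
  funext x i
  have h1 := S_fr (hu.sp hb i) x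
  have h2 := S_fr (hv.sp hb i) x
  have h3 : fr (fun x => u b x i) = fr (fun x => v b x i) := by
    funext k; exact congrFun (hzero k) i
  rw [h3, h2] at h1
  exact_mod_cast h1.symm

end Pool.Agent.X96.DM
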